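import Mathlib

set_option autoImplicit false

/-!
# Bounded-depth Frege systems with modular counting gates

Formulas with unbounded fan-in connectives `∧`, `∨`, with `¬` and with the connectives `MOD_{p,i}`;
their depth above the subformulas with few variables; the rank of the large outermost `MOD` gates; a
general class of Frege systems, and the tautologies which state that `n` points have no partition
into sets of size `q`.
-/

namespace Pool.Agent.L0h36.BG

/-- Formulas over the variables `α`: variables, negation, conjunction and disjunction of any number
of formulas, and the connectives `MOD_{p,i}`. The constants are the conjunction and the disjunction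
of no formulas. -/
inductive Fml (p : ℕ) (α : Type) : Type
  | var (x : α) : Fml p α
  | neg (φ : Fml p α) : Fml p α
  | and (k : ℕ) (f : Fin k → Fml p α) : Fml p α
  | or (k : ℕ) (f : Fin k → Fml p α) : Fml p α
  | mod (i : ZMod p) (k : ℕ) (f : Fin k → Fml p α) : Fml p α

namespace Fml

variable {p : ℕ} {α : Type}

/-- The truth value under an assignment; `mod i k f` is true iff the number of true formulas among
the `f j` is congruent to `i` modulo `p`. -/
def Holds (v : α → Prop) : Fml p α → Prop
  | var x => v x
  | neg φ => ¬ Holds v φ
  | and _ f => ∀ j, Holds v (f j)
  | or _ f => ∃ j, Holds v (f j)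
  | mod i _ f => (({j | Holds v (f j)}.ncard : ℕ) : ZMod p) = i

/-- The number of symbols. -/
def size : Fml p α → ℕ
  | var _ => 1
  | neg φ => φ.size + 1
  | and _ f => (∑ j, (f j).size) + 1
  | or _ f => (∑ j, (f j).size) + 1
  | mod _ _ f => (∑ j, (f j).size) + 1

/-- Is the formula a negation? -/
def isNeg : Fml p α → Bool
  | neg _ => true
  | _ => false

/-- Is the formula a conjunction? -/
def isAnd : Fml p α → Bool
  | and _ _ => true
  | _ => false

/-- Is the formula a disjunction? -/
def isOr : Fml p α → Bool
  | or _ _ => true
  | _ => false

/-- The set of the variables of the formula. -/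
def vars : Fml p α → Set α
  | var x => {x}
  | neg φ => φ.vars
  | and _ f => ⋃ j, (f j).vars
  | or _ f => ⋃ j, (f j).vars
  | mod _ _ f => ⋃ j, (f j).vars

/-- The formula has at most `s` variables. -/
def Small (s : ℕ) (φ : Fml p α) : Prop := φ.vars.ncard ≤ s

open Classical in
/-- The depth above the small formulas: the maximal number of connectives on a path from the root to
a subformula with at most `s` variables, where consecutive negations, consecutive conjunctions and
consecutive disjunctions are merged. -/
noncomputable def depth (s : ℕ) : Fml p α → ℕ
  | var _ => 0
  | neg φ => if Small s φ then 0 else if φ.isNeg then depth s φ else depth s φ + 1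
  | and k f => if Small s (and k f) then 0 else Finset.univ.sup fun j =>
      if (f j).isAnd ∧ ¬ Small s (f j) then depth s (f j) else depth s (f j) + 1
  | or k f => if Small s (or k f) then 0 else Finset.univ.sup fun j =>
      if (f j).isOr ∧ ¬ Small s (f j) then depth s (f j) else depth s (f j) + 1
  | mod i k f => if Small s (mod i k f) then 0 else (Finset.univ.sup fun j => depth s (f j)) + 1

/-- The subformulas. -/
def subs : Fml p α → Set (Fml p α)
  | var x => {var x}
  | neg φ => insert (neg φ) φ.subs
  | and k f => insert (and k f) (⋃ j, (f j).subs)
  | or k f => insert (or k f) (⋃ j, (f j).subs)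
  | mod i k f => insert (mod i k f) (⋃ j, (f j).subs)

open Classical in
/-- The large `MOD` gates are those with more than `w` arguments and more than `s` variables. This is
the set of the formal sums modulo `p` of the arguments of the outermost large `MOD` gates, that is,
those which do not lie below another large `MOD` gate. -/
noncomputable def front (s w : ℕ) : Fml p α → Set (Fml p α →₀ ZMod p)
  | var _ => ∅
  | neg φ => front s w φ
  | and _ f => ⋃ j, front s w (f j)
  | or _ f => ⋃ j, front s w (f j)
  | mod i k f => if Small s (mod i k f) then ∅ else if k ≤ w then ⋃ j, front s w (f j)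
      else {∑ j, Finsupp.single (f j) 1}

/-- The rank of the outermost large `MOD` gates: the maximal number of linearly independent (over the
integers modulo `p`) formal sums of their arguments. -/
noncomputable def rank (s w : ℕ) (φ : Fml p α) : ℕ :=
  Module.finrank (ZMod p) (Submodule.span (ZMod p) (φ.front s w))

/-- The truth value which `w` assigns to the formula is correct, given the values which `w` assigns
to its immediate subformulas. -/
def CorrectAt (w : Fml p α → Prop) : Fml p α → Prop
  | var _ => True
  | neg φ => (w (neg φ) ↔ ¬ w φ)
  | and k f => (w (and k f) ↔ ∀ j, w (f j))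
  | or k f => (w (or k f) ↔ ∃ j, w (f j))
  | mod i k f => (w (mod i k f) ↔ (({j | w (f j)}.ncard : ℕ) : ZMod p) = i)

end Fml

variable {p : ℕ} {α : Type}

/-- `B` follows from `P` by a sound local inference: there are at most `L` premises `P` and at most
`L` formulas `S` from `Γ` such that every assignment of truth values to the formulas which is correct
at the formulas `S` and makes the premises true makes `B` true. -/
def LocalInference (L : ℕ) (Γ : Set (Fml p α)) (P : List (Fml p α)) (B : Fml p α) : Prop :=
  P.length ≤ L ∧ ∃ S : List (Fml p α), S.length ≤ L ∧ (∀ ψ ∈ S, ψ ∈ Γ) ∧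
    ∀ w : Fml p α → Prop, (∀ ψ ∈ S, Fml.CorrectAt w ψ) → (∀ A ∈ P, w A) → w B

/-- The formulas which occur in the lines. -/
def Occurring (π : List (Fml p α)) : Set (Fml p α) := {ψ | ∃ A ∈ π, ψ ∈ A.subs}

/-- `π` is a proof: each line follows from at most `L` earlier lines by a sound local inference, with
at most `L` formulas which occur in `π`. -/
def IsProof (L : ℕ) (π : List (Fml p α)) : Prop :=
  ∀ (A : Fml p α) (l r : List (Fml p α)), π = l ++ A :: r →
    ∃ P : List (Fml p α), (∀ B ∈ P, B ∈ l) ∧ LocalInference L (Occurring π) P A

/-- Disjunction of a list of formulas. -/
def orL (l : List (Fml p α)) : Fml p α := .or l.length l.get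

/-- Conjunction of a list of formulas. -/
def andL (l : List (Fml p α)) : Fml p α := .and l.length l.get

/-- No `q`-element set that contains the point `v` is chosen; the variables are the sets of
points. -/
noncomputable def uncovered (p q n : ℕ) (v : Fin n) : Fml p (Finset (Fin n)) :=
  andL (((Finset.univ : Finset (Finset (Fin n))).filter (fun e => e.card = q ∧ v ∈ e)).toList.map
    (fun e => .neg (.var e)))

/-- Both `e` and `f` are chosen. -/
def clash (p n : ℕ) (e f : Finset (Fin n)) : Fml p (Finset (Fin n)) :=
  andL [.var e, .var f]

/-- The pairs of different `q`-element sets which intersect. -/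
def clashes (q n : ℕ) : Finset (Finset (Fin n) × Finset (Fin n)) :=
  Finset.univ.filter (fun ef => ef.1.card = q ∧ ef.2.card = q ∧ ef.1 ≠ ef.2 ∧
    ¬ Disjoint ef.1 ef.2)

/-- The formula (with connectives `∧`, `∨`, `¬`) which states that the chosen sets of size `q` are
not a partition of the `n` points: a point is not covered or two of the sets intersect. -/
noncomputable def countFml (p q n : ℕ) : Fml p (Finset (Fin n)) :=
  orL ((Finset.univ : Finset (Fin n)).toList.map (uncovered p q n) ++
    (clashes q n).toList.map (fun ef => clash p n ef.1 ef.2))

end Pool.Agent.L0h36.BG
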