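import Pool.Agent.L0h36.BG.Sound2

set_option autoImplicit false
set_option linter.unusedSectionVars false

/-!
# No proof of the counting principle is true in the local model
-/

namespace Pool.Agent.L0h36.BG

open Finset Pool.Agent.L0h36.BF

section fixed

variable {p : ℕ} {α : Type} {s w : ℕ} {ev : Fml p α → Bool}

theorem sv_orL {l : List (Fml p α)} (h : ∀ φ ∈ l, Fml.sv s w ev φ = φ) :
    Fml.sv s w ev (orL l) = orL l := by
  rw [orL, Fml.sv]
  congr 1
  exact funext fun j => h _ (List.get_mem l j)

theorem sv_andL {l : List (Fml p α)} (h : ∀ φ ∈ l, Fml.sv s w ev φ = φ) :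
    Fml.sv s w ev (andL l) = andL l := by
  rw [andL, Fml.sv]
  congr 1
  exact funext fun j => h _ (List.get_mem l j)

end fixed

theorem sv_countFml {p q n s w : ℕ} (ev : Fml p (Finset (Fin n)) → Bool) :
    Fml.sv s w ev (countFml p q n) = countFml p q n := by
  unfold countFml
  apply sv_orL
  intro φ hφ
  rw [List.mem_append, List.mem_map, List.mem_map] at hφ
  rcases hφ with ⟨v, -, rfl⟩ | ⟨ef, -, rfl⟩
  · unfold uncovered
    apply sv_andL
    intro ψ hψ
    rw [List.mem_map] at hψ
    obtain ⟨e, -, rfl⟩ := hψ
    rfl
  · unfold clash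
    apply sv_andL
    intro ψ hψ
    rw [List.mem_cons, List.mem_singleton] at hψ
    rcases hψ with rfl | rfl <;> rfl

section

variable {V : Type} [DecidableEq V] {q p : ℕ} {ρ : Finset (Finset V)}
  {T : Fml p (Finset V) → DT V}

/-- The depth of the tree which queries a point and then evaluates a negated variable. -/
theorem dep_node {v : V} {t : ℕ} {s : Finset (Finset V)} (hs : PM q s) (hρs : ρ ⊆ s)
    (hdep : ∀ e : Finset V, e.card = q → v ∈ e → Dep q (T (.neg (.var e))) ρ t) :
    Dep q (.node v (fun e => T (.neg (.var e)))) s (t + 1) := by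
  intro r hr
  cases hr with
  | here => simp
  | covered _ _ _ _ e he hv h =>
    have h1 := (hdep e (hs.1 e he) hv).mono hs hρs
    exact (h1 r h).trans (Nat.le_succ _)
  | query _ _ _ _ e hv' hv hpm h =>
    have hec := hpm.1 e (Finset.mem_insert_self _ _)
    have h1 := ((hdep e hec hv).mono hpm (hρs.trans (Finset.subset_insert _ _))) r h
    have h2 : r \ s ⊆ insert e (r \ insert e s) := by
      intro x hx
      simp only [Finset.mem_sdiff, Finset.mem_insert] at hx ⊢
      tauto
    exact (Finset.card_le_card h2).trans ((Finset.card_insert_le _ _).trans (by omega))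

end

/-- The counting principle has no proof if there is a model with these parameters. -/
theorem no_proof {F : Type} [Field F] {n p q D t X s w : ℕ} [Fact p.Prime] [CharP F p]
    (hs : 1 ≤ s) {ρ : Finset (Finset (Fin n))} (MD : Model F q (Finset.univ \ cov ρ) D)
    (T : Fml p (Finset (Fin n)) → DT (Fin n)) {π : List (Fml p (Finset (Fin n)))}
    (hρ : PM q ρ) (hT : ∀ ψ ∈ GG s w π, Dep q (T ψ) ρ t ∧ LC q s T ρ ψ)
    (hX : ∀ ψ ∈ Occurring π, ∀ χ,
      (ind (fun y => Fml.sv s w (tv MD T y) ψ = χ) : MD.Y → F) ∈ MD.A X)
    (hvl : ∀ ψ ∈ Occurring π,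
      (ind (fun y => vl s w MD T y ψ = false) : MD.Y → F) ∈ MD.A (X + t))
    {L : ℕ} (hD : (p + 6) * (L + 1) * (X + t) + 2 ≤ D) (hL : IsProof L π) :
    countFml p q n ∉ π := by
  classical
  intro hC
  have hD' : 6 * (X + t) + 2 ≤ D := by
    refine le_trans ?_ hD
    have : 6 * (X + t) ≤ (p + 6) * (L + 1) * (X + t) := by
      refine Nat.mul_le_mul_right _ ?_
      calc 6 ≤ (p + 6) * 1 := by omega
        _ ≤ (p + 6) * (L + 1) := Nat.mul_le_mul_left _ (by omega)
    omega
  set C := countFml p q n with hCdef
  have hCocc : C ∈ Occurring π := ⟨C, hC, Fml.self_mem_subs C⟩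
  have hCG : C ∈ GG s w π := by
    have := sv_mem_GG (s := s) (w := w) (fun _ => false) hCocc
    rwa [sv_countFml] at this
  have hcl := closed_GG s w π
  have h1 : (ind (fun y => vl s w MD T y C = false) : MD.Y → F) ∈ MD.K :=
    all_lines s w MD T hρ hT hX hvl hD hL C hC
  have h2 : (ind (fun y => vl s w MD T y C = false) : MD.Y → F) ∈ MD.A (X + t) := hvl C hCocc
  -- the trees of literals
  have hlit : ∀ ψ ∈ GG s w π, Fml.Small s ψ → LCs q (T ψ) ρ ψ := fun ψ h h' =>
    (hT ψ h).2.1 h'
  apply MD.one_not
  have hxρ : xr MD ρ = (1 : MD.Y → F) := ind_true (fun y => rho_sub MD y)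
  have key : xr MD ρ * 1 ∈ MD.K := by
    refine refine_tree MD hρ (T C) ρ t 0 1 (Finset.Subset.refl _) (hT C hCG).1 MD.one ?_ ?_
    · rw [Finset.sdiff_self, Finset.card_empty]
      omega
    intro s₁ b hs₁
    have hρs := hs₁.subset
    have hsp : PM q s₁ := hs₁.pm hρ
    have hsc : (s₁ \ ρ).card ≤ t := (hT C hCG).1 s₁ hs₁.reach
    cases b with
    | false =>
      have heq : xr MD s₁ * 1 =
          xr MD s₁ * (ind (fun y => vl s w MD T y C = false) : MD.Y → F) := by
        ext y
        rw [Pi.mul_apply, Pi.mul_apply, Pi.one_apply]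
        by_cases h : s₁ ⊆ RR MD y
        · have h3 : vl s w MD T y C = false :=
            vl_eq s w MD T hρ hs₁ y h (sv_countFml _)
          rw [ind_pos (fun y => vl s w MD T y C = false) h3]
        · have h3 : (xr MD s₁ y : F) = 0 := ind_neg (fun y => s₁ ⊆ RR MD y) h
          rw [h3, zero_mul, zero_mul]
      rw [heq]
      exact MD.closed h1 h2 (xr_mem MD s₁) (by omega)
    | true =>
      have hLC := (hT C hCG).2
      have hCor : C = .or (((Finset.univ : Finset (Fin n)).toList.map (uncovered p q n) ++
        (clashes q n).toList.map (fun ef => clash p n ef.1 ef.2)).length)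
        (((Finset.univ : Finset (Fin n)).toList.map (uncovered p q n) ++
        (clashes q n).toList.map (fun ef => clash p n ef.1 ef.2)).get) := rfl
      rw [hCor] at hs₁ hLC
      have hGall := hcl.2.2.1 _ _ (hCor ▸ hCG)
      obtain ⟨j, hj⟩ := rep_or_true hLC (fun j => (hT _ (hGall j)).2) hs₁
        (Finset.Subset.refl s₁)
      have hmem := List.get_mem ((Finset.univ : Finset (Fin n)).toList.map (uncovered p q n) ++
        (clashes q n).toList.map (fun ef => clash p n ef.1 ef.2)) j
      have hGj := hGall j
      revert hj hmem hGj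
      generalize ((Finset.univ : Finset (Fin n)).toList.map (uncovered p q n) ++
        (clashes q n).toList.map (fun ef => clash p n ef.1 ef.2)).get j = ζ
      intro hj hmem hGj
      refine refine_tree MD hρ (T ζ) s₁ t 0 1 hρs ((hT _ hGj).1.mono hsp hρs) MD.one
        (by omega) fun s' b' hs' => ?_
      have hss := hs'.subset
      have hρs' := hρs.trans hss
      have hsp' : PM q s' := hs'.pm hsp
      have hsc' : (s' \ ρ).card ≤ 2 * t := by
        have h3 := (hT _ hGj).1.mono hsp hρs s' hs'.reach
        have h4 : s' \ ρ ⊆ (s' \ s₁) ∪ (s₁ \ ρ) := by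
          intro e he
          rw [Finset.mem_sdiff] at he
          rw [Finset.mem_union, Finset.mem_sdiff, Finset.mem_sdiff]
          by_cases hem : e ∈ s₁
          · exact Or.inr ⟨hem, he.2⟩
          · exact Or.inl ⟨he.1, hem⟩
        have h5 := (Finset.card_le_card h4).trans (Finset.card_union_le _ _)
        omega
      obtain ⟨m, hm, hsm⟩ := hs'.restrict hsp ρ hρs
      have hms : m ⊆ s' := by
        rw [hsm]
        exact Finset.subset_union_right
      have hb' : b' = true := by
        cases b' with
        | true => rfl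
        | false => exact absurd (hsp'.mono (Finset.union_subset hss hms)) (hj m hm)
      rw [hb'] at hm
      rw [List.mem_append, List.mem_map, List.mem_map] at hmem
      rcases hmem with ⟨v, -, rfl⟩ | ⟨⟨e, f⟩, hef, rfl⟩
      · -- a point is not covered
        set lst : List (Fml p (Finset (Fin n))) :=
          (((Finset.univ : Finset (Finset (Fin n))).filter
            (fun e => e.card = q ∧ v ∈ e)).toList.map (fun e => .neg (.var e))) with hlst
        have hu : uncovered p q n v = .and lst.length lst.get := rfl
        rw [hu] at hm hGj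
        have hGg : ∀ j, lst.get j ∈ GG s w π := fun j => hcl.2.1 _ _ hGj j
        have h3 := rep_and_true (hT _ hGj).2 (fun j => (hT _ (hGg j)).2) hm hms
        have h4 : ∀ e : Finset (Fin n), e.card = q → v ∈ e →
            (Fml.neg (.var e) : Fml p (Finset (Fin n))) ∈ GG s w π ∧
            NoBr q (T (.neg (.var e))) ρ s' false := by
          intro e he hve
          have h5 : (Fml.neg (.var e) : Fml p (Finset (Fin n))) ∈ lst := by
            rw [hlst, List.mem_map]
            exact ⟨e, by simp [he, hve], rfl⟩
          obtain ⟨j, hj⟩ := List.get_of_mem h5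
          rw [← hj]
          exact ⟨hGg j, h3 j⟩
        refine refine_tree MD hρ (.node v (fun e => T (.neg (.var e)))) s' (t + 1) 0 1 hρs'
          (dep_node hsp' hρs' fun e he hve => (hT _ (h4 e he hve).1).1) MD.one
          (by omega) fun s₂ b₂ hs₂ => ?_
        exfalso
        have hsp₂ : PM q s₂ := hs₂.pm hsp'
        have hfin : ∃ (e : Finset (Fin n)) (m : Finset (Finset (Fin n))), v ∈ e ∧ e ∈ s₂ ∧
            Br q (T (.neg (.var e))) ρ m b₂ ∧ m ⊆ s₂ := by
          cases hs₂ with
          | covered _ _ _ _ _ e he hv h =>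
            obtain ⟨m, hm, hsm⟩ := h.restrict hsp' ρ hρs'
            refine ⟨e, m, hv, h.subset he, hm, ?_⟩
            rw [hsm]
            exact Finset.subset_union_right
          | query _ _ _ _ _ e hv' hv hpm h =>
            obtain ⟨m, hm, hsm⟩ := h.restrict hpm ρ (hρs'.trans (Finset.subset_insert _ _))
            refine ⟨e, m, hv, h.subset (Finset.mem_insert_self _ _), hm, ?_⟩
            rw [hsm]
            exact Finset.subset_union_right
        obtain ⟨e, m₂, hve, hes, hm₂, hms₂⟩ := hfin
        obtain ⟨h6, h7⟩ := h4 e (hsp₂.1 e hes) hve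
        have hsmall : Fml.Small s (Fml.neg (.var e) : Fml p (Finset (Fin n))) :=
          Fml.small_neg.2 (Fml.small_var hs e)
        obtain ⟨h8, h9⟩ := (hlit _ h6 hsmall).1 m₂ b₂ hm₂
        have h10 : e ∈ m₂ := by
          rcases h8 e rfl with h | h
          · exact h
          · exact absurd (hsp₂.mono (Finset.insert_subset hes hms₂)) h
        have h11 : b₂ = false := by
          cases b₂ with
          | false => rfl
          | true => exact absurd h10 (h9.1 rfl)
        rw [h11] at hm₂
        exact h7 m₂ hm₂ (hsp₂.mono (Finset.union_subset hs₂.subset hms₂))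
      · -- two sets intersect
        have hu : clash p n e f = .and ([.var e, .var f] : List (Fml p (Finset (Fin n)))).length
          ([.var e, .var f] : List (Fml p (Finset (Fin n)))).get := rfl
        simp only [hu] at hGj
        simp only [hu] at hm
        have hGg := fun j => hcl.2.1 _ _ hGj j
        have h3 := rep_and_true (hT _ hGj).2 (fun j => (hT _ (hGg j)).2) hm hms
        have hGe : (Fml.var e : Fml p (Finset (Fin n))) ∈ GG s w π := hGg ⟨0, by simp⟩
        have hGf : (Fml.var f : Fml p (Finset (Fin n))) ∈ GG s w π := hGg ⟨1, by simp⟩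
        have hNe : NoBr q (T (.var e)) ρ s' false := h3 ⟨0, by simp⟩
        have hNf : NoBr q (T (.var f)) ρ s' false := h3 ⟨1, by simp⟩
        refine refine_list MD hρ t [T (.var e), T (.var f)] s' 0 1 hρs' hsp' ?_ MD.one ?_ ?_
        · intro T' hT'
          rw [List.mem_cons, List.mem_singleton] at hT'
          rcases hT' with rfl | rfl
          · exact (hT _ hGe).1
          · exact (hT _ hGf).1
        · simp only [List.length_cons, List.length_nil]
          omega
        · intro r hsr hr _ hbr
          exfalso
          obtain ⟨me, be, hme, hmer⟩ := hbr (T (.var e)) (by simp)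
          obtain ⟨mf, bf, hmf, hmfr⟩ := hbr (T (.var f)) (by simp)
          have hbe : be = true := by
            cases be with
            | true => rfl
            | false => exact absurd (hr.mono (Finset.union_subset hsr hmer)) (hNe me hme)
          have hbf : bf = true := by
            cases bf with
            | true => rfl
            | false => exact absurd (hr.mono (Finset.union_subset hsr hmfr)) (hNf mf hmf)
          subst hbe hbf
          have he : e ∈ r := hmer (((hlit _ hGe (Fml.small_var hs e)).1 me _ hme).2.1 rfl)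
          have hf : f ∈ r := hmfr (((hlit _ hGf (Fml.small_var hs f)).1 mf _ hmf).2.1 rfl)
          rw [Finset.mem_toList, clashes, Finset.mem_filter] at hef
          exact hef.2.2.2.2 (hr.2 e he f hf hef.2.2.2.1)
  rwa [hxρ, one_mul] at key

end Pool.Agent.L0h36.BG
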