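import Pool.Agent.L0h36.BG.Stage2

set_option autoImplicit false
set_option linter.unusedSectionVars false

/-!
# The first stage: formulas with few variables become shallow trees
-/

namespace Pool.Agent.L0h36.BG

open Finset Pool.Agent.L0h36.BF

variable {V : Type} [DecidableEq V]

/-- A set whose size is a multiple of `q` has a partition into sets of size `q`. -/
theorem exists_pm_cov {q : ℕ} (a : ℕ) : ∀ W : Finset V, W.card = q * a →
    ∃ b : Finset (Finset V), PM q b ∧ cov b = W := by
  induction a with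
  | zero =>
    intro W hW
    rw [Nat.mul_zero, Finset.card_eq_zero] at hW
    exact ⟨∅, PM.empty q, by rw [hW]; rfl⟩
  | succ a ih =>
    intro W hW
    obtain ⟨e, he, hec⟩ := Finset.exists_subset_card_eq (s := W) (n := q) (by
      rw [hW, Nat.mul_succ]
      omega)
    obtain ⟨b, hb, hbc⟩ := ih (W \ e) (by
      rw [Finset.card_sdiff_of_subset he, hW, hec, Nat.mul_succ]
      omega)
    refine ⟨insert e b, hb.cons hec ?_, ?_⟩
    · rw [hbc]
      exact Finset.disjoint_sdiff
    · rw [cov_insert, hbc]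
      exact Finset.union_sdiff_of_subset he

theorem descFactorial_mul_pow_le {u n : ℕ} (hun : u ≤ n) (w : ℕ) :
    u.descFactorial w * n ^ w ≤ n.descFactorial w * u ^ w := by
  induction w with
  | zero => simp
  | succ w ih =>
    rw [Nat.descFactorial_succ, Nat.descFactorial_succ, pow_succ, pow_succ]
    have h1 : (u - w) * n ≤ (n - w) * u := by
      rw [Nat.sub_mul, Nat.sub_mul]
      have h2 : w * u ≤ w * n := Nat.mul_le_mul_left _ hun
      have h3 : u * n = n * u := Nat.mul_comm _ _
      omega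
    calc (u - w) * u.descFactorial w * (n ^ w * n)
        = ((u - w) * n) * (u.descFactorial w * n ^ w) := by ring
      _ ≤ ((n - w) * u) * (n.descFactorial w * u ^ w) := Nat.mul_le_mul h1 ih
      _ = (n - w) * n.descFactorial w * (u ^ w * u) := by ring

theorem choose_mul_pow_le {u n : ℕ} (hun : u ≤ n) (w : ℕ) :
    u.choose w * n ^ w ≤ n.choose w * u ^ w := by
  have h1 := descFactorial_mul_pow_le hun w
  rw [Nat.descFactorial_eq_factorial_mul_choose, Nat.descFactorial_eq_factorial_mul_choose,
    mul_assoc, mul_assoc] at h1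
  exact Nat.le_of_mul_le_mul_left h1 (Nat.factorial_pos w)

theorem card_supersets [Fintype V] (W : Finset V) (u : ℕ) :
    ((Finset.powersetCard u (Finset.univ : Finset V)).filter (fun U => W ⊆ U)).card ≤
      (Fintype.card V - W.card).choose (u - W.card) := by
  have h1 : (Finset.powersetCard (u - W.card) (Finset.univ \ W)).card =
      (Fintype.card V - W.card).choose (u - W.card) := by
    rw [Finset.card_powersetCard, Finset.card_sdiff_of_subset (Finset.subset_univ _),
      Finset.card_univ]
  rw [← h1]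
  refine Finset.card_le_card_of_injOn (fun U => U \ W) ?_ ?_
  · intro U hU
    rw [Finset.mem_coe, Finset.mem_filter, Finset.mem_powersetCard] at hU
    rw [Finset.mem_coe, Finset.mem_powersetCard]
    refine ⟨Finset.sdiff_subset_sdiff (Finset.subset_univ _) (Finset.Subset.refl _), ?_⟩
    rw [Finset.card_sdiff_of_subset hU.2, hU.1.2]
  · intro U hU U' hU' h
    rw [Finset.mem_coe, Finset.mem_filter] at hU hU'
    simp only at h
    rw [← Finset.sdiff_union_of_subset hU.2, ← Finset.sdiff_union_of_subset hU'.2, h]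

/-- Some set of `u` points contains the points of no `t` disjoint members of a family `X`, for all
`X` in a small family of small families. -/
theorem exists_live [Fintype V] {q : ℕ} (𝒳 : Finset (Finset (Finset V))) (s u t : ℕ)
    (hX : ∀ X ∈ 𝒳, X.card ≤ s) (hc : 𝒳.card < 2 ^ t) (hun : u ≤ Fintype.card V)
    (hwu : q * t ≤ u) (h2 : 2 * s * u ^ q ≤ Fintype.card V ^ q) (hn : 0 < Fintype.card V) :
    ∃ U : Finset V, U.card = u ∧ ∀ X ∈ 𝒳, ∀ E : Finset (Finset V), E ⊆ X → E.card = t →
      PM q E → ¬ cov E ⊆ U := by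
  classical
  by_contra hcon
  push Not at hcon
  set n := Fintype.card V with hnd
  set w := q * t with hw
  have hsub : Finset.powersetCard u (Finset.univ : Finset V) ⊆ 𝒳.biUnion fun X =>
      ((Finset.powersetCard t X).filter (fun E => PM q E)).biUnion fun E =>
        (Finset.powersetCard u (Finset.univ : Finset V)).filter (fun U => cov E ⊆ U) := by
    intro U hU
    obtain ⟨X, hXm, E, hEX, hEc, hE, hEU⟩ := hcon U (Finset.mem_powersetCard.1 hU).2
    simp only [Finset.mem_biUnion, Finset.mem_filter]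
    exact ⟨X, hXm, E, ⟨Finset.mem_powersetCard.2 ⟨hEX, hEc⟩, hE⟩, hU, hEU⟩
  have hcard : n.choose u ≤ 𝒳.card * (s ^ t * (n - w).choose (u - w)) := by
    have h3 := Finset.card_le_card hsub
    rw [Finset.card_powersetCard, Finset.card_univ] at h3
    refine h3.trans (Finset.card_biUnion_le_card_mul _ _ _ fun X hXm => ?_)
    have h4 : ((Finset.powersetCard t X).filter (fun E => PM q E)).card ≤ s ^ t := by
      refine (Finset.card_filter_le _ _).trans ?_
      rw [Finset.card_powersetCard]
      exact (Nat.choose_le_pow _ _).trans (Nat.pow_le_pow_left (hX X hXm) t)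
    refine (Finset.card_biUnion_le_card_mul _ _ ((n - w).choose (u - w)) fun E hE => ?_).trans
      (Nat.mul_le_mul_right _ h4)
    rw [Finset.mem_filter, Finset.mem_powersetCard] at hE
    have h5 : (cov E).card = w := by rw [hE.2.card_cov, hE.1.2]
    have h6 := card_supersets (cov E) u
    rw [h5] at h6
    exact h6
  have hwn : w ≤ n := hwu.trans hun
  have hid : n.choose u * u.choose w = n.choose w * (n - w).choose (u - w) :=
    Nat.choose_mul hwu
  have hpos : 0 < n.choose w := Nat.choose_pos hwn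
  have hposu : 0 < n.choose u := Nat.choose_pos hun
  -- the main inequality
  have h7 : n.choose w ≤ 𝒳.card * (s ^ t * u.choose w) := by
    have h8 : n.choose u * n.choose w ≤ n.choose u * (𝒳.card * (s ^ t * u.choose w)) := by
      calc n.choose u * n.choose w
          ≤ (𝒳.card * (s ^ t * (n - w).choose (u - w))) * n.choose w :=
            Nat.mul_le_mul_right _ hcard
        _ = 𝒳.card * (s ^ t * (n.choose w * (n - w).choose (u - w))) := by ring
        _ = 𝒳.card * (s ^ t * (n.choose u * u.choose w)) := by rw [hid]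
        _ = n.choose u * (𝒳.card * (s ^ t * u.choose w)) := by ring
    exact Nat.le_of_mul_le_mul_left h8 hposu
  have h9 : n.choose w * n ^ w ≤ n.choose w * (𝒳.card * (s ^ t * u ^ w)) := by
    calc n.choose w * n ^ w ≤ (𝒳.card * (s ^ t * u.choose w)) * n ^ w :=
          Nat.mul_le_mul_right _ h7
      _ = 𝒳.card * (s ^ t * (u.choose w * n ^ w)) := by ring
      _ ≤ 𝒳.card * (s ^ t * (n.choose w * u ^ w)) :=
          Nat.mul_le_mul_left _ (Nat.mul_le_mul_left _ (choose_mul_pow_le hun w))
      _ = _ := by ring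
  have h10 : n ^ w ≤ 𝒳.card * (s ^ t * u ^ w) := Nat.le_of_mul_le_mul_left h9 hpos
  have h11 : 2 ^ t * (s ^ t * u ^ w) ≤ n ^ w := by
    calc 2 ^ t * (s ^ t * u ^ w) = (2 * s * u ^ q) ^ t := by
          rw [hw, pow_mul]
          ring
      _ ≤ (n ^ q) ^ t := Nat.pow_le_pow_left h2 t
      _ = n ^ w := by rw [hw, pow_mul]
  have h12 : 0 < n ^ w := Nat.pow_pos hn
  have h13 : 0 < s ^ t * u ^ w := by
    rcases Nat.eq_zero_or_pos (s ^ t * u ^ w) with h | h
    · rw [h, Nat.mul_zero] at h10
      omega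
    · exact h
  have h14 : 𝒳.card * (s ^ t * u ^ w) < 2 ^ t * (s ^ t * u ^ w) :=
    Nat.mul_lt_mul_of_pos_right hc h13
  omega

/-- A maximal disjoint subfamily. -/
theorem exists_maximal_pm {q : ℕ} (𝒜 : Finset (Finset V)) (hq : ∀ e ∈ 𝒜, e.card = q) :
    ∃ E ⊆ 𝒜, PM q E ∧ ∀ e ∈ 𝒜, e ∉ E → ¬ Disjoint e (cov E) := by
  classical
  obtain ⟨E, hE, hmax⟩ := Finset.exists_max_image (𝒜.powerset.filter (fun E => PM q E))
    Finset.card ⟨∅, by
      rw [Finset.mem_filter, Finset.mem_powerset]
      exact ⟨Finset.empty_subset _, PM.empty q⟩⟩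
  rw [Finset.mem_filter, Finset.mem_powerset] at hE
  refine ⟨E, hE.1, hE.2, fun e he heE hd => ?_⟩
  have h1 := hmax (insert e E) (by
    rw [Finset.mem_filter, Finset.mem_powerset]
    exact ⟨Finset.insert_subset he hE.1, hE.2.cons (hq e he) hd⟩)
  rw [Finset.card_insert_of_notMem heE] at h1
  omega

variable {p : ℕ} [Fintype V]

/-- The tree for one formula with few variables. -/
theorem small_tree {q t : ℕ} (hq : 1 ≤ q) {b : Finset (Finset V)} (hb : PM q b)
    {U : Finset V} (hU : ∀ v, v ∈ cov b ∨ v ∈ U) (φ : Fml p (Finset V))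
    (hE : ∀ E : Finset (Finset V), (∀ e ∈ E, e ∈ φ.vars) → E.card = t → PM q E → ¬ cov E ⊆ U) :
    ∃ T : DT V, Dep q T b (q * t) ∧ LCs q T b φ := by
  classical
  set X : Finset (Finset V) := φ.vars_finite.toFinset with hX
  have hmemX : ∀ e, e ∈ X ↔ e ∈ φ.vars := fun e => Set.Finite.mem_toFinset _
  set 𝒜 : Finset (Finset V) := X.filter (fun e => e.card = q ∧ e ⊆ U) with h𝒜
  obtain ⟨E, hEs, hEpm, hEmax⟩ := exists_maximal_pm (q := q) 𝒜 (fun e he => by
    rw [h𝒜, Finset.mem_filter] at he
    exact he.2.1)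
  have hEt : E.card ≤ t := by
    by_contra hcon
    push Not at hcon
    obtain ⟨E', hE', hE'c⟩ := Finset.exists_subset_card_eq (s := E) (n := t) hcon.le
    refine hE E' (fun e he => ?_) hE'c (hEpm.mono hE') ?_
    · have := hEs (hE' he)
      rw [h𝒜, Finset.mem_filter] at this
      exact (hmemX e).1 this.1
    · intro v hv
      obtain ⟨e, he, hve⟩ := mem_cov.1 hv
      have := hEs (hE' he)
      rw [h𝒜, Finset.mem_filter] at this
      exact this.2.2 hve
  refine ⟨queryAll (cov E).toList (fun m => .leaf (decide (φ.Holds (fun e => e ∈ m)))) b, ?_, ?_, ?_⟩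
  · intro r hr
    have hkey : PM q r ∧ ∀ e ∈ r \ b, ∃ v ∈ (cov E).toList, v ∈ e := by
      rcases queryAll_reach _ _ b r hb hr with h | ⟨m₁, h1, h2, h3, h4, h5⟩
      · exact h
      · rw [h5.leaf_inv]
        exact ⟨h2, h4⟩
    have h6 : (r \ b).card ≤ (cov E).card := card_meet hkey.1 fun e he => by
      obtain ⟨v, hv, hve⟩ := hkey.2 e he
      exact ⟨v, Finset.mem_toList.1 hv, hve⟩
    refine h6.trans ?_
    rw [hEpm.card_cov]
    exact Nat.mul_le_mul_left _ hEt
  · intro r c hr
    obtain ⟨m₁, h1, h2, h3, h4, h5⟩ := queryAll_br _ _ b r c hb hr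
    obtain ⟨h6, h7⟩ := h5.leaf_inv
    subst h6
    refine ⟨?_, ?_⟩
    · intro e he
      by_contra hcon
      push Not at hcon
      obtain ⟨her, hpm⟩ := hcon
      have hd := hpm.disjoint_cov_of_insert her
      have heq : e.card = q := hpm.1 e (Finset.mem_insert_self _ _)
      have heU : e ⊆ U := by
        intro v hv
        rcases hU v with h | h
        · exact absurd (cov_mono h1 h) (Finset.disjoint_left.1 hd hv)
        · exact h
      have he𝒜 : e ∈ 𝒜 := by
        rw [h𝒜, Finset.mem_filter]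
        exact ⟨(hmemX e).2 he, heq, heU⟩
      have hmeet : ∃ v ∈ e, v ∈ cov E := by
        by_cases heE : e ∈ E
        · have : 0 < e.card := by omega
          obtain ⟨v, hv⟩ := Finset.card_pos.1 this
          exact ⟨v, hv, mem_cov.2 ⟨e, heE, hv⟩⟩
        · exact Finset.not_disjoint_iff.1 (hEmax e he𝒜 heE)
      obtain ⟨v, hve, hvE⟩ := hmeet
      exact Finset.disjoint_left.1 hd hve (h3 v (Finset.mem_toList.2 hvE))
    · rw [← h7, decide_eq_true_iff]
  · intro hempty
    have hE0 : E = ∅ := by
      rw [Finset.eq_empty_iff_forall_notMem]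
      intro e he
      have := hEs he
      rw [h𝒜, Finset.mem_filter] at this
      have h2 := (hmemX e).1 this.1
      rw [hempty] at h2
      exact h2
    have hcov : (cov E).toList = [] := by
      rw [Finset.toList_eq_nil, hE0]
      rfl
    rw [hcov, queryAll]
    exact ⟨_, rfl⟩

/-- **The first stage.** -/
theorem first_stage {q : ℕ} (hq : 1 ≤ q) (Γ : Finset (Fml p (Finset V)))
    (s u a t : ℕ) (hcard : Fintype.card V = q * a + u) (hc : Γ.card < 2 ^ t) (hwu : q * t ≤ u)
    (h2 : 2 * s * u ^ q ≤ Fintype.card V ^ q) (hn : 0 < Fintype.card V) :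
    ∃ b : Finset (Finset V), PM q b ∧ b.card = a ∧ ∃ T : Fml p (Finset V) → DT V,
      ∀ ψ ∈ Γ, Fml.Small s ψ → Dep q (T ψ) b (q * t) ∧ LCs q (T ψ) b ψ := by
  classical
  set 𝒳 : Finset (Finset (Finset V)) :=
    (Γ.filter (fun ψ => Fml.Small s ψ)).image (fun ψ => ψ.vars_finite.toFinset) with h𝒳
  obtain ⟨U, hUc, hU⟩ := exists_live (q := q) 𝒳 s u t (by
      intro X hX
      rw [h𝒳, Finset.mem_image] at hX
      obtain ⟨ψ, hψ, rfl⟩ := hX
      rw [Finset.mem_filter] at hψ
      have := hψ.2
      unfold Fml.Small at this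
      rwa [Set.ncard_eq_toFinset_card _ ψ.vars_finite] at this)
    (lt_of_le_of_lt (Finset.card_image_le.trans (Finset.card_filter_le _ _)) hc) (by omega) hwu h2
    hn
  obtain ⟨b, hb, hbc⟩ := exists_pm_cov (q := q) a (Finset.univ \ U) (by
    rw [Finset.card_sdiff_of_subset (Finset.subset_univ _), Finset.card_univ, hUc, hcard]
    omega)
  have hba : b.card = a := by
    have h3 := hb.card_cov
    rw [hbc, Finset.card_sdiff_of_subset (Finset.subset_univ _), Finset.card_univ, hUc,
      hcard] at h3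
    have h4 : q * b.card = q * a := by omega
    exact Nat.eq_of_mul_eq_mul_left (by omega) h4
  refine ⟨b, hb, hba, ?_⟩
  have hall : ∀ ψ : Fml p (Finset V), ∃ T : DT V, ψ ∈ Γ → Fml.Small s ψ →
      Dep q T b (q * t) ∧ LCs q T b ψ := by
    intro ψ
    by_cases h : ψ ∈ Γ ∧ Fml.Small s ψ
    · obtain ⟨T, h1, h2⟩ := small_tree hq hb (U := U) (t := t) (fun v => by
        by_cases hv : v ∈ U
        · exact Or.inr hv
        · left
          rw [hbc, Finset.mem_sdiff]
          exact ⟨Finset.mem_univ _, hv⟩) ψ (by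
        intro E hE hEc hEpm
        refine hU ψ.vars_finite.toFinset ?_ E ?_ hEc hEpm
        · rw [h𝒳, Finset.mem_image]
          exact ⟨ψ, Finset.mem_filter.2 h, rfl⟩
        · intro e he
          rw [Set.Finite.mem_toFinset]
          exact hE e he)
      exact ⟨T, fun _ _ => ⟨h1, h2⟩⟩
    · exact ⟨.leaf false, fun h1 h2 => absurd ⟨h1, h2⟩ h⟩
  choose T hT using hall
  exact ⟨T, fun ψ h1 h2 => hT ψ h1 h2⟩

end Pool.Agent.L0h36.BG
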