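import Pool.Agent.L0h36.BG.First

set_option autoImplicit false
set_option linter.unusedSectionVars false

/-!
# Instances of formulas: the outermost large MOD gates are replaced by constants
-/

namespace Pool.Agent.L0h36.BG

open Finset Pool.Agent.L0h36.BF

namespace Fml

variable {p : ℕ} {α : Type}

/-- True. -/
def tt : Fml p α := .and 0 Fin.elim0

/-- False. -/
def ff : Fml p α := .or 0 Fin.elim0

theorem tt_ne_ff : (tt : Fml p α) ≠ ff := by
  intro h
  cases h

theorem vars_tt : (tt : Fml p α).vars = ∅ := by
  unfold tt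
  rw [vars, Set.iUnion_of_empty]

theorem vars_ff : (ff : Fml p α).vars = ∅ := by
  unfold ff
  rw [vars, Set.iUnion_of_empty]

theorem small_tt (s : ℕ) : Small s (tt : Fml p α) := by
  unfold Small
  rw [vars_tt, Set.ncard_empty]
  omega

theorem small_ff (s : ℕ) : Small s (ff : Fml p α) := by
  unfold Small
  rw [vars_ff, Set.ncard_empty]
  omega

open Classical in
/-- Replace the outermost large MOD gates by their values. -/
noncomputable def sv (s w : ℕ) (ev : Fml p α → Bool) : Fml p α → Fml p α
  | .var x => .var x
  | .neg φ => .neg (sv s w ev φ)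
  | .and k f => .and k (fun j => sv s w ev (f j))
  | .or k f => .or k (fun j => sv s w ev (f j))
  | .mod i k f => if Small s (.mod i k f) ∨ k ≤ w then .mod i k (fun j => sv s w ev (f j)) else
      if (∑ j, (if ev (sv s w ev (f j)) = true then (1 : ZMod p) else 0)) = i then tt else ff

open Classical in
/-- Replace the outermost large MOD gates by the values given by a linear form. -/
noncomputable def svL (s w : ℕ) (l : (Fml p α →₀ ZMod p) →ₗ[ZMod p] ZMod p) :
    Fml p α → Fml p α
  | .var x => .var x
  | .neg φ => .neg (svL s w l φ)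
  | .and k f => .and k (fun j => svL s w l (f j))
  | .or k f => .or k (fun j => svL s w l (f j))
  | .mod i k f => if Small s (.mod i k f) ∨ k ≤ w then .mod i k (fun j => svL s w l (f j)) else
      if l (∑ j, Finsupp.single (f j) 1) = i then tt else ff

/-- The linear form given by the values. -/
noncomputable def lin (s w : ℕ) (ev : Fml p α → Bool) : (Fml p α →₀ ZMod p) →ₗ[ZMod p] ZMod p :=
  Finsupp.linearCombination (ZMod p)
    (fun φ => if ev (sv s w ev φ) = true then (1 : ZMod p) else 0)

theorem lin_sum (s w : ℕ) (ev : Fml p α → Bool) {k : ℕ} (f : Fin k → Fml p α) :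
    lin s w ev (∑ j, Finsupp.single (f j) 1) =
      ∑ j, (if ev (sv s w ev (f j)) = true then (1 : ZMod p) else 0) := by
  unfold lin
  rw [map_sum]
  refine Finset.sum_congr rfl fun j _ => ?_
  rw [Finsupp.linearCombination_single, one_smul]

theorem sv_eq_svL (s w : ℕ) (ev : Fml p α → Bool) (φ : Fml p α) :
    sv s w ev φ = svL s w (lin s w ev) φ := by
  induction φ with
  | var x => rfl
  | neg φ ih => rw [sv, svL, ih]
  | and k f ih => rw [sv, svL]; congr 1; exact funext ih
  | or k f ih => rw [sv, svL]; congr 1; exact funext ih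
  | mod i k f ih =>
    rw [sv, svL, lin_sum]
    split_ifs
    · congr 1; exact funext ih
    · rfl
    · rfl

theorem svL_congr {s w : ℕ} {l l' : (Fml p α →₀ ZMod p) →ₗ[ZMod p] ZMod p} {φ : Fml p α}
    (h : ∀ v ∈ φ.front s w, l v = l' v) : svL s w l φ = svL s w l' φ := by
  induction φ with
  | var x => rfl
  | neg φ ih => rw [svL, svL, ih h]
  | and k f ih =>
    rw [svL, svL]
    congr 1
    exact funext fun j => ih j fun v hv => h v (by
      rw [front, Set.mem_iUnion]
      exact ⟨j, hv⟩)
  | or k f ih =>
    rw [svL, svL]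
    congr 1
    exact funext fun j => ih j fun v hv => h v (by
      rw [front, Set.mem_iUnion]
      exact ⟨j, hv⟩)
  | mod i k f ih =>
    rw [front] at h
    rw [svL, svL]
    by_cases h1 : Small s (.mod i k f)
    · rw [if_pos (Or.inl h1), if_pos (Or.inl h1)]
      congr 1
      refine funext fun j => ih j fun v hv => ?_
      exfalso
      -- a small formula has no large gates
      have key : ∀ ψ : Fml p α, Small s ψ → ψ.front s w = ∅ := by
        intro ψ
        induction ψ with
        | var x => intro _; rfl
        | neg ψ ih => intro h; rw [front]; exact ih h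
        | and k g ih =>
          intro h
          rw [front, Set.iUnion_eq_empty]
          exact fun j => ih j (h.of_subset (vars_and k g j))
        | or k g ih =>
          intro h
          rw [front, Set.iUnion_eq_empty]
          exact fun j => ih j (h.of_subset (vars_or k g j))
        | mod i k g ih =>
          intro h
          rw [front, if_pos h]
      rw [key _ (h1.of_subset (vars_mod i k f j))] at hv
      exact hv
    · rw [if_neg h1] at h
      by_cases h2 : k ≤ w
      · rw [if_pos h2] at h
        rw [if_pos (Or.inr h2), if_pos (Or.inr h2)]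
        congr 1
        exact funext fun j => ih j fun v hv => h v (by
          rw [Set.mem_iUnion]
          exact ⟨j, hv⟩)
      · rw [if_neg h2] at h
        rw [if_neg (not_or.2 ⟨h1, h2⟩), if_neg (not_or.2 ⟨h1, h2⟩),
          h _ (Set.mem_singleton _)]

theorem front_finite (s w : ℕ) (φ : Fml p α) : (φ.front s w).Finite := by
  induction φ with
  | var x => exact Set.finite_empty
  | neg φ ih => exact ih
  | and k f ih => exact Set.finite_iUnion ih
  | or k f ih => exact Set.finite_iUnion ih
  | mod i k f ih =>
    rw [front]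
    split_ifs
    · exact Set.finite_empty
    · exact Set.finite_iUnion ih
    · exact Set.finite_singleton _

/-- All formulas obtained by replacing the outermost large MOD gates by constants in a linear
way. -/
def insts (s w : ℕ) (φ : Fml p α) : Set (Fml p α) := Set.range fun l => svL s w l φ

theorem sv_mem (s w : ℕ) (ev : Fml p α → Bool) (φ : Fml p α) : sv s w ev φ ∈ insts s w φ :=
  ⟨lin s w ev, (sv_eq_svL s w ev φ).symm⟩

theorem card_insts [Fact p.Prime] (s w : ℕ) (φ : Fml p α) :
    (insts s w φ).Finite ∧ (insts s w φ).ncard ≤ p ^ φ.rank s w := by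
  classical
  set W := Submodule.span (ZMod p) (φ.front s w) with hW
  have hfin : FiniteDimensional (ZMod p) W :=
    FiniteDimensional.span_of_finite (ZMod p) (front_finite s w φ)
  have hfd : Finite (Module.Dual (ZMod p) W) := Module.finite_of_finite (ZMod p)
  have hsub : insts s w φ ⊆ Set.range (fun μ : Module.Dual (ZMod p) W =>
      svL s w (LinearMap.exists_extend μ).choose φ) := by
    rintro _ ⟨l, rfl⟩
    refine ⟨l ∘ₗ W.subtype, ?_⟩
    refine svL_congr fun v hv => ?_
    have h1 := (LinearMap.exists_extend (l ∘ₗ W.subtype)).choose_spec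
    have h2 := LinearMap.congr_fun h1 ⟨v, Submodule.subset_span hv⟩
    simpa using h2
  have hrf : (Set.range (fun μ : Module.Dual (ZMod p) W =>
      svL s w (LinearMap.exists_extend μ).choose φ)).Finite := Set.finite_range _
  refine ⟨hrf.subset hsub, (Set.ncard_le_ncard hsub hrf).trans ?_⟩
  rw [← Set.image_univ]
  refine (Set.ncard_image_le Set.finite_univ).trans ?_
  rw [Set.ncard_univ, Module.natCard_eq_pow_finrank (K := ZMod p), Nat.card_zmod,
    Subspace.dual_finrank_eq]
  exact le_refl _

theorem vars_svL (s w : ℕ) (l : (Fml p α →₀ ZMod p) →ₗ[ZMod p] ZMod p) (φ : Fml p α) :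
    (svL s w l φ).vars ⊆ φ.vars := by
  induction φ with
  | var x => exact Set.Subset.refl _
  | neg φ ih => exact ih
  | and k f ih => exact Set.iUnion_mono ih
  | or k f ih => exact Set.iUnion_mono ih
  | mod i k f ih =>
    rw [svL]
    split_ifs
    · exact Set.iUnion_mono ih
    · rw [vars_tt]; exact Set.empty_subset _
    · rw [vars_ff]; exact Set.empty_subset _

theorem svL_small {s w : ℕ} {l : (Fml p α →₀ ZMod p) →ₗ[ZMod p] ZMod p} {φ : Fml p α}
    (h : Small s φ) : svL s w l φ = φ := by
  induction φ with
  | var x => rfl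
  | neg φ ih => rw [svL, ih h]
  | and k f ih =>
    rw [svL]
    congr 1
    exact funext fun j => ih j (h.of_subset (vars_and k f j))
  | or k f ih =>
    rw [svL]
    congr 1
    exact funext fun j => ih j (h.of_subset (vars_or k f j))
  | mod i k f ih =>
    rw [svL, if_pos (Or.inl h)]
    congr 1
    exact funext fun j => ih j (h.of_subset (vars_mod i k f j))

/-- The first connective of an instance. -/
theorem kind_svL (s w : ℕ) (l : (Fml p α →₀ ZMod p) →ₗ[ZMod p] ZMod p) (φ : Fml p α) :
    Small s (svL s w l φ) ∨ ((svL s w l φ).isNeg = φ.isNeg ∧ (svL s w l φ).isAnd = φ.isAnd ∧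
      (svL s w l φ).isOr = φ.isOr) := by
  cases φ with
  | var x => exact Or.inr ⟨rfl, rfl, rfl⟩
  | neg φ => exact Or.inr ⟨rfl, rfl, rfl⟩
  | and k f => exact Or.inr ⟨rfl, rfl, rfl⟩
  | or k f => exact Or.inr ⟨rfl, rfl, rfl⟩
  | mod i k f =>
    rw [svL]
    split_ifs
    · exact Or.inr ⟨rfl, rfl, rfl⟩
    · exact Or.inl (small_tt s)
    · exact Or.inl (small_ff s)

open Classical in
theorem depth_svL {s : ℕ} (hs : 1 ≤ s) (w : ℕ) (l : (Fml p α →₀ ZMod p) →ₗ[ZMod p] ZMod p)
    (φ : Fml p α) : (svL s w l φ).depth s ≤ φ.depth s := by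
  induction φ with
  | var x => exact le_refl _
  | neg φ ih =>
    by_cases h : Small s (svL s w l (neg φ))
    · rw [depth_small h]
      omega
    have h' : ¬ Small s (svL s w l φ) := h
    have h'' : ¬ Small s φ := fun h1 => h' (h1.of_subset (vars_svL s w l φ))
    rw [svL, depth, depth, if_neg h', if_neg h'']
    rcases kind_svL s w l φ with h3 | h3
    · exact absurd h3 h'
    · rw [h3.1]
      split_ifs <;> omega
  | and k f ih =>
    by_cases h : Small s (svL s w l (and k f))
    · rw [depth_small h]
      omega
    have h'' : ¬ Small s (and k f) := fun h1 => h (h1.of_subset (vars_svL s w l _))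
    rw [svL] at h ⊢
    rw [depth, depth, if_neg h, if_neg h'']
    refine Finset.sup_mono_fun fun j _ => ?_
    have h2 := ih j
    have hv : Small s (f j) → Small s (svL s w l (f j)) := fun h1 =>
      h1.of_subset (vars_svL s w l _)
    have hpos : ¬ Small s (f j) → 1 ≤ (f j).depth s := fun h1 => depth_pos hs h1
    have hsm : Small s (svL s w l (f j)) → (svL s w l (f j)).depth s = 0 := fun h1 =>
      depth_small h1
    rcases kind_svL s w l (f j) with h3 | h3
    · have h4 := hsm h3
      rw [if_neg (fun h5 => h5.2 h3), h4]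
      split_ifs with h5
      · have := hpos h5.2
        omega
      · omega
    · rw [h3.2.1]
      by_cases h4 : Small s (svL s w l (f j))
      · have h5 := hsm h4
        rw [if_neg (fun h6 => h6.2 h4), h5]
        split_ifs with h6
        · have := hpos h6.2
          omega
        · omega
      · have h5 : ¬ Small s (f j) := fun h6 => h4 (hv h6)
        simp only [h4, h5, not_false_eq_true, and_true]
        split_ifs <;> omega
  | or k f ih =>
    by_cases h : Small s (svL s w l (or k f))
    · rw [depth_small h]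
      omega
    have h'' : ¬ Small s (or k f) := fun h1 => h (h1.of_subset (vars_svL s w l _))
    rw [svL] at h ⊢
    rw [depth, depth, if_neg h, if_neg h'']
    refine Finset.sup_mono_fun fun j _ => ?_
    have h2 := ih j
    have hv : Small s (f j) → Small s (svL s w l (f j)) := fun h1 =>
      h1.of_subset (vars_svL s w l _)
    have hpos : ¬ Small s (f j) → 1 ≤ (f j).depth s := fun h1 => depth_pos hs h1
    have hsm : Small s (svL s w l (f j)) → (svL s w l (f j)).depth s = 0 := fun h1 =>
      depth_small h1
    rcases kind_svL s w l (f j) with h3 | h3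
    · have h4 := hsm h3
      rw [if_neg (fun h5 => h5.2 h3), h4]
      split_ifs with h5
      · have := hpos h5.2
        omega
      · omega
    · rw [h3.2.2]
      by_cases h4 : Small s (svL s w l (f j))
      · have h5 := hsm h4
        rw [if_neg (fun h6 => h6.2 h4), h5]
        split_ifs with h6
        · have := hpos h6.2
          omega
        · omega
      · have h5 : ¬ Small s (f j) := fun h6 => h4 (hv h6)
        simp only [h4, h5, not_false_eq_true, and_true]
        split_ifs <;> omega
  | mod i k f ih =>
    by_cases h : Small s (svL s w l (mod i k f))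
    · rw [depth_small h]
      omega
    have h'' : ¬ Small s (mod i k f) := fun h1 => h (h1.of_subset (vars_svL s w l _))
    rw [svL] at h ⊢
    split_ifs at h ⊢ with h1 h2
    · rw [depth, depth, if_neg h, if_neg h'']
      exact Nat.add_le_add_right (Finset.sup_mono_fun fun j _ => ih j) 1
    · exact absurd (small_tt s) h
    · exact absurd (small_ff s) h

/-! ### Subformulas -/

open Classical in
/-- The finite set of subformulas. -/
noncomputable def subF : Fml p α → Finset (Fml p α)
  | .var x => {.var x}
  | .neg φ => insert (.neg φ) (subF φ)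
  | .and k f => insert (.and k f) (Finset.univ.biUnion fun j => subF (f j))
  | .or k f => insert (.or k f) (Finset.univ.biUnion fun j => subF (f j))
  | .mod i k f => insert (.mod i k f) (Finset.univ.biUnion fun j => subF (f j))

theorem mem_subF {φ ψ : Fml p α} : ψ ∈ subF φ ↔ ψ ∈ φ.subs := by
  classical
  induction φ with
  | var x => simp [subF, subs]
  | neg φ ih => simp [subF, subs, ih]
  | and k f ih => simp [subF, subs, ih]
  | or k f ih => simp [subF, subs, ih]
  | mod i k f ih => simp [subF, subs, ih]

theorem self_mem_subs (φ : Fml p α) : φ ∈ φ.subs := by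
  cases φ <;> simp [subs]

theorem subs_trans {φ ψ χ : Fml p α} (h1 : χ ∈ ψ.subs) (h2 : ψ ∈ φ.subs) : χ ∈ φ.subs := by
  induction φ with
  | var x =>
    simp only [subs, Set.mem_singleton_iff] at h2
    rw [h2] at h1
    exact h1
  | neg φ ih =>
    simp only [subs, Set.mem_insert_iff] at h2
    rcases h2 with rfl | h2
    · exact h1
    · exact Set.mem_insert_of_mem _ (ih h2)
  | and k f ih =>
    simp only [subs, Set.mem_insert_iff, Set.mem_iUnion] at h2
    rcases h2 with rfl | ⟨j, h2⟩
    · exact h1
    · exact Set.mem_insert_of_mem _ (Set.mem_iUnion.2 ⟨j, ih j h2⟩)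
  | or k f ih =>
    simp only [subs, Set.mem_insert_iff, Set.mem_iUnion] at h2
    rcases h2 with rfl | ⟨j, h2⟩
    · exact h1
    · exact Set.mem_insert_of_mem _ (Set.mem_iUnion.2 ⟨j, ih j h2⟩)
  | mod i k f ih =>
    simp only [subs, Set.mem_insert_iff, Set.mem_iUnion] at h2
    rcases h2 with rfl | ⟨j, h2⟩
    · exact h1
    · exact Set.mem_insert_of_mem _ (Set.mem_iUnion.2 ⟨j, ih j h2⟩)

theorem neg_mem_subs (φ : Fml p α) : φ ∈ (neg φ).subs :=
  Set.mem_insert_of_mem _ (self_mem_subs φ)

theorem and_mem_subs {k : ℕ} (f : Fin k → Fml p α) (j : Fin k) : f j ∈ (and k f).subs :=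
  Set.mem_insert_of_mem _ (Set.mem_iUnion.2 ⟨j, self_mem_subs _⟩)

theorem or_mem_subs {k : ℕ} (f : Fin k → Fml p α) (j : Fin k) : f j ∈ (or k f).subs :=
  Set.mem_insert_of_mem _ (Set.mem_iUnion.2 ⟨j, self_mem_subs _⟩)

theorem mod_mem_subs {i : ZMod p} {k : ℕ} (f : Fin k → Fml p α) (j : Fin k) :
    f j ∈ (mod i k f).subs :=
  Set.mem_insert_of_mem _ (Set.mem_iUnion.2 ⟨j, self_mem_subs _⟩)

theorem depth_subs {s : ℕ} {φ ψ : Fml p α} (h : ψ ∈ φ.subs) : ψ.depth s ≤ φ.depth s := by
  induction φ with
  | var x =>
    simp only [subs, Set.mem_singleton_iff] at h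
    rw [h]
  | neg φ ih =>
    simp only [subs, Set.mem_insert_iff] at h
    rcases h with rfl | h
    · exact le_refl _
    · exact (ih h).trans (depth_le_neg s φ)
  | and k f ih =>
    simp only [subs, Set.mem_insert_iff, Set.mem_iUnion] at h
    rcases h with rfl | ⟨j, h⟩
    · exact le_refl _
    · exact (ih j h).trans (depth_le_and s f j)
  | or k f ih =>
    simp only [subs, Set.mem_insert_iff, Set.mem_iUnion] at h
    rcases h with rfl | ⟨j, h⟩
    · exact le_refl _
    · exact (ih j h).trans (depth_le_or s f j)
  | mod i k f ih =>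
    simp only [subs, Set.mem_insert_iff, Set.mem_iUnion] at h
    rcases h with rfl | ⟨j, h⟩
    · exact le_refl _
    · exact (ih j h).trans (depth_le_mod s f j)

/-- The outermost large gates. -/
theorem front_gate {s w : ℕ} {φ : Fml p α} {v : Fml p α →₀ ZMod p} (hv : v ∈ φ.front s w) :
    ∃ (i : ZMod p) (k : ℕ) (f : Fin k → Fml p α), mod i k f ∈ φ.subs ∧
      ¬ Small s (mod i k f) ∧ v = ∑ j, Finsupp.single (f j) 1 := by
  induction φ with
  | var x => exact absurd hv (Set.notMem_empty v)
  | neg φ ih =>
    obtain ⟨i, k, f, h1, h2⟩ := ih hv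
    exact ⟨i, k, f, subs_trans h1 (neg_mem_subs φ), h2⟩
  | and k g ih =>
    rw [front, Set.mem_iUnion] at hv
    obtain ⟨j, hj⟩ := hv
    obtain ⟨i, k, f, h1, h2⟩ := ih j hj
    exact ⟨i, k, f, subs_trans h1 (and_mem_subs g j), h2⟩
  | or k g ih =>
    rw [front, Set.mem_iUnion] at hv
    obtain ⟨j, hj⟩ := hv
    obtain ⟨i, k, f, h1, h2⟩ := ih j hj
    exact ⟨i, k, f, subs_trans h1 (or_mem_subs g j), h2⟩
  | mod i' k g ih =>
    rw [front] at hv
    split_ifs at hv with h3 h4
    · exact absurd hv (Set.notMem_empty v)
    · rw [Set.mem_iUnion] at hv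
      obtain ⟨j, hj⟩ := hv
      obtain ⟨i, k, f, h1, h2⟩ := ih j hj
      exact ⟨i, k, f, subs_trans h1 (mod_mem_subs g j), h2⟩
    · exact ⟨i', k, g, self_mem_subs _, h3, hv⟩

end Fml

variable {p : ℕ} {α : Type}

theorem occurring_finite (π : List (Fml p α)) : (Occurring π).Finite := by
  classical
  have h : Occurring π = ((π.toFinset.biUnion Fml.subF : Finset (Fml p α)) : Set (Fml p α)) := by
    ext ψ
    simp only [Occurring, Set.mem_ofPred_eq, Finset.coe_biUnion, Set.mem_iUnion, Finset.mem_coe,
      List.mem_toFinset, Fml.mem_subF, exists_prop]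
  rw [h]
  exact Finset.finite_toSet _

section

variable [Fact p.Prime]

theorem GG_finite (s w : ℕ) (π : List (Fml p α)) :
    ((⋃ φ ∈ Occurring π, φ.insts s w) ∪ {Fml.tt, Fml.ff}).Finite := by
  refine Set.Finite.union ?_ (Set.toFinite _)
  exact (occurring_finite π).biUnion fun φ _ => (Fml.card_insts s w φ).1

/-- The formulas without large MOD gates given by a proof. -/
noncomputable def GG (s w : ℕ) (π : List (Fml p α)) : Finset (Fml p α) :=
  (GG_finite s w π).toFinset

theorem mem_GG {s w : ℕ} {π : List (Fml p α)} {ψ : Fml p α} :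
    ψ ∈ GG s w π ↔ (∃ φ ∈ Occurring π, ∃ l, Fml.svL s w l φ = ψ) ∨
      ψ = Fml.tt ∨ ψ = Fml.ff := by
  unfold GG Fml.insts
  simp only [Set.Finite.mem_toFinset, Set.mem_union, Set.mem_iUnion, exists_prop,
    Set.mem_insert_iff, Set.mem_singleton_iff, Set.mem_range]

theorem closed_GG (s w : ℕ) (π : List (Fml p α)) :
    Fml.Closed ((GG s w π : Finset (Fml p α)) : Set (Fml p α)) := by
  classical
  refine ⟨fun χ h => ?_, fun k g h j => ?_, fun k g h j => ?_, fun i k g h j => ?_⟩
  · rw [Finset.mem_coe, mem_GG] at h ⊢
    rcases h with ⟨φ, hφ, l, h⟩ | h | h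
    · left
      cases φ with
      | var x => cases h
      | neg φ =>
        rw [Fml.svL] at h
        cases h
        obtain ⟨A, hA, hs⟩ := hφ
        exact ⟨φ, ⟨A, hA, Fml.subs_trans (Fml.neg_mem_subs φ) hs⟩, l, rfl⟩
      | and k f => cases h
      | or k f => cases h
      | mod i k f =>
        rw [Fml.svL] at h
        split_ifs at h <;> cases h
    · cases h
    · cases h
  · rw [Finset.mem_coe, mem_GG] at h ⊢
    rcases h with ⟨φ, hφ, l, h⟩ | h | h
    · cases φ with
      | var x => cases h
      | neg φ => cases h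
      | and k' f =>
        rw [Fml.svL] at h
        cases h
        obtain ⟨A, hA, hs⟩ := hφ
        exact Or.inl ⟨f j, ⟨A, hA, Fml.subs_trans (Fml.and_mem_subs f j) hs⟩, l, rfl⟩
      | or k' f => cases h
      | mod i k' f =>
        rw [Fml.svL] at h
        split_ifs at h <;> first | (cases h; exact j.elim0) | cases h
    · cases h
      exact j.elim0
    · cases h
  · rw [Finset.mem_coe, mem_GG] at h ⊢
    rcases h with ⟨φ, hφ, l, h⟩ | h | h
    · cases φ with
      | var x => cases h
      | neg φ => cases h
      | or k' f =>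
        rw [Fml.svL] at h
        cases h
        obtain ⟨A, hA, hs⟩ := hφ
        exact Or.inl ⟨f j, ⟨A, hA, Fml.subs_trans (Fml.or_mem_subs f j) hs⟩, l, rfl⟩
      | and k' f => cases h
      | mod i k' f =>
        rw [Fml.svL] at h
        split_ifs at h <;> first | (cases h; exact j.elim0) | cases h
    · cases h
    · cases h
      exact j.elim0
  · rw [Finset.mem_coe, mem_GG] at h ⊢
    rcases h with ⟨φ, hφ, l, h⟩ | h | h
    · cases φ with
      | var x => cases h
      | neg φ => cases h
      | or k' f => cases h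
      | and k' f => cases h
      | mod i k' f =>
        rw [Fml.svL] at h
        split_ifs at h
        · cases h
          obtain ⟨A, hA, hs⟩ := hφ
          exact Or.inl ⟨f j, ⟨A, hA, Fml.subs_trans (Fml.mod_mem_subs f j) hs⟩, l, rfl⟩
        · cases h
        · cases h
    · cases h
    · cases h

theorem free_GG {s w : ℕ} {π : List (Fml p α)} (i : ZMod p) (k : ℕ) (f : Fin k → Fml p α)
    (h : Fml.mod i k f ∈ GG s w π) : Fml.Small s (Fml.mod i k f) ∨ k ≤ w := by
  rw [mem_GG] at h
  rcases h with ⟨φ, -, l, h⟩ | h | h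
  · cases φ with
    | var x => cases h
    | neg φ => cases h
    | or k' f => cases h
    | and k' f => cases h
    | mod i' k' f' =>
      rw [Fml.svL] at h
      split_ifs at h with h1
      · cases h
        rcases h1 with h1 | h1
        · left
          have h2 := Fml.svL_small (w := w) (l := l) h1
          rw [Fml.svL, if_pos (Or.inl h1)] at h2
          rw [h2]
          exact h1
        · exact Or.inr h1
      · cases h
      · cases h
  · cases h
  · cases h

theorem depth_GG {s w : ℕ} (hs : 1 ≤ s) {π : List (Fml p α)} {d : ℕ}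
    (hd : ∀ A ∈ π, A.depth s ≤ d) {ψ : Fml p α} (h : ψ ∈ GG s w π) : ψ.depth s ≤ d := by
  rw [mem_GG] at h
  rcases h with ⟨φ, ⟨A, hA, hsub⟩, l, rfl⟩ | rfl | rfl
  · exact (Fml.depth_svL hs w l φ).trans ((Fml.depth_subs hsub).trans (hd A hA))
  · rw [Fml.depth_small (Fml.small_tt s)]
    omega
  · rw [Fml.depth_small (Fml.small_ff s)]
    omega

theorem card_GG {s w : ℕ} {π : List (Fml p α)} {K : ℕ}
    (hK : ∀ ψ ∈ Occurring π, ψ.rank s w ≤ K) :
    (GG s w π).card ≤ (Occurring π).ncard * p ^ K + 2 := by
  classical
  have hp : 1 ≤ p := (Fact.out : p.Prime).one_le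
  unfold GG
  rw [← Set.ncard_eq_toFinset_card _ (GG_finite s w π)]
  refine (Set.ncard_union_le _ _).trans (Nat.add_le_add ?_ ?_)
  · have h1 := Set.Finite.toFinset (occurring_finite π)
    have h2 : (⋃ φ ∈ Occurring π, φ.insts s w) =
        ((occurring_finite π).toFinset.biUnion fun φ =>
          (Fml.card_insts s w φ).1.toFinset : Finset (Fml p α)) := by
      ext ψ
      simp
    rw [h2, Set.ncard_coe_finset, Set.ncard_eq_toFinset_card _ (occurring_finite π)]
    refine Finset.card_biUnion_le_card_mul _ _ _ fun φ hφ => ?_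
    rw [← Set.ncard_eq_toFinset_card _ (Fml.card_insts s w φ).1]
    refine (Fml.card_insts s w φ).2.trans (Nat.pow_le_pow_right hp (hK φ ?_))
    exact (Set.Finite.mem_toFinset _).1 hφ
  · refine (Set.ncard_insert_le _ _).trans ?_
    rw [Set.ncard_singleton]

end

end Pool.Agent.L0h36.BG
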