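import Pool.Agent.L0h36.BG.Final

set_option autoImplicit false
set_option linter.unusedSectionVars false

/-!
# The choice of the parameters
-/

namespace Pool.Agent.L0h36.BG

open Finset Pool.Agent.L0h36.BF

/-- One step: the numbers fit. -/
theorem step_param {q n t x y z : ℕ} (hq : 2 ≤ q) (hx : 4 * q * t * 2 ^ (q ^ 2) ≤ x)
    (hqx : q ≤ x) (hxy : x ≤ y) (hz : y ^ (q ^ 2 + 2) ≤ z) (hzn : z ≤ n) :
    4 * (t * ((n - q * ((n - y) / q)) ^ (q - 1)) ^ q) * (n - q * ((n - y) / q)) ^ q ≤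
      (n - y) / q - (n - z) / q := by
  have hy2 : 2 ≤ y := by omega
  have hyz : y ≤ z := by
    refine le_trans ?_ hz
    calc y = y ^ 1 := (pow_one y).symm
      _ ≤ y ^ (q ^ 2 + 2) := Nat.pow_le_pow_right (by omega) (by omega)
  set u := n - q * ((n - y) / q) with hu
  have hu1 : u ≤ 2 * y := by
    have h1 := Nat.div_add_mod (n - y) q
    have h2 := Nat.mod_lt (n - y) (show 0 < q by omega)
    omega
  have hpow : 4 * (t * (u ^ (q - 1)) ^ q) * u ^ q = 4 * t * u ^ (q ^ 2) := by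
    have h1 : (u ^ (q - 1)) ^ q * u ^ q = u ^ (q ^ 2) := by
      rw [← pow_mul, ← pow_add]
      congr 1
      obtain ⟨k, rfl⟩ : ∃ k, q = k + 1 := ⟨q - 1, by omega⟩
      simp only [Nat.add_sub_cancel]
      ring
    calc 4 * (t * (u ^ (q - 1)) ^ q) * u ^ q = 4 * t * ((u ^ (q - 1)) ^ q * u ^ q) := by ring
      _ = _ := by rw [h1]
  rw [hpow]
  have hmain : q * (4 * t * u ^ (q ^ 2)) + y ≤ z := by
    refine le_trans ?_ hz
    have h1 : u ^ (q ^ 2) ≤ 2 ^ (q ^ 2) * y ^ (q ^ 2) := by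
      rw [← mul_pow]
      exact Nat.pow_le_pow_left hu1 _
    have h2 : q * (4 * t * u ^ (q ^ 2)) ≤ y ^ (q ^ 2 + 1) := by
      calc q * (4 * t * u ^ (q ^ 2)) ≤ q * (4 * t * (2 ^ (q ^ 2) * y ^ (q ^ 2))) := by gcongr
        _ = (4 * q * t * 2 ^ (q ^ 2)) * y ^ (q ^ 2) := by ring
        _ ≤ y * y ^ (q ^ 2) := Nat.mul_le_mul_right _ (hx.trans hxy)
        _ = y ^ (q ^ 2 + 1) := by ring
    have h3 : y ≤ y ^ (q ^ 2 + 1) := by
      calc y = y ^ 1 := (pow_one y).symm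
        _ ≤ y ^ (q ^ 2 + 1) := Nat.pow_le_pow_right (by omega) (by omega)
    calc q * (4 * t * u ^ (q ^ 2)) + y ≤ y ^ (q ^ 2 + 1) + y ^ (q ^ 2 + 1) := Nat.add_le_add h2 h3
      _ = 2 * y ^ (q ^ 2 + 1) := by ring
      _ ≤ y * y ^ (q ^ 2 + 1) := Nat.mul_le_mul_right _ hy2
      _ = y ^ (q ^ 2 + 2) := by ring
  have h4 : (n - z) / q + 4 * t * u ^ (q ^ 2) ≤ (n - y) / q := by
    rw [← Nat.add_mul_div_left _ _ (show 0 < q by omega)]
    apply Nat.div_le_div_right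
    omega
  omega

theorem Bd_le (p K t h : ℕ) : Bd p K t h + t ≤ t * (p * (K + 1) + 1) ^ h := by
  induction h with
  | zero => simp [Bd]
  | succ h ih =>
    rw [Bd, pow_succ]
    calc K * (p * (Bd p K t h + t)) + t
        ≤ (K + 1) * (p * (Bd p K t h + t)) + (Bd p K t h + t) := by
          refine Nat.add_le_add ?_ (by omega)
          exact Nat.mul_le_mul_right _ (by omega)
      _ = (Bd p K t h + t) * (p * (K + 1) + 1) := by ring
      _ ≤ (t * (p * (K + 1) + 1) ^ h) * (p * (K + 1) + 1) := Nat.mul_le_mul_right _ ih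
      _ = _ := by ring

/-- The constants. -/
def Ec (q : ℕ) : ℕ := q ^ 2 + 2

/-- The exponent of the number of live points after the first stage. -/
def Rc (q d : ℕ) : ℕ := (4 * d + 7) * Ec q ^ d

def C1 (p q d : ℕ) : ℕ := 2 * (p + 6) * q * (p + 4) * (p + 1) ^ d

def Cc (p q d : ℕ) : ℕ :=
  2048 * q * C1 p q d ^ 2 + 4 * q ^ 2 * (p + 4) * 2 ^ (q ^ 2) + q * (p + 4) + q + 4

/-- The lower bound, with natural numbers as parameters. -/
theorem main_bound {p q d b n s w : ℕ} [Fact p.Prime] (hq : 2 ≤ q) (hpq : p.Coprime q)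
    (hs : 1 ≤ s) (hb : Cc p q d ≤ b) (hn : b ^ Rc q d ≤ n)
    (hsn : 2 * s * (2 * b ^ Rc q d) ^ q ≤ n ^ q) {L K : ℕ} (hL : L + 1 ≤ b)
    (hK : K + 1 ≤ b) (hw : w ≤ b)
    {π : List (Fml p (Finset (Fin n)))} (hpr : IsProof L π) (hd : ∀ A ∈ π, A.depth s ≤ d)
    (hf : ∀ ψ ∈ Occurring π, ψ.rank s w ≤ K) (hC : countFml p q n ∈ π) :
    2 ^ b ≤ (Occurring π).ncard := by
  classical
  by_contra hsize
  push Not at hsize
  have hp : p.Prime := Fact.out
  have hp2 := hp.two_le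
  have hb4 : 4 ≤ b := by unfold Cc at hb; omega
  have hb1 : 1 ≤ b := by omega
  set j0 := (p + 1) * b + 3 with hj0
  have hj0b : j0 ≤ (p + 4) * b := by
    have : (p + 4) * b = (p + 1) * b + 3 * b := by ring
    omega
  set t : ℕ → ℕ := fun h => q * j0 * b ^ h with ht
  set x := b ^ (4 * d + 7) with hx
  have hxb : ∀ k ≤ 4 * d + 7, b ^ k ≤ x := fun k hk => Nat.pow_le_pow_right hb1 hk
  have hqb : q ≤ b := by unfold Cc at hb; omega
  have hqx : q ≤ x := hqb.trans (by simpa using hxb 1 (by omega))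
  have htD : ∀ h ≤ d + 1, t h ≤ q * (p + 4) * b ^ (d + 2) := by
    intro h hh
    calc t h = q * j0 * b ^ h := rfl
      _ ≤ q * ((p + 4) * b) * b ^ (d + 1) :=
        Nat.mul_le_mul (Nat.mul_le_mul_left _ hj0b) (Nat.pow_le_pow_right hb1 hh)
      _ = q * (p + 4) * b ^ (d + 2) := by ring
  have hxt : ∀ h ≤ d + 1, 4 * q * t h * 2 ^ (q ^ 2) ≤ x := by
    intro h hh
    have h1 : 4 * q ^ 2 * (p + 4) * 2 ^ (q ^ 2) ≤ b := by unfold Cc at hb; omega
    calc 4 * q * t h * 2 ^ (q ^ 2) ≤ 4 * q * (q * (p + 4) * b ^ (d + 2)) * 2 ^ (q ^ 2) := by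
          gcongr
          exact htD h hh
      _ = (4 * q ^ 2 * (p + 4) * 2 ^ (q ^ 2)) * b ^ (d + 2) := by ring
      _ ≤ b * b ^ (d + 2) := Nat.mul_le_mul_right _ h1
      _ = b ^ (d + 3) := by ring
      _ ≤ x := hxb _ (by omega)
  have hE : 2 ≤ Ec q := by unfold Ec; omega
  have hx1 : 1 ≤ x := Nat.one_le_pow _ _ hb1
  have hxR : x ^ (Ec q ^ d) = b ^ Rc q d := by
    rw [hx, ← pow_mul]
    rfl
  set M : ℕ → ℕ := fun h => x ^ (Ec q ^ (d + 1 - h)) with hM
  have hM1 : M 1 = b ^ Rc q d := by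
    rw [← hxR]
    simp [hM]
  have hMx : ∀ h, x ≤ M h := by
    intro h
    calc x = x ^ 1 := (pow_one x).symm
      _ ≤ x ^ (Ec q ^ (d + 1 - h)) :=
        Nat.pow_le_pow_right hx1 (Nat.one_le_pow _ _ (by omega))
  have hMstep : ∀ h < d + 1, M (h + 1) ^ (q ^ 2 + 2) ≤ M h := by
    intro h hh
    have h1 : M (h + 1) ^ (q ^ 2 + 2) = M h := by
      simp only [hM]
      rw [← pow_mul]
      congr 1
      have : d + 1 - h = (d + 1 - (h + 1)) + 1 := by omega
      rw [this, pow_succ]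
      rfl
    rw [h1]
  have hMn : ∀ h, 1 ≤ h → M h ≤ n := by
    intro h hh
    refine le_trans ?_ hn
    rw [← hxR]
    exact Nat.pow_le_pow_right hx1 (Nat.pow_le_pow_right (by omega) (by omega))
  set A : ℕ → ℕ := fun h => (n - M h) / q with hA
  have hbig : ∀ h < d + 1, 1 ≤ h → 4 * (t h * ((n - q * A (h + 1)) ^ (q - 1)) ^ q) *
      (n - q * A (h + 1)) ^ q ≤ A (h + 1) - A h := by
    intro h hh h1
    exact step_param hq (hxt h (by omega)) hqx (hMx (h + 1)) (hMstep h hh) (hMn h h1)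
  have hle : ∀ h < d + 1, 1 ≤ h → q * A (h + 1) < n := by
    intro h hh _
    have h1 : q * A (h + 1) ≤ n - M (h + 1) := Nat.mul_div_le _ _
    have h2 := hMx (h + 1)
    have h3 := hMn (h + 1) (by omega)
    omega
  have hj0pos : 0 < j0 := by omega
  have hlt : ∀ h < d + 1, 1 ≤ h → A h < A (h + 1) := by
    intro h hh h1
    have h2 := hbig h hh h1
    have h3 := hle h hh h1
    have h4 : 0 < n - q * A (h + 1) := by omega
    have h5 : 0 < t h := Nat.mul_pos (Nat.mul_pos (by omega) hj0pos) (Nat.pow_pos hb1)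
    have h6 : 0 < 4 * (t h * ((n - q * A (h + 1)) ^ (q - 1)) ^ q) *
      (n - q * A (h + 1)) ^ q := by positivity
    omega
  have hcard : 2 * (GG s w π).card < 2 ^ j0 := by
    have h1 := card_GG hf
    have hpK : p ^ K ≤ 2 ^ (p * b) := by
      calc p ^ K ≤ (2 ^ p) ^ K := Nat.pow_le_pow_left (Nat.lt_two_pow_self).le K
        _ = 2 ^ (p * K) := (pow_mul 2 p K).symm
        _ ≤ 2 ^ (p * b) := Nat.pow_le_pow_right (by omega) (Nat.mul_le_mul_left _ (by omega))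
    have h2 : (Occurring π).ncard * p ^ K ≤ 2 ^ b * 2 ^ (p * b) :=
      Nat.mul_le_mul hsize.le hpK
    have h3 : 2 ^ j0 = 8 * (2 ^ b * 2 ^ (p * b)) := by
      rw [hj0, add_mul, one_mul, pow_add, pow_add]
      ring
    have h4 : 1 ≤ 2 ^ b * 2 ^ (p * b) := Nat.one_le_iff_ne_zero.2 (by positivity)
    omega
  have hcardV : Fintype.card (Fin n) = n := Fintype.card_fin n
  have hn0 : 0 < n := by
    have := hMx 1
    have := hMn 1 (le_refl _)
    omega
  -- the first stage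
  set u := n - q * A 1 with hu
  have hqA1 : q * A 1 ≤ n - M 1 := Nat.mul_div_le _ _
  have hM1n := hMn 1 (le_refl _)
  have hu1 : u ≤ 2 * M 1 := by
    have h1 := Nat.div_add_mod (n - M 1) q
    have h2 := Nat.mod_lt (n - M 1) (show 0 < q by omega)
    have h3 : A 1 = (n - M 1) / q := rfl
    rw [← h3] at h1
    have h4 := hMx 1
    omega
  have huM : M 1 ≤ u := by omega
  obtain ⟨b₀, hb₀, hb₀c, T₀, hT₀⟩ := first_stage (q := q) (by omega) (GG s w π) s u (A 1) j0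
    (by rw [hcardV]; omega) (by omega) (by
      calc q * j0 ≤ q * ((p + 4) * b) := Nat.mul_le_mul_left _ hj0b
        _ = (q * (p + 4)) * b := by ring
        _ ≤ b * b := Nat.mul_le_mul_right _ (by unfold Cc at hb; omega)
        _ = b ^ 2 := by ring
        _ ≤ x := hxb 2 (by omega)
        _ ≤ M 1 := hMx 1
        _ ≤ u := huM) (by
      rw [hcardV]
      refine le_trans ?_ hsn
      refine Nat.mul_le_mul_left _ (Nat.pow_le_pow_left ?_ _)
      rw [← hM1]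
      exact hu1) (by rw [hcardV]; exact hn0)
  have hqj : ∀ h, q * j0 ≤ t h := fun h => Nat.le_mul_of_pos_right _ (Nat.pow_pos hb1)
  obtain ⟨ρ, hρ, hρc, T, hT⟩ := all_stages (w := w) (by omega) hs (GG s w π) (closed_GG s w π)
    (fun i k f h => free_GG i k f h) t j0 hqj
    (fun h => by
      calc w * t h ≤ b * t h := Nat.mul_le_mul_right _ hw
        _ = t (h + 1) := by simp only [ht]; ring)
    (fun h => Nat.mul_le_mul_left _ (Nat.pow_le_pow_right hb1 (by omega))) hcard A b₀ hb₀ hb₀c T₀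
    (fun ψ h1 h2 => ⟨fun r hr => ((hT₀ ψ h1 h2).1 r hr).trans (hqj 1), (hT₀ ψ h1 h2).2⟩)
    (d + 1) hlt (by rw [hcardV]; exact hle) (by rw [hcardV]; exact hbig) (d + 1) (by omega)
    (le_refl _)
  set t' := t (d + 1) with ht'
  have hT' : ∀ ψ ∈ GG s w π, Dep q (T ψ) ρ t' ∧ LC q s T ρ ψ := fun ψ hψ =>
    hT ψ hψ (Nat.lt_succ_of_le (depth_GG hs hd hψ))
  set X := Bd p K t' d with hX
  have hXt : X + t' ≤ q * (p + 4) * (p + 1) ^ d * b ^ (2 * d + 2) := by
    have h1 := Bd_le p K t' d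
    have h2 : p * (K + 1) + 1 ≤ (p + 1) * b := by
      calc p * (K + 1) + 1 ≤ p * b + b := Nat.add_le_add (Nat.mul_le_mul_left _ hK) hb1
        _ = (p + 1) * b := by ring
    calc X + t' ≤ t' * (p * (K + 1) + 1) ^ d := h1
      _ ≤ (q * (p + 4) * b ^ (d + 2)) * ((p + 1) * b) ^ d :=
        Nat.mul_le_mul (htD (d + 1) (le_refl _)) (Nat.pow_le_pow_left h2 d)
      _ = q * (p + 4) * (p + 1) ^ d * b ^ (2 * d + 2) := by
        rw [mul_pow]
        ring
  set Dm := (p + 6) * (L + 1) * (X + t') + 2 with hDm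
  have hDmb : Dm ≤ C1 p q d * b ^ (2 * d + 3) := by
    have h4 : 1 ≤ (p + 6) * b * (q * (p + 4) * (p + 1) ^ d * b ^ (2 * d + 2)) := by
      refine Nat.one_le_iff_ne_zero.2 ?_
      have : 0 < q := by omega
      have : 0 < b := by omega
      positivity
    have h5 : 2 ≤ (p + 6) * b * (q * (p + 4) * (p + 1) ^ d * b ^ (2 * d + 2)) := by
      have h6 : 2 ≤ (p + 6) * b := by nlinarith
      have h7 : 1 ≤ q * (p + 4) * (p + 1) ^ d * b ^ (2 * d + 2) := by
        refine Nat.one_le_iff_ne_zero.2 ?_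
        have : 0 < q := by omega
        have : 0 < b := by omega
        positivity
      calc 2 = 2 * 1 := rfl
        _ ≤ _ := Nat.mul_le_mul h6 h7
    calc Dm ≤ (p + 6) * b * (q * (p + 4) * (p + 1) ^ d * b ^ (2 * d + 2)) +
          (p + 6) * b * (q * (p + 4) * (p + 1) ^ d * b ^ (2 * d + 2)) := by
          rw [hDm]
          refine Nat.add_le_add ?_ h5
          exact Nat.mul_le_mul (Nat.mul_le_mul_left _ hL) hXt
      _ = C1 p q d * b ^ (2 * d + 3) := by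
          unfold C1
          ring
  have hU : 2048 * q * Dm ^ 2 ≤ (Finset.univ \ cov ρ).card := by
    rw [Finset.card_sdiff_of_subset (Finset.subset_univ _), Finset.card_univ, hcardV, hρ.card_cov,
      hρc]
    have h1 : q * A (d + 1) ≤ n - M (d + 1) := Nat.mul_div_le _ _
    have h2 : M (d + 1) = x := by simp [hM]
    have h3 := hMn (d + 1) (by omega)
    have h4 : 2048 * q * Dm ^ 2 ≤ x := by
      have h5 : 2048 * q * C1 p q d ^ 2 ≤ b := by unfold Cc at hb; omega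
      calc 2048 * q * Dm ^ 2 ≤ 2048 * q * (C1 p q d * b ^ (2 * d + 3)) ^ 2 := by gcongr
        _ = (2048 * q * C1 p q d ^ 2) * b ^ (4 * d + 6) := by ring
        _ ≤ b * b ^ (4 * d + 6) := Nat.mul_le_mul_right _ h5
        _ = x := by rw [hx]; ring
    omega
  have hqF : ((q : ℕ) : AlgebraicClosure (ZMod p)) ≠ 0 := by
    rw [Ne, CharP.cast_eq_zero_iff (AlgebraicClosure (ZMod p)) p]
    intro h
    have h1 := Nat.Coprime.eq_one_of_dvd hpq h
    exact hp.one_lt.ne' h1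
  have : NeZero ((q : ℕ) : AlgebraicClosure (ZMod p)) := ⟨hqF⟩
  obtain ⟨ω, hω⟩ := HasEnoughRootsOfUnity.exists_primitiveRoot (AlgebraicClosure (ZMod p)) q
  obtain ⟨MD⟩ := exists_model (by omega) hω (Finset.univ \ cov ρ) Dm (by omega) hU
  have hsubs : ∀ ψ ∈ Occurring π, ∀ χ ∈ ψ.subs, χ ∈ Occurring π := fun ψ h χ h' =>
    occ_sub h h'
  have hdo : ∀ ψ ∈ Occurring π, ψ.depth s ≤ d := by
    rintro ψ ⟨B, hB, hsub⟩
    exact (Fml.depth_subs hsub).trans (hd B hB)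
  have hdi : ∀ φ ∈ Occurring π, ∀ ψ ∈ φ.subs, ∀ χ ∈ ψ.insts s w, Dep q (T χ) ρ t' := by
    rintro φ hφ ψ hψ χ ⟨l, rfl⟩
    exact (hT' _ (mem_GG.2 (Or.inl ⟨ψ, hsubs φ hφ ψ hψ, l, rfl⟩))).1
  refine no_proof (s := s) (w := w) (X := X) (t := t') hs MD T hρ hT' ?_ ?_ (le_refl _) hpr hC
  · intro ψ hψ χ
    exact sv_mem_A s w MD T hρ d ψ (hdo ψ hψ) (fun χ hχ => hf χ (hsubs ψ hψ χ hχ))
      (hdi ψ hψ) χ
  · intro ψ hψ
    exact vl_mem' s w MD T hρ ψ (hdo ψ hψ) (fun χ hχ => hf χ (hsubs ψ hψ χ hχ)) (hdi ψ hψ)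

end Pool.Agent.L0h36.BG
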