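import Pool.Agent.L0h36.BG.Trans

set_option autoImplicit false
set_option linter.unusedSectionVars false

/-!
# Soundness in the local model: truth values relative to a system
-/

namespace Pool.Agent.L0h36.BG

open Finset Pool.Agent.L0h36.BF

variable {V : Type} [DecidableEq V] {q : ℕ} {ρ : Finset (Finset V)}

/-- No branch with the label `b` is compatible with `r`. -/
def NoBr (q : ℕ) (T : DT V) (ρ r : Finset (Finset V)) (b : Bool) : Prop :=
  ∀ s, Br q T ρ s b → ¬ PM q (r ∪ s)

theorem NoBr.of_br {T : DT V} {m r : Finset (Finset V)} {b : Bool} (h : Br q T ρ m b)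
    (hmr : m ⊆ r) : NoBr q T ρ r (!b) := by
  intro s hs hp
  have := (h.unique hs hp (hmr.trans Finset.subset_union_left) Finset.subset_union_right).2
  cases b <;> simp at this

theorem not_NoBr {T : DT V} {m r : Finset (Finset V)} {b : Bool} (h : Br q T ρ m b)
    (hmr : m ⊆ r) (hr : PM q r) : ¬ NoBr q T ρ r b := by
  intro h'
  refine h' m h ?_
  rwa [Finset.union_eq_left.2 hmr]

theorem NoBr.flip_iff {T : DT V} {r : Finset (Finset V)} {b : Bool} :
    NoBr q T.flip ρ r b ↔ NoBr q T ρ r (!b) := by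
  constructor
  · intro h s hs
    refine h s ?_
    rw [Br.flip_iff]
    exact hs
  · intro h s hs
    rw [Br.flip_iff] at hs
    exact h s hs

section rep

variable {p s : ℕ} {T : Fml p (Finset V) → DT V}

theorem LCs.nobr {T' : DT V} {ψ : Fml p (Finset V)} (h : LCs q T' ρ ψ)
    {m r : Finset (Finset V)} (hd : Dec q ψ m) (hmr : m ⊆ r) {b : Bool}
    (hb : ¬ (b = true ↔ ψ.Holds (fun e => e ∈ m))) : NoBr q T' ρ r b := by
  intro s' hs' hp
  obtain ⟨h1, h2⟩ := h.1 s' b hs'
  apply hb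
  rw [h2, h1.holds Finset.subset_union_right hp,
    hd.holds (hmr.trans Finset.subset_union_left) hp]

theorem rep_or_true {k : ℕ} {g : Fin k → Fml p (Finset V)} {m r : Finset (Finset V)}
    (hLC : LC q s T ρ (.or k g)) (hLCg : ∀ j, LC q s T ρ (g j))
    (hm : Br q (T (.or k g)) ρ m true) (hmr : m ⊆ r) : ∃ j, NoBr q (T (g j)) ρ r false := by
  by_cases hsm : Fml.Small s (Fml.or k g)
  · obtain ⟨h1, h2⟩ := (hLC.1 hsm).1 m true hm
    obtain ⟨j, hj⟩ := h2.1 rfl
    have hv := Fml.vars_or k g j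
    refine ⟨j, ((hLCg j).1 (hsm.of_subset hv)).nobr (h1.of_vars hv) hmr ?_⟩
    exact fun h => Bool.false_ne_true (h.2 hj)
  obtain ⟨ξ, hξ, τ, hτ, hτm⟩ := (hLC.2 hsm).1 m hm
  rw [Fml.orLeaves_or hsm, Set.mem_iUnion] at hξ
  obtain ⟨j, hj⟩ := hξ
  refine ⟨j, ?_⟩
  by_cases hg : (g j).isOr = true ∧ ¬ Fml.Small s (g j)
  · have hLj := (hLCg j).2 hg.2
    revert hj hLj hg
    generalize g j = ψ
    intro hj hg hLj
    cases ψ with
    | or k' g' =>
      intro s' hs hp
      refine hLj.2 s' hs ξ hj τ hτ (hp.mono ?_)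
      exact Finset.union_subset Finset.subset_union_right
        ((hτm.trans hmr).trans Finset.subset_union_left)
    | var x => simp [Fml.isOr] at hg
    | neg φ => simp [Fml.isOr] at hg
    | and k' g' => simp [Fml.isOr] at hg
    | mod i k' g' => simp [Fml.isOr] at hg
  · rw [(Fml.depth_orLeaves hj).2 hg] at hτ
    exact NoBr.of_br hτ (hτm.trans hmr)

theorem rep_or_false {k : ℕ} {g : Fin k → Fml p (Finset V)} {m r : Finset (Finset V)}
    (hLC : LC q s T ρ (.or k g)) (hLCg : ∀ j, LC q s T ρ (g j))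
    (hm : Br q (T (.or k g)) ρ m false) (hmr : m ⊆ r) (j : Fin k) :
    NoBr q (T (g j)) ρ r true := by
  by_cases hsm : Fml.Small s (Fml.or k g)
  · obtain ⟨h1, h2⟩ := (hLC.1 hsm).1 m false hm
    have hv := Fml.vars_or k g j
    refine ((hLCg j).1 (hsm.of_subset hv)).nobr (h1.of_vars hv) hmr ?_
    exact fun h => Bool.false_ne_true (h2.2 ⟨j, h.1 rfl⟩)
  have hsub : (g j).orLeaves s ⊆ (Fml.or k g).orLeaves s := by
    rw [Fml.orLeaves_or hsm]
    exact Set.subset_iUnion (fun j => (g j).orLeaves s) j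
  have h2 := (hLC.2 hsm).2 m hm
  by_cases hg : (g j).isOr = true ∧ ¬ Fml.Small s (g j)
  · have hLj := (hLCg j).2 hg.2
    revert hsub hLj hg
    generalize g j = ψ
    intro hsub hg hLj s' hs hp
    cases ψ with
    | or k' g' =>
      obtain ⟨ξ, hξ, τ, hτ, hτs⟩ := hLj.1 s' hs
      exact h2 ξ (hsub hξ) τ hτ (hp.mono (Finset.union_subset_union hmr hτs))
    | var x => simp [Fml.isOr] at hg
    | neg φ => simp [Fml.isOr] at hg
    | and k' g' => simp [Fml.isOr] at hg
    | mod i k' g' => simp [Fml.isOr] at hg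
  · intro s' hs hp
    have hself : g j ∈ (Fml.or k g).orLeaves s := by
      apply hsub
      rw [Fml.orLeaves_self]
      · exact Set.mem_singleton _
      · by_cases h : (g j).isOr = true
        · right
          by_contra h'
          exact hg ⟨h, h'⟩
        · left
          simpa using h
    exact h2 (g j) hself s' hs (hp.mono (Finset.union_subset_union_left hmr))

theorem rep_and_false {k : ℕ} {g : Fin k → Fml p (Finset V)} {m r : Finset (Finset V)}
    (hLC : LC q s T ρ (.and k g)) (hLCg : ∀ j, LC q s T ρ (g j))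
    (hm : Br q (T (.and k g)) ρ m false) (hmr : m ⊆ r) : ∃ j, NoBr q (T (g j)) ρ r true := by
  by_cases hsm : Fml.Small s (Fml.and k g)
  · obtain ⟨h1, h2⟩ := (hLC.1 hsm).1 m false hm
    have h3 : ¬ (Fml.and k g).Holds (fun e => e ∈ m) := fun h => Bool.false_ne_true (h2.2 h)
    rw [Fml.Holds] at h3
    push Not at h3
    obtain ⟨j, hj⟩ := h3
    have hv := Fml.vars_and k g j
    refine ⟨j, ((hLCg j).1 (hsm.of_subset hv)).nobr (h1.of_vars hv) hmr ?_⟩
    exact fun h => hj (h.1 rfl)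
  obtain ⟨ξ, hξ, τ, hτ, hτm⟩ := (hLC.2 hsm).1 m hm
  rw [Fml.andLeaves_and hsm, Set.mem_iUnion] at hξ
  obtain ⟨j, hj⟩ := hξ
  refine ⟨j, ?_⟩
  by_cases hg : (g j).isAnd = true ∧ ¬ Fml.Small s (g j)
  · have hLj := (hLCg j).2 hg.2
    revert hj hLj hg
    generalize g j = ψ
    intro hj hg hLj
    cases ψ with
    | and k' g' =>
      intro s' hs hp
      refine hLj.2 s' hs ξ hj τ hτ (hp.mono ?_)
      exact Finset.union_subset Finset.subset_union_right
        ((hτm.trans hmr).trans Finset.subset_union_left)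
    | var x => simp [Fml.isAnd] at hg
    | neg φ => simp [Fml.isAnd] at hg
    | or k' g' => simp [Fml.isAnd] at hg
    | mod i k' g' => simp [Fml.isAnd] at hg
  · rw [(Fml.depth_andLeaves hj).2 hg] at hτ
    exact NoBr.of_br hτ (hτm.trans hmr)

theorem rep_and_true {k : ℕ} {g : Fin k → Fml p (Finset V)} {m r : Finset (Finset V)}
    (hLC : LC q s T ρ (.and k g)) (hLCg : ∀ j, LC q s T ρ (g j))
    (hm : Br q (T (.and k g)) ρ m true) (hmr : m ⊆ r) (j : Fin k) :
    NoBr q (T (g j)) ρ r false := by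
  by_cases hsm : Fml.Small s (Fml.and k g)
  · obtain ⟨h1, h2⟩ := (hLC.1 hsm).1 m true hm
    have h3 := h2.1 rfl
    have hv := Fml.vars_and k g j
    refine ((hLCg j).1 (hsm.of_subset hv)).nobr (h1.of_vars hv) hmr ?_
    exact fun h => Bool.false_ne_true (h.2 (h3 j))
  have hsub : (g j).andLeaves s ⊆ (Fml.and k g).andLeaves s := by
    rw [Fml.andLeaves_and hsm]
    exact Set.subset_iUnion (fun j => (g j).andLeaves s) j
  have h2 := (hLC.2 hsm).2 m hm
  by_cases hg : (g j).isAnd = true ∧ ¬ Fml.Small s (g j)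
  · have hLj := (hLCg j).2 hg.2
    revert hsub hLj hg
    generalize g j = ψ
    intro hsub hg hLj s' hs hp
    cases ψ with
    | and k' g' =>
      obtain ⟨ξ, hξ, τ, hτ, hτs⟩ := hLj.1 s' hs
      exact h2 ξ (hsub hξ) τ hτ (hp.mono (Finset.union_subset_union hmr hτs))
    | var x => simp [Fml.isAnd] at hg
    | neg φ => simp [Fml.isAnd] at hg
    | or k' g' => simp [Fml.isAnd] at hg
    | mod i k' g' => simp [Fml.isAnd] at hg
  · intro s' hs hp
    have hself : g j ∈ (Fml.and k g).andLeaves s := by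
      apply hsub
      rw [Fml.andLeaves_self]
      · exact Set.mem_singleton _
      · by_cases h : (g j).isAnd = true
        · right
          by_contra h'
          exact hg ⟨h, h'⟩
        · left
          simpa using h
    exact h2 (g j) hself s' hs (hp.mono (Finset.union_subset_union_left hmr))

end rep

section insts

variable {p : ℕ} [Fact p.Prime] {s w : ℕ} {T : Fml p (Finset V) → DT V}
  {π : List (Fml p (Finset V))}

theorem occ_sub {φ ψ : Fml p (Finset V)} (h : ψ ∈ Occurring π) (h' : φ ∈ ψ.subs) :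
    φ ∈ Occurring π := by
  obtain ⟨A, hA, hs⟩ := h
  exact ⟨A, hA, Fml.subs_trans h' hs⟩

theorem sv_mem_GG (ev : Fml p (Finset V) → Bool) {φ : Fml p (Finset V)}
    (h : φ ∈ Occurring π) : Fml.sv s w ev φ ∈ GG s w π :=
  mem_GG.2 (Or.inl ⟨φ, h, _, (Fml.sv_eq_svL s w ev φ).symm⟩)

/-- The truth values given by `r`, completed by the values `ev`. -/
def ww (q s w : ℕ) (T : Fml p (Finset V) → DT V) (ρ r : Finset (Finset V))
    (ev : Fml p (Finset V) → Bool) (φ : Fml p (Finset V)) : Prop :=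
  NoBr q (T (Fml.sv s w ev φ)) ρ r false ∨
    (¬ NoBr q (T (Fml.sv s w ev φ)) ρ r true ∧ ev (Fml.sv s w ev φ) = true)

theorem ww_of_nobr {r : Finset (Finset V)} {ev : Fml p (Finset V) → Bool}
    {φ : Fml p (Finset V)} {b : Bool} (h1 : NoBr q (T (Fml.sv s w ev φ)) ρ r (!b))
    (h2 : ¬ NoBr q (T (Fml.sv s w ev φ)) ρ r b) : ww q s w T ρ r ev φ ↔ b = true := by
  unfold ww
  cases b with
  | true => exact iff_of_true (Or.inl h1) rfl
  | false =>
    refine iff_of_false ?_ (by simp)
    rintro (h | ⟨h, -⟩)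
    · exact h2 h
    · exact h h1

theorem ww_of_br {r m : Finset (Finset V)} (hr : PM q r) {ev : Fml p (Finset V) → Bool}
    {φ : Fml p (Finset V)} {b : Bool} (hm : Br q (T (Fml.sv s w ev φ)) ρ m b) (hmr : m ⊆ r) :
    ww q s w T ρ r ev φ ↔ b = true :=
  ww_of_nobr (NoBr.of_br hm hmr) (not_NoBr hm hmr hr)

theorem T_tt (hT : ∀ ψ ∈ GG s w π, LC q s T ρ ψ) : T .tt = .leaf true := by
  have h1 := (hT .tt (mem_GG.2 (Or.inr (Or.inl rfl)))).1 (Fml.small_tt s)
  obtain ⟨b, hb⟩ := h1.2 Fml.vars_tt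
  have h2 := (h1.1 ρ b (by rw [hb]; exact Br.leaf _ _)).2
  rw [hb, h2.2 (by intro j; exact j.elim0)]

theorem T_ff (hT : ∀ ψ ∈ GG s w π, LC q s T ρ ψ) : T .ff = .leaf false := by
  have h1 := (hT .ff (mem_GG.2 (Or.inr (Or.inr rfl)))).1 (Fml.small_ff s)
  obtain ⟨b, hb⟩ := h1.2 Fml.vars_ff
  have h2 := (h1.1 ρ b (by rw [hb]; exact Br.leaf _ _)).2
  rw [hb]
  cases b with
  | false => rfl
  | true =>
    obtain ⟨j, -⟩ := h2.1 rfl
    exact j.elim0

theorem cast_ncard {k : ℕ} (P : Fin k → Prop) [DecidablePred P] :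
    (({j | P j}.ncard : ℕ) : ZMod p) = ∑ j, (if P j then (1 : ZMod p) else 0) := by
  rw [Finset.sum_boole]
  congr 1
  rw [← Set.ncard_coe_finset]
  congr 1
  ext j
  simp

/-- A large gate. -/
theorem ww_large (hT : ∀ ψ ∈ GG s w π, LC q s T ρ ψ) {r : Finset (Finset V)} (hρr : ρ ⊆ r)
    (hr : PM q r) (ev : Fml p (Finset V) → Bool) (i : ZMod p) (k : ℕ)
    (f : Fin k → Fml p (Finset V)) (hl : ¬ (Fml.Small s (Fml.mod i k f) ∨ k ≤ w)) :
    ww q s w T ρ r ev (.mod i k f) ↔
      (∑ j, (if ev (Fml.sv s w ev (f j)) = true then (1 : ZMod p) else 0)) = i := by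
  by_cases h : (∑ j, (if ev (Fml.sv s w ev (f j)) = true then (1 : ZMod p) else 0)) = i
  · have h1 : Br q (T (Fml.sv s w ev (.mod i k f))) ρ ρ true := by
      rw [Fml.sv, if_neg hl, if_pos h, T_tt hT]
      exact Br.leaf _ _
    rw [ww_of_br hr h1 hρr]
    exact iff_of_true rfl h
  · have h1 : Br q (T (Fml.sv s w ev (.mod i k f))) ρ ρ false := by
      rw [Fml.sv, if_neg hl, if_neg h, T_ff hT]
      exact Br.leaf _ _
    rw [ww_of_br hr h1 hρr]
    exact iff_of_false (by simp) h

open Classical in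
/-- The difference of the two counts of the arguments of a gate. -/
noncomputable def errZ (q s w : ℕ) (T : Fml p (Finset V) → DT V) (ρ r : Finset (Finset V))
    (ev : Fml p (Finset V) → Bool) : Fml p (Finset V) → ZMod p
  | .mod _ _ f => ∑ j, ((if ww q s w T ρ r ev (f j) then (1 : ZMod p) else 0) -
      (if ev (Fml.sv s w ev (f j)) = true then (1 : ZMod p) else 0))
  | _ => 0

/-- The truth values are correct, or some tree has no branch compatible with `r`, or the two counts
of the arguments of a gate are different. -/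
theorem correct_or (hT : ∀ ψ ∈ GG s w π, LC q s T ρ ψ) {r m : Finset (Finset V)} (hρr : ρ ⊆ r)
    (hr : PM q r) (ev : Fml p (Finset V) → Bool)
    (hlive : ∀ χ ∈ GG s w π, ∃ b, ¬ NoBr q (T χ) ρ r b) {ψ : Fml p (Finset V)}
    (hψ : ψ ∈ Occurring π) {b : Bool} (hm : Br q (T (Fml.sv s w ev ψ)) ρ m b) (hmr : m ⊆ r)
    (herr : errZ q s w T ρ r ev ψ = 0) :
    Fml.CorrectAt (ww q s w T ρ r ev) ψ := by
  classical
  have hliveφ : ∀ φ ∈ Occurring π, ∀ b, NoBr q (T (Fml.sv s w ev φ)) ρ r (!b) →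
      (ww q s w T ρ r ev φ ↔ b = true) := by
    intro φ hφ b' h1
    refine ww_of_nobr h1 fun h2 => ?_
    obtain ⟨b'', h3⟩ := hlive _ (sv_mem_GG ev hφ)
    apply h3
    cases b' <;> cases b'' <;> simp_all
  have hwψ := ww_of_br (w := w) hr hm hmr
  cases ψ with
  | var x => trivial
  | neg φ =>
    rw [Fml.CorrectAt, hwψ]
    have hocc : φ ∈ Occurring π := occ_sub hψ (Fml.neg_mem_subs φ)
    have hLC := hT _ (sv_mem_GG (s := s) (w := w) ev hψ)
    have hLC' := hT _ (sv_mem_GG (s := s) (w := w) ev hocc)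
    rw [Fml.sv] at hLC hm
    have hkey : NoBr q (T (Fml.sv s w ev φ)) ρ r (!(!b)) := by
      by_cases hsm : Fml.Small s (Fml.neg (Fml.sv s w ev φ))
      · obtain ⟨h1, h2⟩ := (hLC.1 hsm).1 m b hm
        refine (hLC'.1 hsm).nobr h1 hmr ?_
        rw [Bool.not_not, h2]
        exact fun h3 => iff_not_self h3.symm
      · have h1 := hLC.2 hsm
        rw [LCc] at h1
        rw [h1, Br.flip_iff] at hm
        exact NoBr.of_br hm hmr
    rw [hliveφ φ hocc _ hkey]
    cases b <;> simp
  | and k f =>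
    rw [Fml.CorrectAt, hwψ]
    have hocc : ∀ j, f j ∈ Occurring π := fun j => occ_sub hψ (Fml.and_mem_subs f j)
    have h1 := hT _ (sv_mem_GG (s := s) (w := w) ev hψ)
    have h2 : ∀ j, LC q s T ρ (Fml.sv s w ev (f j)) := fun j => hT _ (sv_mem_GG ev (hocc j))
    rw [Fml.sv] at h1 hm
    cases b with
    | true =>
      refine iff_of_true rfl fun j => ?_
      exact (hliveφ (f j) (hocc j) true (rep_and_true h1 h2 hm hmr j)).2 rfl
    | false =>
      obtain ⟨j, hj⟩ := rep_and_false h1 h2 hm hmr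
      refine iff_of_false (by simp) fun h => ?_
      exact Bool.false_ne_true ((hliveφ (f j) (hocc j) false hj).1 (h j))
  | or k f =>
    rw [Fml.CorrectAt, hwψ]
    have hocc : ∀ j, f j ∈ Occurring π := fun j => occ_sub hψ (Fml.or_mem_subs f j)
    have h1 := hT _ (sv_mem_GG (s := s) (w := w) ev hψ)
    have h2 : ∀ j, LC q s T ρ (Fml.sv s w ev (f j)) := fun j => hT _ (sv_mem_GG ev (hocc j))
    rw [Fml.sv] at h1 hm
    cases b with
    | true =>
      obtain ⟨j, hj⟩ := rep_or_true h1 h2 hm hmr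
      exact iff_of_true rfl ⟨j, (hliveφ (f j) (hocc j) true hj).2 rfl⟩
    | false =>
      refine iff_of_false (by simp) ?_
      rintro ⟨j, hj⟩
      exact Bool.false_ne_true
        ((hliveφ (f j) (hocc j) false (rep_or_false h1 h2 hm hmr j)).1 hj)
  | mod i k f =>
    rw [Fml.CorrectAt, cast_ncard]
    have hocc : ∀ j, f j ∈ Occurring π := fun j => occ_sub hψ (Fml.mod_mem_subs f j)
    by_cases hl : Fml.Small s (Fml.mod i k f) ∨ k ≤ w
    · rw [hwψ]
      have h1 := hT _ (sv_mem_GG (s := s) (w := w) ev hψ)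
      rw [Fml.sv, if_pos hl] at h1 hm
      by_cases hsm : Fml.Small s (Fml.mod i k (fun j => Fml.sv s w ev (f j)))
      · obtain ⟨h3, h4⟩ := (h1.1 hsm).1 m b hm
        rw [h4, Fml.Holds, cast_ncard]
        have h5 : ∀ j, (ww q s w T ρ r ev (f j) ↔
            (Fml.sv s w ev (f j)).Holds (fun e => e ∈ m)) := by
          intro j
          have hv := Fml.vars_mod i k (fun j => Fml.sv s w ev (f j)) j
          have h6 := (hT _ (sv_mem_GG (s := s) (w := w) ev (hocc j))).1 (hsm.of_subset hv)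
          by_cases h7 : (Fml.sv s w ev (f j)).Holds (fun e => e ∈ m)
          · rw [hliveφ (f j) (hocc j) true (h6.nobr (h3.of_vars hv) hmr (by simpa using h7))]
            exact iff_of_true rfl h7
          · rw [hliveφ (f j) (hocc j) false (h6.nobr (h3.of_vars hv) hmr (by simpa using h7))]
            exact iff_of_false (by simp) h7
        simp only [h5]
      · obtain ⟨c, h3, h4⟩ := (h1.2 hsm) m b hm
        rw [h4]
        have h5 : ∀ j, (ww q s w T ρ r ev (f j) ↔ c j = true) := by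
          intro j
          obtain ⟨τ, hτ, hτm⟩ := h3 j
          exact ww_of_br hr hτ (hτm.trans hmr)
        simp only [h5]
    · rw [ww_large hT hρr hr ev i k f hl]
      rw [errZ, Finset.sum_sub_distrib, sub_eq_zero] at herr
      rw [herr]

end insts

end Pool.Agent.L0h36.BG
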