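import Pool.Agent.L0h36.BG.Sound

set_option autoImplicit false
set_option linter.unusedSectionVars false

/-!
# Each line of a proof is true up to a negligible function
-/

namespace Pool.Agent.L0h36.BG

open Finset Pool.Agent.L0h36.BF

theorem ind_ne_zero {Y F : Type} [Zero F] [One F] (P : Y → Prop) {y : Y}
    (h : (ind P y : F) ≠ 0) : P y := by
  by_contra h'
  exact h (ind_neg P h')

section main

variable {F : Type} [Field F] {V : Type} [DecidableEq V] [Fintype V] {p q D t X : ℕ}
  {ρ : Finset (Finset V)} (s w : ℕ) (MD : Model F q (Finset.univ \ cov ρ) D)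
  (T : Fml p (Finset V) → DT V) {π : List (Fml p (Finset V))} [Fact p.Prime]

theorem dead_mem (hρ : PM q ρ) {χ : Fml p (Finset V)} (hdep : Dep q (T χ) ρ t)
    {r : Finset (Finset V)} (hρr : ρ ⊆ r) (hr : PM q r) (hdead : ∀ b, NoBr q (T χ) ρ r b)
    {k : ℕ} {h : MD.Y → F} (hh : h ∈ MD.A k) (hD : (r \ ρ).card + t + 1 + k ≤ D) :
    xr MD r * h ∈ MD.K := by
  refine refine_tree MD hρ (T χ) r t k h hρr (hdep.mono hr hρr) hh hD fun s b hs => ?_
  exfalso
  obtain ⟨m, hm, hsm⟩ := hs.restrict hr ρ hρr
  refine hdead b m hm ?_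
  rw [← hsm]
  exact hs.pm hr

theorem vl_eq {φ χ : Fml p (Finset V)} {m : Finset (Finset V)} {b : Bool} (hρ : PM q ρ)
    (hm : Br q (T χ) ρ m b) (y : MD.Y) (hmy : m ⊆ RR MD y)
    (h : Fml.sv s w (tv MD T y) φ = χ) :
    vl s w MD T y φ = b := by
  unfold vl
  rw [h]
  exact hm.val (RR_pm MD hρ y) hmy

open Classical in
/-- The difference between the value relative to `r` and the value at a point, for one tree. -/
noncomputable def dl (r : Finset (Finset V)) (χ : Fml p (Finset V)) : MD.Y → F :=
  if NoBr q (T χ) ρ r false then 1 - ind (fun y => tv MD T y χ = true)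
  else if NoBr q (T χ) ρ r true then 0 - ind (fun y => tv MD T y χ = true) else 0

theorem dl_A (hρ : PM q ρ) {χ : Fml p (Finset V)} (hdep : Dep q (T χ) ρ t)
    (r : Finset (Finset V)) : (dl MD T r χ : MD.Y → F) ∈ MD.A t := by
  unfold dl
  split_ifs
  · exact sub_mem_A MD (one_mem MD _) (tv_mem MD T hρ hdep)
  · exact sub_mem_A MD (Submodule.zero_mem _) (tv_mem MD T hρ hdep)
  · exact Submodule.zero_mem _

theorem dl_K (hρ : PM q ρ) {χ : Fml p (Finset V)} (hdep : Dep q (T χ) ρ t)
    {r : Finset (Finset V)} (hρr : ρ ⊆ r) (hr : PM q r)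
    (hD : (r \ ρ).card + t + 1 + t ≤ D) : xr MD r * (dl MD T r χ : MD.Y → F) ∈ MD.K := by
  refine refine_tree MD hρ (T χ) r t t _ hρr (hdep.mono hr hρr) (dl_A MD T hρ hdep r) hD
    fun s' b hs => ?_
  obtain ⟨m, hm, hsm⟩ := hs.restrict hr ρ hρr
  have hps := hs.pm hr
  have hnb : ¬ NoBr q (T χ) ρ r b := by
    intro h
    refine h m hm ?_
    rw [← hsm]
    exact hps
  have hms : m ⊆ s' := by
    rw [hsm]
    exact Finset.subset_union_right
  have hz : xr MD s' * (dl MD T r χ : MD.Y → F) = 0 := by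
    ext y
    rw [Pi.mul_apply, Pi.zero_apply]
    by_cases hy : s' ⊆ RR MD y
    · have hval : tv MD T y χ = b := hm.val (RR_pm MD hρ y) (hms.trans hy)
      have : (dl MD T r χ : MD.Y → F) y = 0 := by
        unfold dl
        cases b with
        | false =>
          rw [if_neg hnb]
          split_ifs
          · rw [Pi.sub_apply, ind_neg (fun y => tv MD T y χ = true) (by simp [hval])]
            simp
          · rfl
        | true =>
          split_ifs with h1
          · rw [Pi.sub_apply, ind_pos (fun y => tv MD T y χ = true) hval, Pi.one_apply,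
              sub_self]
          · rfl
      rw [this, mul_zero]
    · have h3 : (xr MD s' y : F) = 0 := ind_neg (fun y => s' ⊆ RR MD y) hy
      rw [h3, zero_mul]
  rw [hz]
  exact Submodule.zero_mem _

/-- The difference of the two counts, as a function on the model. -/
noncomputable def err [CharP F p] (r : Finset (Finset V)) (ψ : Fml p (Finset V)) : MD.Y → F :=
  fun y => ZMod.castHom (dvd_refl p) F (errZ q s w T ρ r (tv MD T y) ψ)

theorem err_eq [CharP F p] (r : Finset (Finset V)) (i : ZMod p) (k : ℕ)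
    (f : Fin k → Fml p (Finset V)) :
    (err s w MD T r (.mod i k f) : MD.Y → F) =
      ∑ j, ∑ χ ∈ instF s w (f j), dl MD T r χ *
        ind (fun y => Fml.sv s w (tv MD T y) (f j) = χ) := by
  classical
  ext y
  unfold err errZ
  rw [map_sum, Finset.sum_apply]
  refine Finset.sum_congr rfl fun j _ => ?_
  rw [Finset.sum_apply, Finset.sum_eq_single (Fml.sv s w (tv MD T y) (f j))]
  · rw [Pi.mul_apply,
      ind_pos (fun z => Fml.sv s w (tv MD T z) (f j) = Fml.sv s w (tv MD T y) (f j)) rfl,
      mul_one]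
    unfold dl ww
    set χ := Fml.sv s w (tv MD T y) (f j) with hχ
    by_cases h1 : NoBr q (T χ) ρ r false
    · rw [if_pos (Or.inl h1), if_pos h1, Pi.sub_apply, Pi.one_apply]
      unfold ind
      split_ifs <;> simp
    · by_cases h2 : NoBr q (T χ) ρ r true
      · rw [if_neg (by tauto), if_neg h1, if_pos h2, Pi.sub_apply, Pi.zero_apply]
        unfold ind
        split_ifs <;> simp
      · rw [if_neg h1, if_neg h2, Pi.zero_apply]
        by_cases h3 : tv MD T y χ = true
        · rw [if_pos (Or.inr ⟨h2, h3⟩), if_pos h3]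
          simp
        · rw [if_neg (by tauto), if_neg h3]
          simp
  · intro χ hχ hne
    rw [Pi.mul_apply, ind_neg (fun z => Fml.sv s w (tv MD T z) (f j) = χ) (fun h => hne h.symm),
      mul_zero]
  · intro h
    exact absurd ((mem_instF s w).2 (Fml.sv_mem s w _ _)) h

/-- The difference of the two counts is negligible and of low degree. -/
theorem err_mem [CharP F p] (hρ : PM q ρ) (hdep : ∀ ψ ∈ Occurring π, ∀ χ ∈ ψ.insts s w,
      Dep q (T χ) ρ t)
    (hX : ∀ ψ ∈ Occurring π, ∀ χ,
      (ind (fun y => Fml.sv s w (tv MD T y) ψ = χ) : MD.Y → F) ∈ MD.A X)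
    {r : Finset (Finset V)} (hρr : ρ ⊆ r) (hr : PM q r)
    (hD : (r \ ρ).card + 2 * t + X + 1 ≤ D) {ψ : Fml p (Finset V)} (hψ : ψ ∈ Occurring π) :
    (err s w MD T r ψ : MD.Y → F) ∈ MD.A (X + t) ∧
      xr MD r * (err s w MD T r ψ : MD.Y → F) ∈ MD.K := by
  have hzero : ∀ (f : MD.Y → F), f = 0 → f ∈ MD.A (X + t) ∧ xr MD r * f ∈ MD.K := by
    intro f hf
    rw [hf, mul_zero]
    exact ⟨Submodule.zero_mem _, Submodule.zero_mem _⟩
  cases ψ with
  | var x => exact hzero _ (by ext y; simp [err, errZ])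
  | neg φ => exact hzero _ (by ext y; simp [err, errZ])
  | and k f => exact hzero _ (by ext y; simp [err, errZ])
  | or k f => exact hzero _ (by ext y; simp [err, errZ])
  | mod i k f =>
    have hocc : ∀ j, f j ∈ Occurring π := fun j => occ_sub hψ (Fml.mod_mem_subs f j)
    rw [err_eq]
    constructor
    · refine Submodule.sum_mem _ fun j _ => Submodule.sum_mem _ fun χ hχ => ?_
      have h1 := dl_A MD T hρ (hdep _ (hocc j) χ ((mem_instF s w).1 hχ)) r
      have h2 := MD.mul h1 (hX _ (hocc j) χ)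
      rw [Nat.add_comm] at h2
      exact h2
    · rw [Finset.mul_sum]
      refine Submodule.sum_mem _ fun j _ => ?_
      rw [Finset.mul_sum]
      refine Submodule.sum_mem _ fun χ hχ => ?_
      have hd := hdep _ (hocc j) χ ((mem_instF s w).1 hχ)
      have h1 := dl_K MD T hρ hd hρr hr (by omega)
      have h2 := MD.mul (xr_mem MD r) (dl_A MD T hρ hd r)
      have h3 := MD.closed h1 h2 (hX _ (hocc j) χ) (by omega)
      rw [mul_comm, mul_assoc] at h3
      exact h3

/-- A function which vanishes where all the two counts are equal is negligible. -/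
theorem kill [CharP F p] {r : Finset (Finset V)} {c : ℕ} (S : List (Fml p (Finset V)))
    (hS : ∀ ψ ∈ S, (err s w MD T r ψ : MD.Y → F) ∈ MD.A c ∧
      xr MD r * (err s w MD T r ψ : MD.Y → F) ∈ MD.K) :
    ∀ (k : ℕ) (H : MD.Y → F), H ∈ MD.A k → (∀ y, H y ≠ 0 → r ⊆ RR MD y) →
      (∀ y, H y ≠ 0 → ∃ ψ ∈ S, (err s w MD T r ψ : MD.Y → F) y ≠ 0) →
      (r \ ρ).card + c + k + S.length * (p * c) ≤ D → H ∈ MD.K := by
  have hp : p.Prime := Fact.out
  induction S with
  | nil =>
    intro k H hH hr hex hD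
    have : H = 0 := by
      ext y
      by_contra h
      obtain ⟨ψ, hψ, -⟩ := hex y h
      simp at hψ
    rw [this]
    exact Submodule.zero_mem _
  | cons ψ S ih =>
    intro k H hH hr hex hD
    obtain ⟨h1, h2⟩ := hS ψ (by simp)
    set e : MD.Y → F := err s w MD T r ψ with he
    have hlen : (ψ :: S).length * (p * c) = S.length * (p * c) + p * c := by
      rw [List.length_cons, Nat.succ_mul]
    rw [hlen] at hD
    have hep : ∀ y, e y ≠ 0 → (e ^ (p - 1)) y = 1 := by
      intro y hy
      rw [Pi.pow_apply, he]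
      unfold err
      rw [← map_pow, ZMod.pow_card_sub_one_eq_one, map_one]
      intro h0
      apply hy
      rw [he]
      unfold err
      rw [h0, map_zero]
    have hez : ∀ y, e y = 0 → (e ^ (p - 1)) y = 0 := by
      intro y hy
      rw [Pi.pow_apply, hy, zero_pow]
      have := hp.two_le
      omega
    have hsplit : H = H * e ^ (p - 1) + H * (1 - e ^ (p - 1)) := by ring
    have hx : H = xr MD r * H := by
      ext y
      rw [Pi.mul_apply]
      by_cases hy : H y = 0
      · rw [hy, mul_zero]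
      · rw [show (xr MD r y : F) = 1 from ind_pos (fun y => r ⊆ RR MD y) (hr y hy), one_mul]
    have hpc : (p - 1) * c + c = p * c := by
      have := hp.one_le
      obtain ⟨p', hp'⟩ : ∃ p', p = p' + 1 := ⟨p - 1, by omega⟩
      rw [hp']
      simp only [Nat.add_sub_cancel]
      ring
    rw [hsplit]
    refine Submodule.add_mem _ ?_ ?_
    · have hpow : e ^ (p - 1) = e * e ^ (p - 2) := by
        rw [← pow_succ']
        congr 1
        have := hp.two_le
        omega
      have h3 : H * e ^ (p - 1) = (e ^ (p - 2) * H) * (xr MD r * e) := by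
        rw [hpow]
        nth_rewrite 1 [hx]
        ring
      rw [h3]
      have h4 : e ^ (p - 2) * H ∈ MD.A ((p - 2) * c + k) := MD.mul (pow_mem_A MD h1 _) hH
      refine MD.closed h2 (MD.mul (xr_mem MD r) h1) h4 ?_
      have : (p - 2) * c ≤ p * c := Nat.mul_le_mul_right _ (Nat.sub_le _ _)
      omega
    · have h5 : (1 : MD.Y → F) - e ^ (p - 1) ∈ MD.A ((p - 1) * c) :=
        sub_mem_A MD (one_mem MD _) (pow_mem_A MD h1 _)
      refine ih (fun ψ' hψ' => hS ψ' (by simp [hψ'])) (k + (p - 1) * c) _ (MD.mul hH h5) ?_ ?_ ?_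
      · intro y hy
        rw [Pi.mul_apply] at hy
        exact hr y (left_ne_zero_of_mul hy)
      · intro y hy
        rw [Pi.mul_apply] at hy
        obtain ⟨ψ', hψ', h6⟩ := hex y (left_ne_zero_of_mul hy)
        rcases List.mem_cons.1 hψ' with rfl | h7
        · exfalso
          apply right_ne_zero_of_mul hy
          rw [Pi.sub_apply, Pi.one_apply, hep y h6, sub_self]
        · exact ⟨ψ', h7, h6⟩
      · omega

theorem local_sound [CharP F p] (hρ : PM q ρ)
    (hT : ∀ ψ ∈ GG s w π, Dep q (T ψ) ρ t ∧ LC q s T ρ ψ)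
    (hX : ∀ ψ ∈ Occurring π, ∀ χ,
      (ind (fun y => Fml.sv s w (tv MD T y) ψ = χ) : MD.Y → F) ∈ MD.A X)
    {L : ℕ} (hD : (p + 6) * (L + 1) * (X + t) + 2 ≤ D) {P : List (Fml p (Finset V))}
    {B : Fml p (Finset V)} (hB : B ∈ Occurring π)
    (hP : ∀ A ∈ P, A ∈ Occurring π) (hLI : LocalInference L (Occurring π) P B)
    (hvl : ∀ ψ ∈ Occurring π,
      (ind (fun y => vl s w MD T y ψ = false) : MD.Y → F) ∈ MD.A (X + t))
    (hPK : ∀ A ∈ P, (ind (fun y => vl s w MD T y A = false) : MD.Y → F) ∈ MD.K) :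
    (ind (fun y => vl s w MD T y B = false) : MD.Y → F) ∈ MD.K := by
  classical
  obtain ⟨hPL, S, hSL, hS, hw⟩ := hLI
  have hdep : ∀ ψ ∈ Occurring π, ∀ χ ∈ ψ.insts s w, Dep q (T χ) ρ t := by
    rintro ψ hψ χ ⟨l, rfl⟩
    exact (hT _ (mem_GG.2 (Or.inl ⟨ψ, hψ, l, rfl⟩))).1
  have hLC : ∀ ψ ∈ GG s w π, LC q s T ρ ψ := fun ψ h => (hT ψ h).2
  set Z : Finset (Fml p (Finset V)) := (B :: (P ++ S)).toFinset with hZ
  have hZc : Z.card ≤ 2 * L + 1 := by
    refine (List.toFinset_card_le _).trans ?_
    simp only [List.length_cons, List.length_append]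
    omega
  have hBZ : B ∈ Z := by simp [hZ]
  have hPZ : ∀ A ∈ P, A ∈ Z := fun A hA => by simp [hZ, hA]
  have hSZ : ∀ A ∈ S, A ∈ Z := fun A hA => by simp [hZ, hA]
  have hZocc : ∀ φ ∈ Z, φ ∈ Occurring π := by
    intro φ hφ
    simp only [hZ, List.mem_toFinset, List.mem_cons, List.mem_append] at hφ
    rcases hφ with rfl | (h | h)
    · exact hB
    · exact hP φ h
    · exact hS φ h
  set a := (2 * L + 1) * X with ha
  set b' := (2 * L + 1) * t with hb'
  set c0 := (L + 1) * (p * (X + t)) with hc0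
  have hD' : c0 + 2 * a + 2 * b' + 4 * X + 4 * t + 2 ≤ D := by
    have h1 : (p + 6) * (L + 1) * (X + t) = c0 + 2 * a + 2 * b' + 4 * X + 4 * t +
        2 * L * (X + t) := by
      rw [ha, hb', hc0]
      ring
    omega
  have hc0L : L * (p * (X + t)) ≤ c0 := Nat.mul_le_mul_right _ (Nat.le_succ L)
  set hc : (Z → Fml p (Finset V)) → MD.Y → F :=
    fun c => ∏ φ : Z, ind (fun y => Fml.sv s w (tv MD T y) φ = c φ) with hhc
  have hcm : ∀ c, hc c ∈ MD.A a := by
    intro c
    have h1 := prod_mem MD (Finset.univ : Finset Z)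
      (fun φ => (ind (fun y => Fml.sv s w (tv MD T y) φ = c φ) : MD.Y → F)) (fun _ => X)
      (fun φ _ => hX φ (hZocc φ φ.2) (c φ))
    refine MD.mono ?_ h1
    rw [Finset.sum_const, smul_eq_mul, ha]
    refine Nat.mul_le_mul_right _ ?_
    rw [Finset.card_univ, Fintype.card_coe]
    exact hZc
  set g : MD.Y → F := ind (fun y => vl s w MD T y B = false) with hg
  have hgA : g ∈ MD.A (X + t) := hvl B hB
  have hsum : g = ∑ c ∈ Fintype.piFinset (fun φ : Z => instF s w (φ : Fml p (Finset V))),
      hc c * g := by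
    rw [← Finset.sum_mul]
    have h1 : ∑ c ∈ Fintype.piFinset (fun φ : Z => instF s w (φ : Fml p (Finset V))),
        hc c = 1 := by
      have h2 := Finset.prod_univ_sum
        (fun φ : Z => instF s w (φ : Fml p (Finset V)))
        (fun (φ : Z) (χ : Fml p (Finset V)) =>
          (ind (fun y => Fml.sv s w (tv MD T y) (φ : Fml p (Finset V)) = χ) : MD.Y → F))
      refine h2.symm.trans ?_
      apply Finset.prod_eq_one
      intro φ _
      ext y
      rw [Finset.sum_apply, Pi.one_apply,
        Finset.sum_eq_single (Fml.sv s w (tv MD T y) (φ : Fml p (Finset V)))]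
      · exact ind_pos (fun z => Fml.sv s w (tv MD T z) (φ : Fml p (Finset V)) =
          Fml.sv s w (tv MD T y) (φ : Fml p (Finset V))) rfl
      · intro χ _ hne
        exact ind_neg (fun z => Fml.sv s w (tv MD T z) (φ : Fml p (Finset V)) = χ)
          (fun h => hne h.symm)
      · intro h
        exact absurd ((mem_instF s w).2 (Fml.sv_mem s w _ _)) h
    rw [h1, one_mul]
  rw [hsum]
  refine Submodule.sum_mem _ fun c hcmem => ?_
  rw [Fintype.mem_piFinset] at hcmem
  have hk : hc c * g ∈ MD.A (a + (X + t)) := MD.mul (hcm c) hgA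
  have hxρ : xr MD ρ = (1 : MD.Y → F) := ind_true (fun y => rho_sub MD y)
  have h0 : xr MD ρ * (hc c * g) ∈ MD.K := by
    have hlen : (Z.attach.toList.map (fun φ => T (c φ))).length * t ≤ b' := by
      rw [List.length_map, Finset.length_toList, Finset.card_attach, hb']
      exact Nat.mul_le_mul_right _ hZc
    refine refine_list MD hρ t (Z.attach.toList.map (fun φ => T (c φ))) ρ (a + (X + t)) _
      (Finset.Subset.refl _) hρ ?_ hk ?_ ?_
    · intro T' hT'
      rw [List.mem_map] at hT'
      obtain ⟨φ, -, rfl⟩ := hT'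
      exact hdep φ (hZocc φ φ.2) _ ((mem_instF s w).1 (hcmem φ))
    · rw [Finset.sdiff_self, Finset.card_empty]
      omega
    · intro r hρr hr hcard hbr
      rw [Finset.sdiff_self, Finset.card_empty] at hcard
      have hrc : (r \ ρ).card ≤ b' := by omega
      by_cases hz : ∀ y, (xr MD r * (hc c * g)) y = 0
      · have : xr MD r * (hc c * g) = 0 := funext hz
        rw [this]
        exact Submodule.zero_mem _
      push Not at hz
      obtain ⟨y0, hy0⟩ := hz
      have key : ∀ y, (xr MD r * (hc c * g)) y ≠ 0 → r ⊆ RR MD y ∧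
          (∀ φ : Z, Fml.sv s w (tv MD T y) φ = c φ) ∧ vl s w MD T y B = false := by
        intro y hy
        rw [Pi.mul_apply, Pi.mul_apply] at hy
        have h1 := left_ne_zero_of_mul hy
        have h2 := right_ne_zero_of_mul hy
        have h3 := left_ne_zero_of_mul h2
        have h4 := right_ne_zero_of_mul h2
        refine ⟨ind_ne_zero (fun y => r ⊆ RR MD y) h1, fun φ => ?_,
          ind_ne_zero (fun y => vl s w MD T y B = false) h4⟩
        have h3' : (∏ φ : Z, (ind (fun y => Fml.sv s w (tv MD T y) (φ : Fml p (Finset V)) = c φ) :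
            MD.Y → F)) y ≠ 0 := h3
        rw [Finset.prod_apply] at h3'
        have h5 := Finset.prod_ne_zero_iff.1 h3' φ (Finset.mem_univ _)
        exact ind_ne_zero (fun y => Fml.sv s w (tv MD T y) φ = c φ) h5
      -- a dead tree
      by_cases hlive : ∀ χ ∈ GG s w π, ∃ b, ¬ NoBr q (T χ) ρ r b
      swap
      · push Not at hlive
        obtain ⟨χ, hχ, hdead⟩ := hlive
        exact dead_mem MD T hρ (hT χ hχ).1 hρr hr hdead hk (by omega)
      -- the values of the formulas of the profile
      have hbr' : ∀ y, (xr MD r * (hc c * g)) y ≠ 0 → ∀ φ ∈ Z, ∃ m,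
          Br q (T (Fml.sv s w (tv MD T y) φ)) ρ m (vl s w MD T y0 φ) ∧ m ⊆ r ∧
          vl s w MD T y φ = vl s w MD T y0 φ := by
        intro y hy φ hφ
        obtain ⟨m, b, hm, hmr⟩ := hbr (T (c ⟨φ, hφ⟩)) (by
          rw [List.mem_map]
          exact ⟨⟨φ, hφ⟩, by simp, rfl⟩)
        have h0 := vl_eq s w MD T hρ hm y0 (hmr.trans (key y0 hy0).1)
          ((key y0 hy0).2.1 ⟨φ, hφ⟩)
        have h1 := vl_eq s w MD T hρ hm y (hmr.trans (key y hy).1) ((key y hy).2.1 ⟨φ, hφ⟩)
        rw [h0, h1]
        refine ⟨m, ?_, hmr, rfl⟩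
        rw [(key y hy).2.1 ⟨φ, hφ⟩]
        exact hm
      by_cases hexA : ∃ A ∈ P, vl s w MD T y0 A = false
      · obtain ⟨A, hA, hAf⟩ := hexA
        have heq : xr MD r * (hc c * g) = (xr MD r * (hc c * g)) *
            ind (fun y => vl s w MD T y A = false) := by
          ext y
          by_cases h : (xr MD r * (hc c * g)) y = 0
          · rw [Pi.mul_apply (xr MD r * (hc c * g)), h, zero_mul]
          · obtain ⟨m, -, -, h3⟩ := hbr' y h A (hPZ A hA)
            rw [Pi.mul_apply (xr MD r * (hc c * g)),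
              ind_pos (fun y => vl s w MD T y A = false) (h3.trans hAf), mul_one]
        rw [heq]
        exact MD.closed (hPK A hA) (hvl A (hP A hA)) (MD.mul (xr_mem MD r) hk) (by omega)
      push Not at hexA
      have hkill := kill s w MD T (r := r) (c := X + t) S (fun ψ hψ =>
        err_mem s w MD T hρ hdep hX hρr hr (by omega) (hS ψ hψ))
        ((r \ ρ).card + (a + (X + t))) (xr MD r * (hc c * g)) (MD.mul (xr_mem MD r) hk)
        (fun y hy => (key y hy).1)
      refine hkill ?_ ?_
      · intro y hy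
        by_contra hcon
        push Not at hcon
        have hcor : ∀ ψ ∈ S, Fml.CorrectAt (ww q s w T ρ r (tv MD T y)) ψ := by
          intro ψ hψ
          obtain ⟨m, hm, hmr, -⟩ := hbr' y hy ψ (hSZ ψ hψ)
          refine correct_or hLC hρr hr (tv MD T y) hlive (hS ψ hψ) hm hmr ?_
          have h1 := hcon ψ hψ
          unfold err at h1
          exact (map_eq_zero_iff _ (ZMod.castHom_injective F)).1 h1
        have hPt : ∀ A ∈ P, ww q s w T ρ r (tv MD T y) A := by
          intro A hA
          obtain ⟨m, hm, hmr, -⟩ := hbr' y hy A (hPZ A hA)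
          rw [ww_of_br hr hm hmr]
          have := hexA A hA
          simpa using this
        have hBt := hw _ hcor hPt
        obtain ⟨m, hm, hmr, h3⟩ := hbr' y hy B hBZ
        rw [ww_of_br hr hm hmr, ← h3, (key y hy).2.2] at hBt
        exact Bool.false_ne_true hBt
      · have h1 : S.length * (p * (X + t)) ≤ L * (p * (X + t)) := Nat.mul_le_mul_right _ hSL
        omega
  rwa [hxρ, one_mul] at h0

/-- Each line is true up to a negligible function. -/
theorem all_lines [CharP F p] (hρ : PM q ρ)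
    (hT : ∀ ψ ∈ GG s w π, Dep q (T ψ) ρ t ∧ LC q s T ρ ψ)
    (hX : ∀ ψ ∈ Occurring π, ∀ χ,
      (ind (fun y => Fml.sv s w (tv MD T y) ψ = χ) : MD.Y → F) ∈ MD.A X)
    (hvl : ∀ ψ ∈ Occurring π,
      (ind (fun y => vl s w MD T y ψ = false) : MD.Y → F) ∈ MD.A (X + t))
    {L : ℕ} (hD : (p + 6) * (L + 1) * (X + t) + 2 ≤ D) (hL : IsProof L π) :
    ∀ A ∈ π, (ind (fun y => vl s w MD T y A = false) : MD.Y → F) ∈ MD.K := by
  have hocc : ∀ A ∈ π, A ∈ Occurring π := fun A hA => ⟨A, hA, Fml.self_mem_subs A⟩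
  have key : ∀ l r : List (Fml p (Finset V)), π = l ++ r →
      ∀ A ∈ l, (ind (fun y => vl s w MD T y A = false) : MD.Y → F) ∈ MD.K := by
    intro l
    induction l using List.reverseRecOn with
    | nil => intro r _ A hA; simp at hA
    | append_singleton l A' ih =>
      intro r hr A hA
      have hr' : π = l ++ A' :: r := by rw [hr]; simp
      have ih' := ih (A' :: r) hr'
      rw [List.mem_append, List.mem_singleton] at hA
      rcases hA with hA | rfl
      · exact ih' A hA
      · obtain ⟨P, hP, hLI⟩ := hL A l r hr'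
        refine local_sound s w MD T hρ hT hX hD (hocc A (by rw [hr']; simp)) ?_ hLI hvl ?_
        · intro B hB
          refine hocc B ?_
          rw [hr']
          exact List.mem_append_left _ (hP B hB)
        · intro B hB
          exact ih' B (hP B hB)
  exact key π [] (by simp)

end main

end Pool.Agent.L0h36.BG
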