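import Pool.Agent.L0h36.BF.Canon
import Pool.Agent.L0h36.BG.Defs

set_option autoImplicit false
set_option linter.unusedSectionVars false

/-!
# Evaluation of formulas without large MOD gates by shallow trees: local correctness
-/

namespace Pool.Agent.L0h36.BG

open Finset Pool.Agent.L0h36.BF

variable {V : Type} [DecidableEq V] {p : ℕ}

namespace Fml

variable {α : Type}

theorem vars_finite (φ : Fml p α) : φ.vars.Finite := by
  induction φ with
  | var x => exact Set.finite_singleton x
  | neg φ ih => exact ih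
  | and k f ih => exact Set.finite_iUnion ih
  | or k f ih => exact Set.finite_iUnion ih
  | mod i k f ih => exact Set.finite_iUnion ih

theorem Small.of_subset {s : ℕ} {φ ψ : Fml p α} (h : Small s φ) (hv : ψ.vars ⊆ φ.vars) :
    Small s ψ :=
  (Set.ncard_le_ncard hv φ.vars_finite).trans h

theorem vars_and (k : ℕ) (f : Fin k → Fml p α) (j : Fin k) : (f j).vars ⊆ (and k f).vars :=
  Set.subset_iUnion (fun j => (f j).vars) j

theorem vars_or (k : ℕ) (f : Fin k → Fml p α) (j : Fin k) : (f j).vars ⊆ (or k f).vars :=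
  Set.subset_iUnion (fun j => (f j).vars) j

theorem vars_mod (i : ZMod p) (k : ℕ) (f : Fin k → Fml p α) (j : Fin k) :
    (f j).vars ⊆ (mod i k f).vars :=
  Set.subset_iUnion (fun j => (f j).vars) j

theorem small_var {s : ℕ} (hs : 1 ≤ s) (x : α) : Small s (var x : Fml p α) := by
  unfold Small
  rw [vars, Set.ncard_singleton]
  exact hs

theorem small_neg {s : ℕ} {φ : Fml p α} : Small s (neg φ) ↔ Small s φ := Iff.rfl

/-- The truth value depends only on the values of the variables of the formula. -/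
theorem holds_congr {v v' : α → Prop} {φ : Fml p α} (h : ∀ x ∈ φ.vars, v x ↔ v' x) :
    φ.Holds v ↔ φ.Holds v' := by
  induction φ with
  | var x => exact h x rfl
  | neg φ ih => exact not_congr (ih h)
  | and k f ih => exact forall_congr' fun j => ih j fun x hx => h x (vars_and k f j hx)
  | or k f ih => exact exists_congr fun j => ih j fun x hx => h x (vars_or k f j hx)
  | mod i k f ih =>
    have h1 : {j | Holds v (f j)} = {j | Holds v' (f j)} := by
      ext j
      exact ih j fun x hx => h x (vars_mod i k f j hx)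
    rw [Holds, Holds, h1]

theorem depth_small {s : ℕ} {φ : Fml p α} (h : Small s φ) : φ.depth s = 0 := by
  cases φ with
  | var x => rfl
  | neg φ => rw [depth, if_pos (small_neg.1 h)]
  | and k f => rw [depth, if_pos h]
  | or k f => rw [depth, if_pos h]
  | mod i k f => rw [depth, if_pos h]

open Classical in
theorem depth_pos {s : ℕ} (hs : 1 ≤ s) {φ : Fml p α} (h : ¬ Small s φ) : 1 ≤ φ.depth s := by
  induction φ with
  | var x => exact absurd (small_var hs x) h
  | neg φ ih =>
    rw [depth, if_neg (fun h' => h (small_neg.2 h'))]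
    have := ih (fun h' => h (small_neg.2 h'))
    split_ifs <;> omega
  | and k f ih =>
    rw [depth, if_neg h]
    rcases Nat.eq_zero_or_pos k with rfl | hk
    · exfalso
      apply h
      unfold Small
      rw [vars, Set.iUnion_of_empty, Set.ncard_empty]
      omega
    · refine le_trans ?_ (Finset.le_sup (f := fun j =>
        if (f j).isAnd ∧ ¬ Small s (f j) then depth s (f j) else depth s (f j) + 1)
        (Finset.mem_univ ⟨0, hk⟩))
      split_ifs with h1
      · exact ih _ h1.2
      · omega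
  | or k f ih =>
    rw [depth, if_neg h]
    rcases Nat.eq_zero_or_pos k with rfl | hk
    · exfalso
      apply h
      unfold Small
      rw [vars, Set.iUnion_of_empty, Set.ncard_empty]
      omega
    · refine le_trans ?_ (Finset.le_sup (f := fun j =>
        if (f j).isOr ∧ ¬ Small s (f j) then depth s (f j) else depth s (f j) + 1)
        (Finset.mem_univ ⟨0, hk⟩))
      split_ifs with h1
      · exact ih _ h1.2
      · omega
  | mod i k f ih =>
    rw [depth, if_neg h]
    omega

theorem depth_le_neg (s : ℕ) (φ : Fml p α) : φ.depth s ≤ (neg φ).depth s := by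
  rw [depth]
  split_ifs with h1 h2
  · rw [depth_small h1]
  · exact le_refl _
  · omega

open Classical in
theorem depth_le_and (s : ℕ) {k : ℕ} (f : Fin k → Fml p α) (j : Fin k) :
    (f j).depth s ≤ (and k f).depth s := by
  rw [depth]
  split_ifs with h1
  · rw [depth_small (h1.of_subset (vars_and k f j))]
  · refine le_trans ?_ (Finset.le_sup (f := fun j =>
      if (f j).isAnd ∧ ¬ Small s (f j) then depth s (f j) else depth s (f j) + 1)
      (Finset.mem_univ j))
    split_ifs <;> omega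

open Classical in
theorem depth_le_or (s : ℕ) {k : ℕ} (f : Fin k → Fml p α) (j : Fin k) :
    (f j).depth s ≤ (or k f).depth s := by
  rw [depth]
  split_ifs with h1
  · rw [depth_small (h1.of_subset (vars_or k f j))]
  · refine le_trans ?_ (Finset.le_sup (f := fun j =>
      if (f j).isOr ∧ ¬ Small s (f j) then depth s (f j) else depth s (f j) + 1)
      (Finset.mem_univ j))
    split_ifs <;> omega

theorem depth_lt_mod (s : ℕ) {i : ZMod p} {k : ℕ} (f : Fin k → Fml p α) (j : Fin k)
    (h : ¬ Small s (mod i k f)) : (f j).depth s + 1 ≤ (mod i k f).depth s := by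
  rw [depth, if_neg h]
  exact Nat.add_le_add_right (Finset.le_sup (f := fun j => depth s (f j)) (Finset.mem_univ j)) 1

theorem depth_le_mod (s : ℕ) {i : ZMod p} {k : ℕ} (f : Fin k → Fml p α) (j : Fin k) :
    (f j).depth s ≤ (mod i k f).depth s := by
  by_cases h : Small s (mod i k f)
  · rw [depth_small (h.of_subset (vars_mod i k f j))]
    omega
  · have := depth_lt_mod s f j h
    omega

open Classical in
/-- The maximal subformulas which are not large disjunctions reached through large disjunctions. -/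
noncomputable def orLeaves (s : ℕ) : Fml p α → Set (Fml p α)
  | or k f => if Small s (or k f) then {or k f} else ⋃ j, orLeaves s (f j)
  | var x => {var x}
  | neg φ => {neg φ}
  | and k f => {and k f}
  | mod i k f => {mod i k f}

open Classical in
noncomputable def andLeaves (s : ℕ) : Fml p α → Set (Fml p α)
  | and k f => if Small s (and k f) then {and k f} else ⋃ j, andLeaves s (f j)
  | var x => {var x}
  | neg φ => {neg φ}
  | or k f => {or k f}
  | mod i k f => {mod i k f}

theorem orLeaves_self {s : ℕ} {φ : Fml p α} (h : φ.isOr = false ∨ Small s φ) :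
    φ.orLeaves s = {φ} := by
  cases φ with
  | or k f =>
    rcases h with h | h
    · simp [isOr] at h
    · rw [orLeaves, if_pos h]
  | var x => rfl
  | neg φ => rfl
  | and k f => rfl
  | mod i k f => rfl

theorem andLeaves_self {s : ℕ} {φ : Fml p α} (h : φ.isAnd = false ∨ Small s φ) :
    φ.andLeaves s = {φ} := by
  cases φ with
  | and k f =>
    rcases h with h | h
    · simp [isAnd] at h
    · rw [andLeaves, if_pos h]
  | var x => rfl
  | neg φ => rfl
  | or k f => rfl
  | mod i k f => rfl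

theorem orLeaves_or {s k : ℕ} {f : Fin k → Fml p α} (h : ¬ Small s (or k f)) :
    (or k f).orLeaves s = ⋃ j, (f j).orLeaves s := by
  rw [orLeaves, if_neg h]

theorem andLeaves_and {s k : ℕ} {f : Fin k → Fml p α} (h : ¬ Small s (and k f)) :
    (and k f).andLeaves s = ⋃ j, (f j).andLeaves s := by
  rw [andLeaves, if_neg h]

open Classical in
theorem depth_orLeaves {s : ℕ} {φ ξ : Fml p α} (h : ξ ∈ φ.orLeaves s) :
    ((φ.isOr = true ∧ ¬ Small s φ) → ξ.depth s + 1 ≤ φ.depth s) ∧
      (¬ (φ.isOr = true ∧ ¬ Small s φ) → ξ = φ) := by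
  induction φ with
  | var x => simp_all [orLeaves, isOr]
  | neg φ ih => simp_all [orLeaves, isOr]
  | and k f ih => simp_all [orLeaves, isOr]
  | mod i k f ih => simp_all [orLeaves, isOr]
  | or k f ih =>
    by_cases hs : Small s (or k f)
    · rw [orLeaves_self (Or.inr hs), Set.mem_singleton_iff] at h
      exact ⟨fun h' => absurd hs h'.2, fun _ => h⟩
    rw [orLeaves_or hs, Set.mem_iUnion] at h
    obtain ⟨j, hj⟩ := h
    obtain ⟨h2, h3⟩ := ih j hj
    refine ⟨fun _ => ?_, fun h' => absurd ⟨rfl, hs⟩ h'⟩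
    have h4 : (if (f j).isOr ∧ ¬ Small s (f j) then (f j).depth s else (f j).depth s + 1) ≤
        (or k f).depth s := by
      rw [depth, if_neg hs]
      exact Finset.le_sup (f := fun j =>
        if (f j).isOr ∧ ¬ Small s (f j) then depth s (f j) else depth s (f j) + 1)
        (Finset.mem_univ j)
    by_cases hor : (f j).isOr = true ∧ ¬ Small s (f j)
    · rw [if_pos hor] at h4
      exact (h2 hor).trans h4
    · rw [if_neg hor] at h4
      rw [h3 hor]
      exact h4

open Classical in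
theorem depth_andLeaves {s : ℕ} {φ ξ : Fml p α} (h : ξ ∈ φ.andLeaves s) :
    ((φ.isAnd = true ∧ ¬ Small s φ) → ξ.depth s + 1 ≤ φ.depth s) ∧
      (¬ (φ.isAnd = true ∧ ¬ Small s φ) → ξ = φ) := by
  induction φ with
  | var x => simp_all [andLeaves, isAnd]
  | neg φ ih => simp_all [andLeaves, isAnd]
  | or k f ih => simp_all [andLeaves, isAnd]
  | mod i k f ih => simp_all [andLeaves, isAnd]
  | and k f ih =>
    by_cases hs : Small s (and k f)
    · rw [andLeaves_self (Or.inr hs), Set.mem_singleton_iff] at h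
      exact ⟨fun h' => absurd hs h'.2, fun _ => h⟩
    rw [andLeaves_and hs, Set.mem_iUnion] at h
    obtain ⟨j, hj⟩ := h
    obtain ⟨h2, h3⟩ := ih j hj
    refine ⟨fun _ => ?_, fun h' => absurd ⟨rfl, hs⟩ h'⟩
    have h4 : (if (f j).isAnd ∧ ¬ Small s (f j) then (f j).depth s else (f j).depth s + 1) ≤
        (and k f).depth s := by
      rw [depth, if_neg hs]
      exact Finset.le_sup (f := fun j =>
        if (f j).isAnd ∧ ¬ Small s (f j) then depth s (f j) else depth s (f j) + 1)
        (Finset.mem_univ j)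
    by_cases hor : (f j).isAnd = true ∧ ¬ Small s (f j)
    · rw [if_pos hor] at h4
      exact (h2 hor).trans h4
    · rw [if_neg hor] at h4
      rw [h3 hor]
      exact h4

/-- A set of formulas closed under immediate subformulas. -/
def Closed (Γ : Set (Fml p α)) : Prop :=
  (∀ φ, neg φ ∈ Γ → φ ∈ Γ) ∧ (∀ k f, and k f ∈ Γ → ∀ j, f j ∈ Γ) ∧
  (∀ k f, or k f ∈ Γ → ∀ j, f j ∈ Γ) ∧ (∀ i k f, mod i k f ∈ Γ → ∀ j, f j ∈ Γ)

theorem Closed.orLeaves {s : ℕ} {Γ : Set (Fml p α)} (h : Closed Γ) {φ ξ : Fml p α} (hφ : φ ∈ Γ)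
    (hξ : ξ ∈ φ.orLeaves s) : ξ ∈ Γ := by
  induction φ with
  | var x => rw [Fml.orLeaves, Set.mem_singleton_iff] at hξ; exact hξ ▸ hφ
  | neg φ ih => rw [Fml.orLeaves, Set.mem_singleton_iff] at hξ; exact hξ ▸ hφ
  | and k f ih => rw [Fml.orLeaves, Set.mem_singleton_iff] at hξ; exact hξ ▸ hφ
  | mod i k f ih => rw [Fml.orLeaves, Set.mem_singleton_iff] at hξ; exact hξ ▸ hφ
  | or k f ih =>
    by_cases hs : Small s (or k f)
    · rw [orLeaves_self (Or.inr hs), Set.mem_singleton_iff] at hξ
      exact hξ ▸ hφ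
    rw [orLeaves_or hs, Set.mem_iUnion] at hξ
    obtain ⟨j, hj⟩ := hξ
    exact ih j (h.2.2.1 k f hφ j) hj

theorem Closed.andLeaves {s : ℕ} {Γ : Set (Fml p α)} (h : Closed Γ) {φ ξ : Fml p α}
    (hφ : φ ∈ Γ) (hξ : ξ ∈ φ.andLeaves s) : ξ ∈ Γ := by
  induction φ with
  | var x => rw [Fml.andLeaves, Set.mem_singleton_iff] at hξ; exact hξ ▸ hφ
  | neg φ ih => rw [Fml.andLeaves, Set.mem_singleton_iff] at hξ; exact hξ ▸ hφ
  | or k f ih => rw [Fml.andLeaves, Set.mem_singleton_iff] at hξ; exact hξ ▸ hφ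
  | mod i k f ih => rw [Fml.andLeaves, Set.mem_singleton_iff] at hξ; exact hξ ▸ hφ
  | and k f ih =>
    by_cases hs : Small s (and k f)
    · rw [andLeaves_self (Or.inr hs), Set.mem_singleton_iff] at hξ
      exact hξ ▸ hφ
    rw [andLeaves_and hs, Set.mem_iUnion] at hξ
    obtain ⟨j, hj⟩ := hξ
    exact ih j (h.2.1 k f hφ j) hj

end Fml

/-- A branch over a smaller system which is compatible with a larger system is a branch over the
larger system. -/
theorem _root_.Pool.Agent.L0h36.BF.Br.extendTo {q : ℕ} {T : DT V} {m r : Finset (Finset V)} {b : Bool} (h : Br q T m r b)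
    (s : Finset (Finset V)) (hms : m ⊆ s) (hs : PM q (s ∪ r)) : Br q T s (s ∪ r) b := by
  induction h generalizing s with
  | leaf b m =>
    rw [Finset.union_eq_left.2 hms]
    exact Br.leaf _ _
  | covered v c m r b e he hv h ih =>
    exact Br.covered v c s _ b e (hms he) hv (ih s hms hs)
  | query v c m r b e hv' hv hpm h ih =>
    have her : e ∈ r := h.subset (Finset.mem_insert_self _ _)
    by_cases hvs : v ∈ cov s
    · obtain ⟨f, hf, hvf⟩ := mem_cov.1 hvs
      have : e = f := hs.eq_of_mem (Finset.mem_union_right _ her) (Finset.mem_union_left _ hf)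
        hv hvf
      subst this
      exact Br.covered v c s _ b e hf hv (ih s (Finset.insert_subset hf hms) hs)
    · have h1 : insert e s ∪ r = s ∪ r := by
        rw [Finset.insert_union, Finset.insert_eq_of_mem (Finset.mem_union_right _ her)]
      have h2 := ih (insert e s) (Finset.insert_subset_insert _ hms) (by rw [h1]; exact hs)
      rw [h1] at h2
      refine Br.query v c s _ b e hvs hv (hs.mono ?_) h2
      exact Finset.insert_subset (Finset.mem_union_right _ her) Finset.subset_union_left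

/-- The system `m` decides all variables of the formula. -/
def Dec (q : ℕ) (φ : Fml p (Finset V)) (m : Finset (Finset V)) : Prop :=
  ∀ e ∈ φ.vars, e ∈ m ∨ ¬ PM q (insert e m)

theorem Dec.mono {q : ℕ} {φ : Fml p (Finset V)} {m m' : Finset (Finset V)} (h : Dec q φ m)
    (hm : m ⊆ m') : Dec q φ m' := by
  intro e he
  rcases h e he with h1 | h1
  · exact Or.inl (hm h1)
  · exact Or.inr fun h2 => h1 (h2.mono (Finset.insert_subset_insert _ hm))

theorem Dec.of_vars {q : ℕ} {φ ψ : Fml p (Finset V)} {m : Finset (Finset V)} (h : Dec q φ m)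
    (hv : ψ.vars ⊆ φ.vars) : Dec q ψ m := fun e he => h e (hv he)

theorem Dec.holds {q : ℕ} {φ : Fml p (Finset V)} {m m' : Finset (Finset V)} (h : Dec q φ m)
    (hm : m ⊆ m') (hm' : PM q m') : φ.Holds (fun e => e ∈ m) ↔ φ.Holds (fun e => e ∈ m') := by
  refine Fml.holds_congr fun e he => ⟨fun h1 => hm h1, fun h1 => ?_⟩
  rcases h e he with h2 | h2
  · exact h2
  · exact absurd (hm'.mono (Finset.insert_subset h1 hm)) h2

/-- The tree is correct for a formula with few variables. -/
def LCs (q : ℕ) (T : DT V) (ρ : Finset (Finset V)) (φ : Fml p (Finset V)) : Prop :=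
  (∀ m b, Br q T ρ m b → Dec q φ m ∧ (b = true ↔ φ.Holds (fun e => e ∈ m))) ∧
    (φ.vars = ∅ → ∃ b, T = .leaf b)

/-- The trees `T` are locally correct at the large formula, over the system `ρ`. -/
def LCc (q s : ℕ) (T : Fml p (Finset V) → DT V) (ρ : Finset (Finset V)) :
    Fml p (Finset V) → Prop
  | .var _ => True
  | .neg φ => T (.neg φ) = (T φ).flip
  | .and k f => (∀ r, Br q (T (.and k f)) ρ r false →
        ∃ ξ ∈ (Fml.and k f).andLeaves s, ∃ τ, Br q (T ξ) ρ τ false ∧ τ ⊆ r) ∧
      (∀ r, Br q (T (.and k f)) ρ r true →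
        ∀ ξ ∈ (Fml.and k f).andLeaves s, ∀ τ, Br q (T ξ) ρ τ false → ¬ PM q (r ∪ τ))
  | .or k f => (∀ r, Br q (T (.or k f)) ρ r true →
        ∃ ξ ∈ (Fml.or k f).orLeaves s, ∃ τ, Br q (T ξ) ρ τ true ∧ τ ⊆ r) ∧
      (∀ r, Br q (T (.or k f)) ρ r false →
        ∀ ξ ∈ (Fml.or k f).orLeaves s, ∀ τ, Br q (T ξ) ρ τ true → ¬ PM q (r ∪ τ))
  | .mod i k f => ∀ r b, Br q (T (.mod i k f)) ρ r b → ∃ c : Fin k → Bool,
        (∀ j, ∃ τ, Br q (T (f j)) ρ τ (c j) ∧ τ ⊆ r) ∧
        (b = true ↔ (∑ j, (if c j = true then (1 : ZMod p) else 0)) = i)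

/-- The trees `T` are locally correct at the formula, over the system `ρ`. -/
def LC (q s : ℕ) (T : Fml p (Finset V) → DT V) (ρ : Finset (Finset V))
    (ψ : Fml p (Finset V)) : Prop :=
  (Fml.Small s ψ → LCs q (T ψ) ρ ψ) ∧ (¬ Fml.Small s ψ → LCc q s T ρ ψ)

theorem LCs.mono {q : ℕ} {T : DT V} {ρ ρ' : Finset (Finset V)}
    {ψ : Fml p (Finset V)} (h : LCs q T ρ ψ) (hρ : ρ ⊆ ρ') (hpm : PM q ρ') : LCs q T ρ' ψ := by
  refine ⟨fun m b hm => ?_, h.2⟩
  have hmp := hm.pm hpm
  obtain ⟨m', h1, h2⟩ := hm.restrict hpm ρ hρ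
  obtain ⟨h3, h4⟩ := h.1 m' b h1
  have hsub : m' ⊆ m := by
    rw [h2]
    exact Finset.subset_union_right
  exact ⟨h3.mono hsub, h4.trans (h3.holds hsub hmp)⟩

theorem LCc.mono {q s : ℕ} {T : Fml p (Finset V) → DT V} {ρ ρ' : Finset (Finset V)}
    {ψ : Fml p (Finset V)} (h : LCc q s T ρ ψ) (hρ : ρ ⊆ ρ') (hpm : PM q ρ') :
    LCc q s T ρ' ψ := by
  cases ψ with
  | var e => trivial
  | neg φ => exact h
  | and k f =>
    refine ⟨fun r hs => ?_, fun r hs ξ hξ τ hτ hp => ?_⟩
    · have hsp := hs.pm hpm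
      obtain ⟨s', h1, h2⟩ := hs.restrict hpm ρ hρ
      obtain ⟨ξ, hξ, τ, hτ, hτs⟩ := h.1 s' h1
      have hsub : ρ' ∪ τ ⊆ r := by
        rw [h2]
        exact Finset.union_subset_union_right hτs
      exact ⟨ξ, hξ, ρ' ∪ τ, hτ.extendTo ρ' hρ (hsp.mono hsub), hsub⟩
    · obtain ⟨s', h1, h2⟩ := hs.restrict hpm ρ hρ
      obtain ⟨τ', h3, h4⟩ := hτ.restrict hpm ρ hρ
      refine h.2 s' h1 ξ hξ τ' h3 (hp.mono ?_)
      rw [h2, h4]
      intro x hx
      simp only [Finset.mem_union] at hx ⊢
      tauto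
  | or k f =>
    refine ⟨fun r hs => ?_, fun r hs ξ hξ τ hτ hp => ?_⟩
    · have hsp := hs.pm hpm
      obtain ⟨s', h1, h2⟩ := hs.restrict hpm ρ hρ
      obtain ⟨ξ, hξ, τ, hτ, hτs⟩ := h.1 s' h1
      have hsub : ρ' ∪ τ ⊆ r := by
        rw [h2]
        exact Finset.union_subset_union_right hτs
      exact ⟨ξ, hξ, ρ' ∪ τ, hτ.extendTo ρ' hρ (hsp.mono hsub), hsub⟩
    · obtain ⟨s', h1, h2⟩ := hs.restrict hpm ρ hρ
      obtain ⟨τ', h3, h4⟩ := hτ.restrict hpm ρ hρ
      refine h.2 s' h1 ξ hξ τ' h3 (hp.mono ?_)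
      rw [h2, h4]
      intro x hx
      simp only [Finset.mem_union] at hx ⊢
      tauto
  | mod i k f =>
    intro r b hr
    have hsp := hr.pm hpm
    obtain ⟨s', h1, h2⟩ := hr.restrict hpm ρ hρ
    obtain ⟨c, hc, hb⟩ := h s' b h1
    refine ⟨c, fun j => ?_, hb⟩
    obtain ⟨τ, hτ, hτs⟩ := hc j
    have hsub : ρ' ∪ τ ⊆ r := by
      rw [h2]
      exact Finset.union_subset_union_right hτs
    exact ⟨ρ' ∪ τ, hτ.extendTo ρ' hρ (hsp.mono hsub), hsub⟩

theorem LC.mono {q s : ℕ} {T : Fml p (Finset V) → DT V} {ρ ρ' : Finset (Finset V)}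
    {ψ : Fml p (Finset V)} (h : LC q s T ρ ψ) (hρ : ρ ⊆ ρ') (hpm : PM q ρ') : LC q s T ρ' ψ :=
  ⟨fun h' => (h.1 h').mono hρ hpm, fun h' => (h.2 h').mono hρ hpm⟩

/-! ### Composition of trees -/

/-- Continue at the leaves. -/
def bind : DT V → (Bool → DT V) → DT V
  | .leaf b, K => K b
  | .node v c, K => .node v (fun e => bind (c e) K)

theorem bind_br {q : ℕ} (T : DT V) (K : Bool → DT V) :
    ∀ (m r : Finset (Finset V)) (b : Bool), Br q (bind T K) m r b →
      ∃ m₁ b₁, Br q T m m₁ b₁ ∧ Br q (K b₁) m₁ r b := by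
  induction T with
  | leaf b' =>
    intro m r b h
    exact ⟨m, b', Br.leaf _ _, h⟩
  | node v c ih =>
    intro m r b h
    rw [bind] at h
    cases h with
    | covered _ _ _ _ _ e he hv h =>
      obtain ⟨m₁, b₁, h1, h2⟩ := ih e m r b h
      exact ⟨m₁, b₁, Br.covered v c m m₁ b₁ e he hv h1, h2⟩
    | query _ _ _ _ _ e hv' hv hpm h =>
      obtain ⟨m₁, b₁, h1, h2⟩ := ih e (insert e m) r b h
      exact ⟨m₁, b₁, Br.query v c m m₁ b₁ e hv' hv hpm h1, h2⟩

theorem bind_reach {q : ℕ} (T : DT V) (K : Bool → DT V) :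
    ∀ (m r : Finset (Finset V)), Reach q (bind T K) m r → Reach q T m r ∨
      ∃ m₁ b₁, Br q T m m₁ b₁ ∧ Reach q (K b₁) m₁ r := by
  induction T with
  | leaf b' =>
    intro m r h
    exact Or.inr ⟨m, b', Br.leaf _ _, h⟩
  | node v c ih =>
    intro m r h
    rw [bind] at h
    cases h with
    | here => exact Or.inl (Reach.here _ _)
    | covered _ _ _ _ e he hv h =>
      rcases ih e m r h with h1 | ⟨m₁, b₁, h1, h2⟩
      · exact Or.inl (Reach.covered v c m r e he hv h1)
      · exact Or.inr ⟨m₁, b₁, Br.covered v c m m₁ b₁ e he hv h1, h2⟩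
    | query _ _ _ _ e hv' hv hpm h =>
      rcases ih e (insert e m) r h with h1 | ⟨m₁, b₁, h1, h2⟩
      · exact Or.inl (Reach.query v c m r e hv' hv hpm h1)
      · exact Or.inr ⟨m₁, b₁, Br.query v c m m₁ b₁ e hv' hv hpm h1, h2⟩

open Classical in
/-- Evaluate all the trees and count modulo `p`, starting from `a`. -/
noncomputable def countT (i : ZMod p) : (k : ℕ) → (Fin k → DT V) → ZMod p → DT V
  | 0, _, a => .leaf (decide (a = i))
  | k + 1, g, a => bind (g 0) (fun b =>
      countT i k (fun j => g j.succ) (a + (if b = true then 1 else 0)))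

theorem countT_br {q : ℕ} (i : ZMod p) {ρ : Finset (Finset V)} (k : ℕ) :
    ∀ (g : Fin k → DT V) (a : ZMod p) (m r : Finset (Finset V)) (b : Bool), ρ ⊆ m → PM q m →
      Br q (countT i k g a) m r b → ∃ c : Fin k → Bool,
        (∀ j, ∃ τ, Br q (g j) ρ τ (c j) ∧ τ ⊆ r) ∧
        (b = true ↔ a + (∑ j, (if c j = true then (1 : ZMod p) else 0)) = i) := by
  induction k with
  | zero =>
    intro g a m r b hρ hm h
    rw [countT] at h
    obtain ⟨h1, h2⟩ := h.leaf_inv
    refine ⟨Fin.elim0, fun j => j.elim0, ?_⟩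
    rw [← h2]
    simp
  | succ k ih =>
    intro g a m r b hρ hm h
    rw [countT] at h
    obtain ⟨m₁, b₁, h1, h2⟩ := bind_br _ _ m r b h
    have hm₁ := h1.pm hm
    obtain ⟨c, h3, h4⟩ := ih (fun j => g j.succ) _ m₁ r b (hρ.trans h1.subset) hm₁ h2
    obtain ⟨τ, h5, h6⟩ := h1.restrict hm ρ hρ
    refine ⟨Fin.cons b₁ c, fun j => ?_, ?_⟩
    · refine Fin.cases ?_ (fun j => ?_) j
      · refine ⟨τ, h5, ?_⟩
        have : τ ⊆ m₁ := by
          rw [h6]
          exact Finset.subset_union_right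
        exact this.trans h2.subset
      · rw [Fin.cons_succ]
        exact h3 j
    · rw [h4, Fin.sum_univ_succ, Fin.cons_zero, ← add_assoc]
      simp only [Fin.cons_succ]

theorem countT_dep {q t : ℕ} (i : ZMod p) {ρ : Finset (Finset V)} (k : ℕ) :
    ∀ (g : Fin k → DT V) (a : ZMod p) (m : Finset (Finset V)), ρ ⊆ m → PM q m →
      (∀ j, Dep q (g j) ρ t) → Dep q (countT i k g a) m (k * t) := by
  induction k with
  | zero =>
    intro g a m hρ hm hg r hr
    rw [countT] at hr
    rw [hr.leaf_inv]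
    simp
  | succ k ih =>
    intro g a m hρ hm hg r hr
    rw [countT] at hr
    have hd : Dep q (g 0) m t := (hg 0).mono hm hρ
    rcases bind_reach _ _ m r hr with h | ⟨m₁, b₁, h1, h2⟩
    · refine (hd r h).trans ?_
      rw [Nat.succ_mul]
      omega
    · have hm₁ := h1.pm hm
      have h3 := ih (fun j => g j.succ) (a + (if b₁ = true then 1 else 0)) m₁
        (hρ.trans h1.subset) hm₁ (fun j => hg j.succ) r h2
      have h4 := hd m₁ h1.reach
      have h5 : r \ m ⊆ (r \ m₁) ∪ (m₁ \ m) := by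
        intro e he
        rw [Finset.mem_sdiff] at he
        rw [Finset.mem_union, Finset.mem_sdiff, Finset.mem_sdiff]
        by_cases hem : e ∈ m₁
        · exact Or.inr ⟨hem, he.2⟩
        · exact Or.inl ⟨he.1, hem⟩
      have h6 := (Finset.card_le_card h5).trans (Finset.card_union_le _ _)
      rw [Nat.succ_mul]
      omega

end Pool.Agent.L0h36.BG
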