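import Pool.Agent.L0h36.BG.Stage

set_option autoImplicit false
set_option linter.unusedSectionVars false

/-!
# One stage of the evaluation, and all stages
-/

namespace Pool.Agent.L0h36.BG

open Finset Pool.Agent.L0h36.BF

variable {V : Type} [DecidableEq V] [Fintype V] {p : ℕ}

open Classical in
noncomputable def orFam (q s : ℕ) (T : Fml p (Finset V) → DT V) (b : Finset (Finset V))
    (ψ : Fml p (Finset V)) : List (Finset (Finset V)) :=
  (Finset.univ.filter (fun m => ∃ ξ ∈ ψ.orLeaves s, Br q (T ξ) b m true)).toList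

open Classical in
noncomputable def andFam (q s : ℕ) (T : Fml p (Finset V) → DT V) (b : Finset (Finset V))
    (ψ : Fml p (Finset V)) : List (Finset (Finset V)) :=
  (Finset.univ.filter (fun m => ∃ ξ ∈ ψ.andLeaves s, Br q (T ξ) b m false)).toList

theorem mem_orFam {q s : ℕ} {T : Fml p (Finset V) → DT V} {b : Finset (Finset V)}
    {ψ : Fml p (Finset V)} {m : Finset (Finset V)} :
    m ∈ orFam q s T b ψ ↔ ∃ ξ ∈ ψ.orLeaves s, Br q (T ξ) b m true := by
  simp [orFam]

theorem mem_andFam {q s : ℕ} {T : Fml p (Finset V) → DT V} {b : Finset (Finset V)}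
    {ψ : Fml p (Finset V)} {m : Finset (Finset V)} :
    m ∈ andFam q s T b ψ ↔ ∃ ξ ∈ ψ.andLeaves s, Br q (T ξ) b m false := by
  simp [andFam]

noncomputable def core (q s h : ℕ) (T : Fml p (Finset V) → DT V) (b ρ : Finset (Finset V)) :
    Fml p (Finset V) → DT V
  | .var _ => .leaf false
  | .neg φ => (if φ.depth s < h then T φ else core q s h T b ρ φ).flip
  | .and k f => (canon q (andFam q s T b (.and k f)) (Fintype.card V + 1) ρ).flip
  | .or k f => canon q (orFam q s T b (.or k f)) (Fintype.card V + 1) ρ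
  | .mod i k f => countT i k (fun j => T (f j)) 0

noncomputable def next (q s h : ℕ) (T : Fml p (Finset V) → DT V) (b ρ : Finset (Finset V))
    (ψ : Fml p (Finset V)) : DT V :=
  if ψ.depth s < h then T ψ else core q s h T b ρ ψ

theorem next_lt {q s h : ℕ} {T : Fml p (Finset V) → DT V} {b ρ : Finset (Finset V)}
    {ψ : Fml p (Finset V)} (hψ : ψ.depth s < h) : next q s h T b ρ ψ = T ψ := if_pos hψ

theorem next_ge {q s h : ℕ} {T : Fml p (Finset V) → DT V} {b ρ : Finset (Finset V)}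
    {ψ : Fml p (Finset V)} (hψ : ¬ ψ.depth s < h) :
    next q s h T b ρ ψ = core q s h T b ρ ψ :=
  if_neg hψ

/-- One stage. -/
theorem stage {q s w : ℕ} (hq : 1 ≤ q) (hs : 1 ≤ s) (Γ : Finset (Fml p (Finset V)))
    (hΓ : Fml.Closed (Γ : Set (Fml p (Finset V))))
    (hfree : ∀ i k f, Fml.mod i k f ∈ Γ → Fml.Small s (Fml.mod i k f) ∨ k ≤ w)
    (h t t' u a j0 : ℕ) (hh : 1 ≤ h) (ht : q * j0 ≤ t') (htw : w * t ≤ t') (htt : t ≤ t')
    (b : Finset (Finset V)) (hb : PM q b) (T : Fml p (Finset V) → DT V)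
    (hT : ∀ ψ ∈ Γ, ψ.depth s < h → Dep q (T ψ) b t ∧ LC q s T b ψ)
    (hu : Fintype.card V - q * (b.card + a) ≤ u) (hu1 : 1 ≤ u) (ha : 0 < a)
    (hle : q * (b.card + a) ≤ Fintype.card V)
    (hbig : 4 * (t * (u ^ (q - 1)) ^ q) * u ^ q ≤ a) (hI : 2 * Γ.card < 2 ^ j0) :
    ∃ ρ, b ⊆ ρ ∧ PM q ρ ∧ ρ.card = b.card + a ∧
      ∃ T' : Fml p (Finset V) → DT V, ∀ ψ ∈ Γ, ψ.depth s < h + 1 →
        Dep q (T' ψ) ρ t' ∧ LC q s T' ρ ψ := by
  classical
  set fam : Fml p (Finset V) → List (Finset (Finset V)) := fun ψ =>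
    if ψ.depth s = h then (if ψ.isAnd then andFam q s T b ψ else
      if ψ.isOr then orFam q s T b ψ else []) else [] with hfam
  have hlarge : ∀ ψ : Fml p (Finset V), ¬ ψ.depth s < h → ¬ Fml.Small s ψ := by
    intro ψ h1 h2
    rw [Fml.depth_small h2] at h1
    omega
  have hF : ∀ ψ ∈ Γ, ∀ τ ∈ fam ψ, (τ \ b).card ≤ t := by
    intro ψ hψ τ hτ
    simp only [hfam] at hτ
    split_ifs at hτ with h1 h2 h3
    · rw [mem_andFam] at hτ
      obtain ⟨ξ, hξ, hbr⟩ := hτ
      have h4 := (Fml.depth_andLeaves hξ).1 ⟨h2, hlarge ψ (by omega)⟩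
      exact (hT ξ (hΓ.andLeaves hψ hξ) (by omega)).1 τ hbr.reach
    · rw [mem_orFam] at hτ
      obtain ⟨ξ, hξ, hbr⟩ := hτ
      have h4 := (Fml.depth_orLeaves hξ).1 ⟨h3, hlarge ψ (by omega)⟩
      exact (hT ξ (hΓ.orLeaves hψ hξ) (by omega)).1 τ hbr.reach
    · simp at hτ
    · simp at hτ
  obtain ⟨ρ, hbρ, hρ, hρc, hgood⟩ := exists_good hq Γ fam b hb t u a j0 hF hu hu1 ha hle hbig hI
  refine ⟨ρ, hbρ, hρ, hρc, next q s h T b ρ, ?_⟩
  -- depth
  have hup : ∀ {T₀ : DT V}, Dep q T₀ b t → Dep q T₀ ρ t' := fun h1 r hr =>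
    ((h1.mono hρ hbρ) r hr).trans htt
  have hdep : ∀ ψ : Fml p (Finset V), ψ ∈ Γ → ψ.depth s < h + 1 →
      Dep q (next q s h T b ρ ψ) ρ t' := by
    intro ψ
    induction ψ with
    | var e =>
      intro hψ hd
      have hlt : (Fml.var e : Fml p (Finset V)).depth s < h := by
        rw [Fml.depth]
        omega
      rw [next_lt hlt]
      exact hup (hT _ hψ hlt).1
    | neg φ ih =>
      intro hψ hd
      by_cases hlt : (Fml.neg φ).depth s < h
      · rw [next_lt hlt]
        exact hup (hT _ hψ hlt).1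
      · rw [next_ge hlt, core]
        have h1 := Fml.depth_le_neg s φ
        exact (ih (hΓ.1 φ hψ) (by omega)).flip
    | and k f ih =>
      intro hψ hd
      by_cases hlt : (Fml.and k f).depth s < h
      · rw [next_lt hlt]
        exact hup (hT _ hψ hlt).1
      · rw [next_ge hlt, core]
        have h1 : Dep q (canon q (andFam q s T b (.and k f)) (Fintype.card V + 1) ρ).flip ρ
            (q * j0) := by
          apply Dep.flip
          apply canon_dep _ _ hρ
          intro j r hr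
          refine hgood _ hψ j r ?_
          have : fam (.and k f) = andFam q s T b (.and k f) := by
            simp only [hfam]
            rw [if_pos (by omega), if_pos (show (Fml.and k f).isAnd = true from rfl)]
          rw [this]
          exact hr
        exact fun r hr => (h1 r hr).trans ht
    | or k f ih =>
      intro hψ hd
      by_cases hlt : (Fml.or k f).depth s < h
      · rw [next_lt hlt]
        exact hup (hT _ hψ hlt).1
      · rw [next_ge hlt, core]
        have h1 : Dep q (canon q (orFam q s T b (.or k f)) (Fintype.card V + 1) ρ) ρ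
            (q * j0) := by
          apply canon_dep _ _ hρ
          intro j r hr
          refine hgood _ hψ j r ?_
          have : fam (.or k f) = orFam q s T b (.or k f) := by
            simp only [hfam]
            rw [if_pos (by omega), if_neg (by simp [Fml.isAnd]),
              if_pos (show (Fml.or k f).isOr = true from rfl)]
          rw [this]
          exact hr
        exact fun r hr => (h1 r hr).trans ht
    | mod i k f ih =>
      intro hψ hd
      by_cases hlt : (Fml.mod i k f).depth s < h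
      · rw [next_lt hlt]
        exact hup (hT _ hψ hlt).1
      · rw [next_ge hlt, core]
        have hns := hlarge _ hlt
        have hk : k ≤ w := (hfree i k f hψ).resolve_left hns
        have h1 : Dep q (countT i k (fun j => T (f j)) 0) ρ (k * t) := by
          refine countT_dep i k (fun j => T (f j)) 0 ρ hbρ hρ fun j => ?_
          have h2 := Fml.depth_lt_mod s f j hns
          exact (hT (f j) (hΓ.2.2.2 i k f hψ j) (by omega)).1
        exact fun r hr => (h1 r hr).trans ((Nat.mul_le_mul_right t hk).trans htw)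
  intro ψ hψ hd
  refine ⟨hdep ψ hψ hd, ?_⟩
  -- local correctness
  by_cases hsm : Fml.Small s ψ
  · refine ⟨fun _ => ?_, fun h' => absurd hsm h'⟩
    have hlt : ψ.depth s < h := by
      rw [Fml.depth_small hsm]
      omega
    rw [next_lt hlt]
    exact ((hT _ hψ hlt).2.1 hsm).mono hbρ hρ
  refine ⟨fun h' => absurd h' hsm, fun _ => ?_⟩
  cases ψ with
  | var e => exact absurd (Fml.small_var hs e) hsm
  | neg φ =>
    by_cases hlt : (Fml.neg φ).depth s < h
    · have h1 := (hT _ hψ hlt).2.2 hsm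
      have h2 := Fml.depth_le_neg s φ
      rw [LCc] at h1 ⊢
      rw [next_lt hlt, next_lt (by omega), h1]
    · rw [LCc, next_ge hlt, core]
      rfl
  | and k f =>
    have h2 : ∀ ξ ∈ (Fml.and k f).andLeaves s, next q s h T b ρ ξ = T ξ := by
      intro ξ hξ
      have := (Fml.depth_andLeaves hξ).1 ⟨rfl, hsm⟩
      exact next_lt (by omega)
    by_cases hlt : (Fml.and k f).depth s < h
    · have h1 := ((hT _ hψ hlt).2.2 hsm).mono hbρ hρ
      rw [LCc] at h1 ⊢
      rw [next_lt hlt]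
      refine ⟨fun s hs => ?_, fun s hs ξ hξ τ hτ => ?_⟩
      · obtain ⟨ξ, hξ, τ, hτ, hτs⟩ := h1.1 s hs
        exact ⟨ξ, hξ, τ, by rw [h2 ξ hξ]; exact hτ, hτs⟩
      · rw [h2 ξ hξ] at hτ
        exact h1.2 s hs ξ hξ τ hτ
    · rw [LCc, next_ge hlt, core]
      refine ⟨fun s hs => ?_, fun s hs ξ hξ τ hτ hp => ?_⟩
      · have hsp := hs.pm hρ
        rw [Br.flip_iff] at hs
        obtain ⟨τ, hτF, hτs⟩ := (canon_br hq _ _ ρ s _ hρ (by omega) hs).1 rfl
        rw [mem_andFam] at hτF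
        obtain ⟨ξ, hξ, hτ⟩ := hτF
        have hρs := hs.subset
        have hsub : ρ ∪ τ ⊆ s := Finset.union_subset hρs hτs
        refine ⟨ξ, hξ, ρ ∪ τ, ?_, hsub⟩
        rw [h2 ξ hξ]
        exact hτ.extendTo ρ hbρ (hsp.mono hsub)
      · rw [Br.flip_iff] at hs
        rw [h2 ξ hξ] at hτ
        obtain ⟨τ', h3, h4⟩ := hτ.restrict hρ b hbρ
        refine (canon_br hq _ _ ρ s _ hρ (by omega) hs).2 rfl τ' ?_ (hp.mono ?_)
        · rw [mem_andFam]
          exact ⟨ξ, hξ, h3⟩
        · rw [h4]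
          intro x hx
          simp only [Finset.mem_union] at hx ⊢
          tauto
  | or k f =>
    have h2 : ∀ ξ ∈ (Fml.or k f).orLeaves s, next q s h T b ρ ξ = T ξ := by
      intro ξ hξ
      have := (Fml.depth_orLeaves hξ).1 ⟨rfl, hsm⟩
      exact next_lt (by omega)
    by_cases hlt : (Fml.or k f).depth s < h
    · have h1 := ((hT _ hψ hlt).2.2 hsm).mono hbρ hρ
      rw [LCc] at h1 ⊢
      rw [next_lt hlt]
      refine ⟨fun s hs => ?_, fun s hs ξ hξ τ hτ => ?_⟩
      · obtain ⟨ξ, hξ, τ, hτ, hτs⟩ := h1.1 s hs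
        exact ⟨ξ, hξ, τ, by rw [h2 ξ hξ]; exact hτ, hτs⟩
      · rw [h2 ξ hξ] at hτ
        exact h1.2 s hs ξ hξ τ hτ
    · rw [LCc, next_ge hlt, core]
      refine ⟨fun s hs => ?_, fun s hs ξ hξ τ hτ hp => ?_⟩
      · have hsp := hs.pm hρ
        obtain ⟨τ, hτF, hτs⟩ := (canon_br hq _ _ ρ s _ hρ (by omega) hs).1 rfl
        rw [mem_orFam] at hτF
        obtain ⟨ξ, hξ, hτ⟩ := hτF
        have hρs := hs.subset
        have hsub : ρ ∪ τ ⊆ s := Finset.union_subset hρs hτs
        refine ⟨ξ, hξ, ρ ∪ τ, ?_, hsub⟩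
        rw [h2 ξ hξ]
        exact hτ.extendTo ρ hbρ (hsp.mono hsub)
      · rw [h2 ξ hξ] at hτ
        obtain ⟨τ', h3, h4⟩ := hτ.restrict hρ b hbρ
        refine (canon_br hq _ _ ρ s _ hρ (by omega) hs).2 rfl τ' ?_ (hp.mono ?_)
        · rw [mem_orFam]
          exact ⟨ξ, hξ, h3⟩
        · rw [h4]
          intro x hx
          simp only [Finset.mem_union] at hx ⊢
          tauto
  | mod i k f =>
    have h2 : ∀ j, next q s h T b ρ (f j) = T (f j) := by
      intro j
      have h3 := Fml.depth_lt_mod s f j hsm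
      exact next_lt (by omega)
    by_cases hlt : (Fml.mod i k f).depth s < h
    · have h1 := ((hT _ hψ hlt).2.2 hsm).mono hbρ hρ
      rw [LCc] at h1 ⊢
      rw [next_lt hlt]
      intro r c hr
      obtain ⟨c, hc, hb⟩ := h1 r c hr
      refine ⟨c, fun j => ?_, hb⟩
      rw [h2 j]
      exact hc j
    · rw [LCc, next_ge hlt, core]
      intro r c hr
      have hsp := hr.pm hρ
      obtain ⟨c, hc, hb⟩ := countT_br i k (fun j => T (f j)) 0 ρ r c hbρ hρ hr
      rw [zero_add] at hb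
      refine ⟨c, fun j => ?_, hb⟩
      rw [h2 j]
      obtain ⟨τ, hτ, hτr⟩ := hc j
      have hsub : ρ ∪ τ ⊆ r := Finset.union_subset hr.subset hτr
      exact ⟨ρ ∪ τ, hτ.extendTo ρ hbρ (hsp.mono hsub), hsub⟩

/-- All stages: `A h` is the number of sets after `h` stages, and `t h` is the depth of the trees. -/
theorem all_stages {q s w : ℕ} (hq : 1 ≤ q) (hs : 1 ≤ s) (Γ : Finset (Fml p (Finset V)))
    (hΓ : Fml.Closed (Γ : Set (Fml p (Finset V))))
    (hfree : ∀ i k f, Fml.mod i k f ∈ Γ → Fml.Small s (Fml.mod i k f) ∨ k ≤ w)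
    (t : ℕ → ℕ) (j0 : ℕ) (ht : ∀ h, q * j0 ≤ t h) (htw : ∀ h, w * t h ≤ t (h + 1))
    (htt : ∀ h, t h ≤ t (h + 1)) (hI : 2 * Γ.card < 2 ^ j0)
    (A : ℕ → ℕ) (b₀ : Finset (Finset V)) (hb₀ : PM q b₀) (hbA : b₀.card = A 1)
    (T₀ : Fml p (Finset V) → DT V)
    (hT₀ : ∀ ψ ∈ Γ, Fml.Small s ψ → Dep q (T₀ ψ) b₀ (t 1) ∧ LCs q (T₀ ψ) b₀ ψ)
    (D : ℕ) (hlt : ∀ h < D, 1 ≤ h → A h < A (h + 1))
    (hle : ∀ h < D, 1 ≤ h → q * A (h + 1) < Fintype.card V)
    (hbig : ∀ h < D, 1 ≤ h → 4 * (t h * ((Fintype.card V - q * A (h + 1)) ^ (q - 1)) ^ q) *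
      (Fintype.card V - q * A (h + 1)) ^ q ≤ A (h + 1) - A h) :
    ∀ h, 1 ≤ h → h ≤ D → ∃ ρ : Finset (Finset V), PM q ρ ∧ ρ.card = A h ∧
      ∃ T : Fml p (Finset V) → DT V, ∀ ψ ∈ Γ, ψ.depth s < h →
        Dep q (T ψ) ρ (t h) ∧ LC q s T ρ ψ := by
  intro h h1
  induction h, h1 using Nat.le_induction with
  | base =>
    intro _
    refine ⟨b₀, hb₀, hbA, T₀, fun ψ hψ hd => ?_⟩
    have hsm : Fml.Small s ψ := by
      by_contra hns
      have := Fml.depth_pos hs hns
      omega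
    obtain ⟨h1, h2⟩ := hT₀ ψ hψ hsm
    exact ⟨h1, fun _ => h2, fun h' => absurd hsm h'⟩
  | succ h h1 ih =>
    intro hD
    obtain ⟨b, hb, hbc, T, hT⟩ := ih (by omega)
    have h3 := hlt h (by omega) h1
    have h2 : b.card + (A (h + 1) - A h) = A (h + 1) := by omega
    obtain ⟨ρ, -, hρ, hρc, T', hT'⟩ := stage hq hs Γ hΓ hfree h (t h) (t (h + 1))
      (Fintype.card V - q * A (h + 1)) (A (h + 1) - A h) j0 h1 (ht _) (htw h) (htt h) b hb T hT
      (by rw [h2]) (by have := hle h (by omega) h1; omega) (by omega)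
      (by rw [h2]; exact (hle h (by omega) h1).le) (hbig h (by omega) h1) hI
    exact ⟨ρ, hρ, by omega, T', hT'⟩

end Pool.Agent.L0h36.BG
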