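import Pool.Agent.L0h36.BG.Defs
import Pool.Agent.L0h36.BF.Match

set_option autoImplicit false
set_option linter.unusedSectionVars false

/-!
# The counting principle is a tautology of polynomial size and depth 3
-/

namespace Pool.Agent.L0h36.BG

open Finset Pool.Agent.L0h36.BF

section lists

variable {p : ℕ} {α : Type}

theorem holds_orL {v : α → Prop} {l : List (Fml p α)} :
    (orL l).Holds v ↔ ∃ φ ∈ l, φ.Holds v := by
  rw [orL, Fml.Holds]
  constructor
  · rintro ⟨j, hj⟩
    exact ⟨_, List.get_mem l j, hj⟩
  · rintro ⟨φ, hφ, h⟩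
    obtain ⟨j, rfl⟩ := List.get_of_mem hφ
    exact ⟨j, h⟩

theorem holds_andL {v : α → Prop} {l : List (Fml p α)} :
    (andL l).Holds v ↔ ∀ φ ∈ l, φ.Holds v := by
  rw [andL, Fml.Holds]
  constructor
  · intro h φ hφ
    obtain ⟨j, rfl⟩ := List.get_of_mem hφ
    exact h j
  · intro h j
    exact h _ (List.get_mem l j)

theorem sum_get (l : List (Fml p α)) (f : Fml p α → ℕ) :
    ∑ j, f (l.get j) = (l.map f).sum := by
  rw [← List.sum_ofFn]
  congr 1
  have h1 : List.map f (List.ofFn l.get) = List.ofFn (f ∘ l.get) := List.map_ofFn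
  rw [List.ofFn_get] at h1
  exact h1.symm

theorem size_orL (l : List (Fml p α)) : (orL l).size = (l.map Fml.size).sum + 1 := by
  rw [orL, Fml.size, sum_get l Fml.size]

theorem size_andL (l : List (Fml p α)) : (andL l).size = (l.map Fml.size).sum + 1 := by
  rw [andL, Fml.size, sum_get l Fml.size]

theorem sum_map_le {β : Type} (l : List β) (f : β → ℕ) (c : ℕ) (h : ∀ x ∈ l, f x ≤ c) :
    (l.map f).sum ≤ l.length * c := by
  have h1 := List.sum_le_card_nsmul (l.map f) c (by
    intro y hy
    rw [List.mem_map] at hy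
    obtain ⟨x, hx, rfl⟩ := hy
    exact h x hx)
  rwa [List.length_map, smul_eq_mul] at h1

end lists

/-- The principle holds if `q` does not divide `n`. -/
theorem countFml_holds (p q n : ℕ) (hn : ¬ q ∣ n) (v : Finset (Fin n) → Prop) :
    (countFml p q n).Holds v := by
  classical
  by_contra hcon
  apply hn
  unfold countFml at hcon
  rw [holds_orL] at hcon
  push Not at hcon
  set M : Finset (Finset (Fin n)) := Finset.univ.filter (fun e => e.card = q ∧ v e) with hM
  have hcov : cov M = Finset.univ := by
    ext x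
    refine ⟨fun _ => Finset.mem_univ _, fun _ => ?_⟩
    have h1 := hcon (uncovered p q n x) (by
      rw [List.mem_append, List.mem_map]
      exact Or.inl ⟨x, by simp, rfl⟩)
    unfold uncovered at h1
    rw [holds_andL] at h1
    push Not at h1
    obtain ⟨φ, hφ, h2⟩ := h1
    rw [List.mem_map] at hφ
    obtain ⟨e, he, rfl⟩ := hφ
    rw [Finset.mem_toList, Finset.mem_filter] at he
    have h3 : v e := by
      by_contra h
      exact h2 h
    rw [mem_cov]
    exact ⟨e, by rw [hM, Finset.mem_filter]; exact ⟨Finset.mem_univ _, he.2.1, h3⟩, he.2.2⟩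
  have hpm : PM q M := by
    constructor
    · intro e he
      rw [hM, Finset.mem_filter] at he
      exact he.2.1
    · intro e he f hf hne
      rw [hM, Finset.mem_filter] at he hf
      by_contra hd
      have h1 := hcon (clash p n e f) (by
        rw [List.mem_append, List.mem_map, List.mem_map]
        refine Or.inr ⟨(e, f), ?_, rfl⟩
        rw [Finset.mem_toList, clashes, Finset.mem_filter]
        exact ⟨Finset.mem_univ _, he.2.1, hf.2.1, hne, hd⟩)
      apply h1
      unfold clash
      rw [holds_andL]
      intro φ hφ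
      rw [List.mem_cons, List.mem_singleton] at hφ
      rcases hφ with rfl | rfl
      · exact he.2.2
      · exact hf.2.2
  have h1 := hpm.card_cov
  rw [hcov, Finset.card_univ, Fintype.card_fin] at h1
  exact ⟨M.card, h1⟩

theorem card_qsets (q n : ℕ) (P : Finset (Fin n) → Prop) [DecidablePred P] :
    ((Finset.univ : Finset (Finset (Fin n))).filter (fun e => e.card = q ∧ P e)).card ≤
      n ^ q := by
  have h1 : ((Finset.univ : Finset (Finset (Fin n))).filter (fun e => e.card = q ∧ P e)) ⊆
      Finset.powersetCard q Finset.univ := by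
    intro e he
    rw [Finset.mem_filter] at he
    rw [Finset.mem_powersetCard]
    exact ⟨Finset.subset_univ _, he.2.1⟩
  refine (Finset.card_le_card h1).trans ?_
  rw [Finset.card_powersetCard, Finset.card_univ, Fintype.card_fin]
  exact Nat.choose_le_pow n q

theorem card_clashes (q n : ℕ) : (clashes q n).card ≤ n ^ (2 * q) := by
  classical
  have h1 : clashes q n ⊆ (Finset.powersetCard q Finset.univ) ×ˢ
      (Finset.powersetCard q Finset.univ) := by
    rintro ⟨e, f⟩ he
    rw [clashes, Finset.mem_filter] at he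
    rw [Finset.mem_product, Finset.mem_powersetCard, Finset.mem_powersetCard]
    exact ⟨⟨Finset.subset_univ _, he.2.1⟩, ⟨Finset.subset_univ _, he.2.2.1⟩⟩
  refine (Finset.card_le_card h1).trans ?_
  rw [Finset.card_product, Finset.card_powersetCard, Finset.card_univ, Fintype.card_fin, two_mul,
    pow_add]
  exact Nat.mul_le_mul (Nat.choose_le_pow n q) (Nat.choose_le_pow n q)

/-- The size is polynomial. -/
theorem size_countFml (p q n : ℕ) (hq : 1 ≤ q) (hn : 1 ≤ n) :
    (countFml p q n).size ≤ 8 * n ^ (2 * q) := by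
  classical
  unfold countFml
  rw [size_orL, List.map_append, List.sum_append, List.map_map, List.map_map]
  have h1 : (((Finset.univ : Finset (Fin n)).toList.map
      (Fml.size ∘ uncovered p q n)).sum) ≤ n * (2 * n ^ q + 1) := by
    refine (sum_map_le _ _ (2 * n ^ q + 1) ?_).trans ?_
    · intro x _
      rw [Function.comp_apply]
      unfold uncovered
      rw [size_andL, List.map_map]
      refine Nat.add_le_add_right ?_ 1
      refine (sum_map_le _ _ 2 ?_).trans ?_
      · intro e _
        rw [Function.comp_apply, Fml.size, Fml.size]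
      · rw [Finset.length_toList, mul_comm]
        exact Nat.mul_le_mul_left _ (card_qsets q n _)
    · rw [Finset.length_toList, Finset.card_univ, Fintype.card_fin]
  have h2 : ((clashes q n).toList.map
      (Fml.size ∘ fun ef => clash p n ef.1 ef.2)).sum ≤ n ^ (2 * q) * 3 := by
    refine (sum_map_le _ _ 3 ?_).trans ?_
    · intro ef _
      rw [Function.comp_apply]
      unfold clash
      rw [size_andL]
      simp [Fml.size]
    · rw [Finset.length_toList]
      exact Nat.mul_le_mul_right _ (card_clashes q n)
  have h3 : n * n ^ q ≤ n ^ (2 * q) := by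
    rw [← pow_succ']
    exact Nat.pow_le_pow_right hn (by omega)
  have h4 : n ≤ n ^ (2 * q) := by
    calc n = n ^ 1 := (pow_one n).symm
      _ ≤ n ^ (2 * q) := Nat.pow_le_pow_right hn (by omega)
  have h5 : 1 ≤ n ^ (2 * q) := Nat.one_le_pow _ _ hn
  have h6 : n * (2 * n ^ q + 1) = 2 * (n * n ^ q) + n := by ring
  omega

open Classical in
theorem depth_orL_le {p : ℕ} {α : Type} {l : List (Fml p α)} {s k : ℕ}
    (h : ∀ φ ∈ l, φ.depth s ≤ k) : (orL l).depth s ≤ k + 1 := by
  rw [orL, Fml.depth]
  split_ifs
  · omega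
  refine Finset.sup_le fun j _ => ?_
  have h1 := h _ (List.get_mem l j)
  split_ifs <;> omega

open Classical in
theorem depth_andL_le {p : ℕ} {α : Type} {l : List (Fml p α)} {s k : ℕ}
    (h : ∀ φ ∈ l, φ.depth s ≤ k) : (andL l).depth s ≤ k + 1 := by
  rw [andL, Fml.depth]
  split_ifs
  · omega
  refine Finset.sup_le fun j _ => ?_
  have h1 := h _ (List.get_mem l j)
  split_ifs <;> omega

/-- The depth is at most 3. -/
theorem depth_countFml (p q n s : ℕ) : (countFml p q n).depth s ≤ 3 := by
  classical
  unfold countFml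
  apply depth_orL_le
  intro φ hφ
  rw [List.mem_append, List.mem_map, List.mem_map] at hφ
  rcases hφ with ⟨x, -, rfl⟩ | ⟨ef, -, rfl⟩
  · unfold uncovered
    apply depth_andL_le
    intro ψ hψ
    rw [List.mem_map] at hψ
    obtain ⟨e, -, rfl⟩ := hψ
    rw [Fml.depth]
    split_ifs <;> simp [Fml.depth]
  · unfold clash
    refine (depth_andL_le (k := 0) ?_).trans (by omega)
    intro ψ hψ
    rw [List.mem_cons, List.mem_singleton] at hψ
    rcases hψ with rfl | rfl <;> simp [Fml.depth]

theorem front_orL {p : ℕ} {α : Type} {l : List (Fml p α)} {s w : ℕ}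
    (h : ∀ φ ∈ l, φ.front s w = ∅) : (orL l).front s w = ∅ := by
  rw [orL, Fml.front, Set.iUnion_eq_empty]
  exact fun j => h _ (List.get_mem l j)

theorem front_andL {p : ℕ} {α : Type} {l : List (Fml p α)} {s w : ℕ}
    (h : ∀ φ ∈ l, φ.front s w = ∅) : (andL l).front s w = ∅ := by
  rw [andL, Fml.front, Set.iUnion_eq_empty]
  exact fun j => h _ (List.get_mem l j)

/-- There are no MOD gates. -/
theorem front_countFml (p q n s w : ℕ) : (countFml p q n).front s w = ∅ := by
  unfold countFml
  apply front_orL
  intro φ hφ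
  rw [List.mem_append, List.mem_map, List.mem_map] at hφ
  rcases hφ with ⟨v, -, rfl⟩ | ⟨ef, -, rfl⟩
  · unfold uncovered
    apply front_andL
    intro ψ hψ
    rw [List.mem_map] at hψ
    obtain ⟨e, -, rfl⟩ := hψ
    rfl
  · unfold clash
    apply front_andL
    intro ψ hψ
    rw [List.mem_cons, List.mem_singleton] at hψ
    rcases hψ with rfl | rfl <;> rfl

end Pool.Agent.L0h36.BG
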