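import Pool.Agent.L0h36.BF.Refine
import Pool.Agent.L0h36.BG.Inst

set_option autoImplicit false
set_option linter.unusedSectionVars false

/-!
# Values of formulas at the points of the model
-/

namespace Pool.Agent.L0h36.BG

open Finset Pool.Agent.L0h36.BF

/-- The bound for the degree of the instance of a formula. -/
def Bd (p K t : ℕ) : ℕ → ℕ
  | 0 => 0
  | h + 1 => K * (p * (Bd p K t h + t))

theorem Bd_step (p K t h : ℕ) : Bd p K t h ≤ Bd p K t (h + 1) := by
  induction h with
  | zero => exact Nat.zero_le _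
  | succ h ih =>
    rw [Bd, Bd]
    exact Nat.mul_le_mul_left _ (Nat.mul_le_mul_left _ (Nat.add_le_add_right ih _))

theorem Bd_mono (p K t : ℕ) {h h' : ℕ} (hh : h ≤ h') : Bd p K t h ≤ Bd p K t h' :=
  monotone_nat_of_le_succ (Bd_step p K t) hh

variable {F : Type} [Field F] {V : Type} [DecidableEq V] [Fintype V] {p q D : ℕ}
  {ρ : Finset (Finset V)} (s w : ℕ) (MD : Model F q (Finset.univ \ cov ρ) D)
  (T : Fml p (Finset V) → DT V)

/-- The value of the tree of a formula at a point. -/
noncomputable def tv (y : MD.Y) (χ : Fml p (Finset V)) : Bool := (T χ).val (RR MD y)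

/-- The value of a formula at a point. -/
noncomputable def vl (y : MD.Y) (φ : Fml p (Finset V)) : Bool :=
  tv MD T y (Fml.sv s w (tv MD T y) φ)

theorem rho_sub (y : MD.Y) : ρ ⊆ RR MD y := Finset.subset_union_left

theorem one_mem (k : ℕ) : (1 : MD.Y → F) ∈ MD.A k := MD.mono (Nat.zero_le k) MD.one

theorem tv_mem (hρ : PM q ρ) {t : ℕ} {χ : Fml p (Finset V)} (hT : Dep q (T χ) ρ t) :
    (ind (fun y => tv MD T y χ = true) : MD.Y → F) ∈ MD.A t := by
  have h1 := tree_mem MD hρ (T χ) ρ t (Finset.Subset.refl _) hT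
  rw [Finset.sdiff_self, Finset.card_empty, Nat.zero_add] at h1
  have h2 : (ind (fun y => tv MD T y χ = true) : MD.Y → F) =
      ind (fun y => ρ ⊆ RR MD y ∧ (T χ).val (RR MD y) = true) := by
    apply ind_congr
    intro y
    constructor
    · intro h
      exact ⟨rho_sub MD y, h⟩
    · intro h
      exact h.2
  rw [h2]
  exact h1

theorem pow_mem_A {f : MD.Y → F} {k : ℕ} (hf : f ∈ MD.A k) (n : ℕ) : f ^ n ∈ MD.A (n * k) := by
  induction n with
  | zero => simpa using MD.one
  | succ n ih =>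
    rw [pow_succ, Nat.succ_mul]
    exact MD.mul ih hf

theorem sub_mem_A {f g : MD.Y → F} {k : ℕ} (hf : f ∈ MD.A k) (hg : g ∈ MD.A k) :
    f - g ∈ MD.A k := Submodule.sub_mem _ hf hg

section

variable [Fact p.Prime]

/-- The set of the instances, finite. -/
noncomputable def instF (φ : Fml p (Finset V)) : Finset (Fml p (Finset V)) :=
  (Fml.card_insts s w φ).1.toFinset

theorem mem_instF {φ χ : Fml p (Finset V)} : χ ∈ instF s w φ ↔ χ ∈ φ.insts s w :=
  Set.Finite.mem_toFinset _

/-- From the degree of the instance to the degree of the value. -/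
theorem vl_mem_of (hρ : PM q ρ) {t k : ℕ} {φ : Fml p (Finset V)}
    (hT : ∀ χ ∈ φ.insts s w, Dep q (T χ) ρ t)
    (h : ∀ χ, (ind (fun y => Fml.sv s w (tv MD T y) φ = χ) : MD.Y → F) ∈ MD.A k) :
    (ind (fun y => vl s w MD T y φ = true) : MD.Y → F) ∈ MD.A (k + t) := by
  classical
  have h1 : (ind (fun y => vl s w MD T y φ = true) : MD.Y → F) =
      ∑ χ ∈ instF s w φ, ind (fun y => Fml.sv s w (tv MD T y) φ = χ) *
        ind (fun y => tv MD T y χ = true) := by
    ext y
    rw [Finset.sum_apply, Finset.sum_eq_single (Fml.sv s w (tv MD T y) φ)]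
    · rw [Pi.mul_apply,
        ind_pos (fun z => Fml.sv s w (tv MD T z) φ = Fml.sv s w (tv MD T y) φ) rfl, one_mul]
      rfl
    · intro χ hχ hne
      rw [Pi.mul_apply, ind_neg (fun z => Fml.sv s w (tv MD T z) φ = χ) (fun h => hne h.symm),
        zero_mul]
    · intro h
      exact absurd ((mem_instF s w).2 (Fml.sv_mem s w _ _)) h
  rw [h1]
  refine Submodule.sum_mem _ fun χ hχ => ?_
  exact MD.mul (h χ) (tv_mem MD T hρ (hT χ ((mem_instF s w).1 hχ)))

/-- The instance as a function of low degree, from the values of the large gates. -/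
theorem sv_mem_of {K X : ℕ} (φ : Fml p (Finset V)) (hK : φ.rank s w ≤ K)
    (hX : ∀ v ∈ φ.front s w, ∀ c : ZMod p,
      (ind (fun y => Fml.lin s w (tv MD T y) v = c) : MD.Y → F) ∈ MD.A X) (χ : Fml p (Finset V)) :
    (ind (fun y => Fml.sv s w (tv MD T y) φ = χ) : MD.Y → F) ∈ MD.A (K * X) := by
  classical
  obtain ⟨b, hbsub, hspan, hli⟩ := exists_linearIndependent (ZMod p) (φ.front s w)
  have hbfin : b.Finite := (Fml.front_finite s w φ).subset hbsub
  have : Fintype b := hbfin.fintype
  have hbc : Fintype.card b ≤ K := by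
    have h1 := finrank_span_set_eq_card hli
    rw [hspan, Set.toFinset_card] at h1
    rw [← h1]
    exact hK
  have heq : (ind (fun y => Fml.sv s w (tv MD T y) φ = χ) : MD.Y → F) =
      ∑ τ ∈ (Finset.univ : Finset (b → ZMod p)).filter (fun τ =>
        ∃ l : (Fml p (Finset V) →₀ ZMod p) →ₗ[ZMod p] ZMod p,
          (∀ v : b, l v = τ v) ∧ Fml.svL s w l φ = χ),
        ∏ v : b, ind (fun y => Fml.lin s w (tv MD T y) v = τ v) := by
    ext y
    rw [Finset.sum_apply]
    have hprod : ∀ τ : b → ZMod p, (∏ v : b,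
        (ind (fun y => Fml.lin s w (tv MD T y) v = τ v) : MD.Y → F)) y =
        if τ = (fun v : b => Fml.lin s w (tv MD T y) v) then 1 else 0 := by
      intro τ
      rw [Finset.prod_apply]
      split_ifs with h
      · apply Finset.prod_eq_one
        intro v _
        exact ind_pos (fun y => Fml.lin s w (tv MD T y) v = τ v) (by rw [h])
      · obtain ⟨v, hv⟩ := Function.ne_iff.1 h
        exact Finset.prod_eq_zero (Finset.mem_univ v)
          (ind_neg (fun y => Fml.lin s w (tv MD T y) v = τ v) (fun h' => hv h'.symm))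
    rw [Finset.sum_congr rfl fun τ _ => hprod τ, Finset.sum_ite_eq']
    by_cases hy : Fml.sv s w (tv MD T y) φ = χ
    · rw [ind_pos (fun y => Fml.sv s w (tv MD T y) φ = χ) hy, if_pos]
      rw [Finset.mem_filter]
      refine ⟨Finset.mem_univ _, Fml.lin s w (tv MD T y), fun v => rfl, ?_⟩
      rw [← Fml.sv_eq_svL]
      exact hy
    · rw [ind_neg (fun y => Fml.sv s w (tv MD T y) φ = χ) hy, if_neg]
      rw [Finset.mem_filter]
      rintro ⟨-, l, h1, h2⟩
      apply hy
      rw [Fml.sv_eq_svL, ← h2]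
      apply Fml.svL_congr
      intro v hv
      have hv' : v ∈ Submodule.span (ZMod p) b := by
        rw [hspan]
        exact Submodule.subset_span hv
      have hle : Submodule.span (ZMod p) b ≤
          LinearMap.eqLocus (Fml.lin s w (tv MD T y)) l := by
        rw [Submodule.span_le]
        intro v' hv'
        rw [SetLike.mem_coe, LinearMap.mem_eqLocus]
        exact (h1 ⟨v', hv'⟩).symm
      exact LinearMap.mem_eqLocus.1 (hle hv')
  rw [heq]
  refine Submodule.sum_mem _ fun τ _ => ?_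
  have h1 := prod_mem MD (Finset.univ : Finset b)
    (fun v : b => (ind (fun y => Fml.lin s w (tv MD T y) v = τ v) : MD.Y → F)) (fun _ => X)
    (fun v _ => hX v (hbsub v.2) (τ v))
  refine MD.mono ?_ h1
  rw [Finset.sum_const, smul_eq_mul, Finset.card_univ]
  exact Nat.mul_le_mul_right _ hbc

/-- The value of a large gate as a function of low degree. -/
theorem lin_mem [CharP F p] {k m : ℕ} (f : Fin k → Fml p (Finset V))
    (hf : ∀ j, (ind (fun y => vl s w MD T y (f j) = true) : MD.Y → F) ∈ MD.A m) (c : ZMod p) :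
    (ind (fun y => Fml.lin s w (tv MD T y) (∑ j, Finsupp.single (f j) 1) = c) : MD.Y → F) ∈
      MD.A (p * m) := by
  classical
  have hp : p.Prime := Fact.out
  set ci : F := ZMod.castHom (dvd_refl p) F c with hci
  have htt : (ind (fun y => Fml.lin s w (tv MD T y) (∑ j, Finsupp.single (f j) 1) = c) :
      MD.Y → F) =
      1 - (∑ j, (ind (fun y => vl s w MD T y (f j) = true) : MD.Y → F) - ci • 1) ^ (p - 1) := by
    ext y
    rw [Pi.sub_apply, Pi.pow_apply, Pi.sub_apply, Finset.sum_apply, Pi.smul_apply, Pi.one_apply,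
      smul_eq_mul, mul_one]
    have h2 : ∑ j, (ind (fun y => vl s w MD T y (f j) = true) y : F) =
        ZMod.castHom (dvd_refl p) F
          (Fml.lin s w (tv MD T y) (∑ j, Finsupp.single (f j) 1)) := by
      rw [Fml.lin_sum, map_sum]
      refine Finset.sum_congr rfl fun j _ => ?_
      unfold ind vl
      split_ifs <;> simp
    rw [h2, hci, ← map_sub, ← map_pow]
    by_cases h3 : Fml.lin s w (tv MD T y) (∑ j, Finsupp.single (f j) 1) = c
    · rw [ind_pos (fun y => Fml.lin s w (tv MD T y) (∑ j, Finsupp.single (f j) 1) = c) h3, h3,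
        sub_self, zero_pow (by have := hp.two_le; omega), map_zero, sub_zero]
    · rw [ind_neg (fun y => Fml.lin s w (tv MD T y) (∑ j, Finsupp.single (f j) 1) = c) h3,
        ZMod.pow_card_sub_one_eq_one (sub_ne_zero.2 h3), map_one, sub_self]
  rw [htt]
  refine MD.mono (Nat.mul_le_mul_right m (Nat.sub_le p 1)) ?_
  refine sub_mem_A MD (one_mem MD _) (pow_mem_A MD ?_ _)
  refine sub_mem_A MD (Submodule.sum_mem _ fun j _ => hf j) ?_
  exact Submodule.smul_mem _ _ (one_mem MD _)

/-- The instance of a formula at a point is a function of low degree. -/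
theorem sv_mem_A [CharP F p] (hρ : PM q ρ) {t K : ℕ} (h : ℕ) : ∀ φ : Fml p (Finset V),
    φ.depth s ≤ h → (∀ ψ ∈ φ.subs, ψ.rank s w ≤ K) →
    (∀ ψ ∈ φ.subs, ∀ χ ∈ ψ.insts s w, Dep q (T χ) ρ t) →
    ∀ χ, (ind (fun y => Fml.sv s w (tv MD T y) φ = χ) : MD.Y → F) ∈ MD.A (Bd p K t h) := by
  induction h with
  | zero =>
    intro φ hd hK hT χ
    rw [Bd]
    have h1 := sv_mem_of s w MD T (X := 0) φ (hK φ (Fml.self_mem_subs φ)) (by
      intro v hv
      exfalso
      obtain ⟨i, k, f, h1, h2, -⟩ := Fml.front_gate hv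
      have h3 := Fml.depth_subs (s := s) h1
      rw [Fml.depth, if_neg h2] at h3
      omega) χ
    rwa [Nat.mul_zero] at h1
  | succ h ih =>
    intro φ hd hK hT χ
    rw [Bd]
    refine sv_mem_of s w MD T φ (hK φ (Fml.self_mem_subs φ)) ?_ χ
    intro v hv c
    obtain ⟨i, k, f, h1, h2, rfl⟩ := Fml.front_gate hv
    refine lin_mem s w MD T f (fun j => ?_) c
    have h3 := Fml.depth_subs (s := s) h1
    have h4 := Fml.depth_lt_mod s f j h2
    have h5 : f j ∈ φ.subs := Fml.subs_trans (Fml.mod_mem_subs f j) h1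
    refine vl_mem_of s w MD T hρ (hT (f j) h5) (ih (f j) (by omega) ?_ ?_)
    · exact fun ψ hψ => hK ψ (Fml.subs_trans hψ h5)
    · exact fun ψ hψ => hT ψ (Fml.subs_trans hψ h5)

theorem vl_mem [CharP F p] (hρ : PM q ρ) {t K h : ℕ} (φ : Fml p (Finset V))
    (hd : φ.depth s ≤ h) (hK : ∀ ψ ∈ φ.subs, ψ.rank s w ≤ K)
    (hT : ∀ ψ ∈ φ.subs, ∀ χ ∈ ψ.insts s w, Dep q (T χ) ρ t) :
    (ind (fun y => vl s w MD T y φ = true) : MD.Y → F) ∈ MD.A (Bd p K t h + t) :=
  vl_mem_of s w MD T hρ (hT φ (Fml.self_mem_subs φ)) (sv_mem_A s w MD T hρ h φ hd hK hT)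

theorem vl_mem' [CharP F p] (hρ : PM q ρ) {t K h : ℕ} (φ : Fml p (Finset V))
    (hd : φ.depth s ≤ h) (hK : ∀ ψ ∈ φ.subs, ψ.rank s w ≤ K)
    (hT : ∀ ψ ∈ φ.subs, ∀ χ ∈ ψ.insts s w, Dep q (T χ) ρ t) :
    (ind (fun y => vl s w MD T y φ = false) : MD.Y → F) ∈ MD.A (Bd p K t h + t) := by
  have h1 : (ind (fun y => vl s w MD T y φ = false) : MD.Y → F) =
      1 - ind (fun y => vl s w MD T y φ = true) := by
    ext y
    rw [Pi.sub_apply, Pi.one_apply]
    by_cases h : vl s w MD T y φ = true
    · rw [ind_pos (fun y => vl s w MD T y φ = true) h,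
        ind_neg (fun y => vl s w MD T y φ = false) (by simp [h]), sub_self]
    · rw [ind_neg (fun y => vl s w MD T y φ = true) h,
        ind_pos (fun y => vl s w MD T y φ = false) (by simpa using h), sub_zero]
  rw [h1]
  exact sub_mem_A MD (one_mem MD _) (vl_mem s w MD T hρ φ hd hK hT)

end

end Pool.Agent.L0h36.BG
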